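import Pool.Agent.H543R2.EQ.Defs

/-! Fourier weight of level two under random restrictions. -/

namespace Pool.Agent.H543R2.EQ

open Pool.Agent.NPC Pool.Agent.H620R2.Gauge Finset H568R2 Pool.Agent.H676

section General

variable {I : Type*} [Fintype I] [DecidableEq I]

/-- Fourier weight of level `m` -/
noncomputable def Wl (m : ℕ) (f : (I → Bool) → Bool) : ℝ :=
  ∑ S ∈ univ.filter (fun S : I → Bool => wt S = m), |co (br f) S|

lemma L2_eq_Wl (f : (I → Bool) → Bool) : L2 f = Wl 2 f := rfl

lemma sum_upd (i : I) (g : (I → Bool) → ℝ) :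
    ∑ x, g x = (∑ x, g (Function.update x i false) + ∑ x, g (Function.update x i true)) / 2 := by
  have h1 : ∀ x : I → Bool, g (Function.update x i false) + g (Function.update x i true) =
      g x + g (flp i x) := by
    intro x
    have h0 : flp i x = Function.update x i (!x i) := rfl
    rw [h0]
    cases hx : x i
    · have : Function.update x i false = x := by rw [← hx]; exact Function.update_eq_self i x
      rw [this]; rfl
    · have : Function.update x i true = x := by rw [← hx]; exact Function.update_eq_self i x
      rw [this]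
      exact add_comm _ _
  rw [← Finset.sum_add_distrib, Finset.sum_congr rfl fun x _ => h1 x, Finset.sum_add_distrib,
    (flp i).sum_comp]
  ring

lemma ch_upd (S x : I → Bool) (i : I) (b : Bool) :
    ch S (Function.update x i b) =
      (if S i && b then (-1 : ℝ) else 1) * ch (Function.update S i false) x := by
  unfold ch
  rw [← Finset.mul_prod_erase univ _ (Finset.mem_univ i),
    ← Finset.mul_prod_erase univ
      (fun j => if (Function.update S i false) j && x j then (-1 : ℝ) else 1) (Finset.mem_univ i)]
  have h1 : ∏ j ∈ univ.erase i, (if S j && Function.update x i b j then (-1 : ℝ) else 1) =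
      ∏ j ∈ univ.erase i,
        (if (Function.update S i false) j && x j then (-1 : ℝ) else 1) := by
    refine Finset.prod_congr rfl fun j hj => ?_
    have hji : j ≠ i := Finset.ne_of_mem_erase hj
    rw [Function.update_of_ne hji, Function.update_of_ne hji]
  rw [h1, Function.update_self, Function.update_self]
  simp

lemma co_split (f : (I → Bool) → Bool) (i : I) (S : I → Bool) :
    co (br f) S = (co (br (fun x => f (Function.update x i false))) (Function.update S i false) +
      (if S i then (-1 : ℝ) else 1) *
        co (br (fun x => f (Function.update x i true))) (Function.update S i false)) / 2 := by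
  unfold co av
  rw [sum_upd i]
  have h1 : ∀ b : Bool, ∑ x : I → Bool, br f (Function.update x i b) *
      ch S (Function.update x i b) = (if S i && b then (-1 : ℝ) else 1) *
      ∑ x, br (fun x => f (Function.update x i b)) x * ch (Function.update S i false) x := by
    intro b
    rw [Finset.mul_sum]
    refine Finset.sum_congr rfl fun x _ => ?_
    rw [ch_upd]
    unfold br
    ring
  rw [h1, h1]
  simp only [Bool.and_false, Bool.and_true, Bool.false_eq_true, if_false]
  ring

lemma wt_upd_true {S : I → Bool} {i : I} (h : S i = true) :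
    wt (Function.update S i false) + 1 = wt S := by
  unfold wt
  have h1 : univ.filter (fun j => S j = true) =
      insert i (univ.filter (fun j => Function.update S i false j = true)) := by
    ext j
    simp only [Finset.mem_filter, Finset.mem_univ, true_and, Finset.mem_insert]
    by_cases hj : j = i
    · subst hj; simp [h]
    · rw [Function.update_of_ne hj]; simp [hj]
  rw [h1, Finset.card_insert_of_notMem (by simp)]

omit [Fintype I] in
lemma upd_self_false {S : I → Bool} {i : I} (h : S i = false) :
    Function.update S i false = S := by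
  rw [← h]; exact Function.update_eq_self i S

lemma Wl_split (m : ℕ) (f : (I → Bool) → Bool) (i : I) :
    Wl (m + 1) f ≤ (Wl (m + 1) (fun x => f (Function.update x i false)) +
      Wl (m + 1) (fun x => f (Function.update x i true))) / 2 +
      (Wl m (fun x => f (Function.update x i false)) +
      Wl m (fun x => f (Function.update x i true))) / 2 := by
  set f0 := fun x => f (Function.update x i false) with hf0
  set f1 := fun x => f (Function.update x i true) with hf1
  have hb : ∀ S : I → Bool, |co (br f) S| ≤ (|co (br f0) (Function.update S i false)| +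
      |co (br f1) (Function.update S i false)|) / 2 := by
    intro S
    rw [co_split f i S, abs_div, abs_two]
    apply div_le_div_of_nonneg_right _ (by norm_num)
    refine (abs_add_le _ _).trans ?_
    rw [abs_mul]
    have : |if S i = true then (-1 : ℝ) else 1| = 1 := by split_ifs <;> simp
    rw [this, one_mul]
  have hsp : Wl (m + 1) f =
      ∑ S ∈ (univ.filter (fun S : I → Bool => wt S = m + 1)).filter (fun S => S i = false),
        |co (br f) S| +
      ∑ S ∈ (univ.filter (fun S : I → Bool => wt S = m + 1)).filter (fun S => ¬ S i = false),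
        |co (br f) S| := by
    unfold Wl
    rw [Finset.sum_filter_add_sum_filter_not]
  have hA : ∑ S ∈ (univ.filter (fun S : I → Bool => wt S = m + 1)).filter (fun S => S i = false),
        |co (br f) S| ≤ (Wl (m + 1) f0 + Wl (m + 1) f1) / 2 := by
    have h1 : (Wl (m + 1) f0 + Wl (m + 1) f1) / 2 =
        ∑ S ∈ univ.filter (fun S : I → Bool => wt S = m + 1),
          (|co (br f0) S| + |co (br f1) S|) / 2 := by
      unfold Wl
      rw [← Finset.sum_add_distrib, Finset.sum_div]
    rw [h1]
    refine le_trans (Finset.sum_le_sum fun S hS => ?_)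
      (Finset.sum_le_sum_of_subset_of_nonneg
        (Finset.filter_subset (fun S : I → Bool => S i = false) _)
        (fun S _ _ => by positivity))
    have h2 := (Finset.mem_filter.1 hS).2
    have h3 := hb S
    rwa [upd_self_false h2] at h3
  have hB : ∑ S ∈ (univ.filter (fun S : I → Bool => wt S = m + 1)).filter (fun S => ¬ S i = false),
        |co (br f) S| ≤ (Wl m f0 + Wl m f1) / 2 := by
    have h1 : (Wl m f0 + Wl m f1) / 2 =
        ∑ S ∈ univ.filter (fun S : I → Bool => wt S = m),
          (|co (br f0) S| + |co (br f1) S|) / 2 := by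
      unfold Wl
      rw [← Finset.sum_add_distrib, Finset.sum_div]
    rw [h1]
    refine le_trans (Finset.sum_le_sum fun S _ => hb S) ?_
    rw [← Finset.sum_image (s := (univ.filter (fun S : I → Bool => wt S = m + 1)).filter
        (fun S => ¬ S i = false)) (g := fun S => Function.update S i false)
        (f := fun S => (|co (br f0) S| + |co (br f1) S|) / 2)]
    · refine Finset.sum_le_sum_of_subset_of_nonneg ?_ (fun S _ _ => by positivity)
      intro S hS
      obtain ⟨T, hT, rfl⟩ := Finset.mem_image.1 hS
      rw [Finset.mem_filter, Finset.mem_filter] at hT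
      rw [Finset.mem_filter]
      refine ⟨Finset.mem_univ _, ?_⟩
      have := wt_upd_true (S := T) (i := i) (by simpa using hT.2)
      omega
    · intro S hS T hT hST
      have hS2 : S i = true := by
        have := (Finset.mem_filter.1 hS).2
        simpa using this
      have hT2 : T i = true := by
        have := (Finset.mem_filter.1 hT).2
        simpa using this
      funext j
      by_cases hj : j = i
      · subst hj; rw [hS2, hT2]
      · have := congrFun hST j
        simp only [Function.update_of_ne hj] at this
        exact this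
  rw [hsp]
  linarith

lemma abs_co_le (f : (I → Bool) → Bool) (S : I → Bool) : |co (br f) S| ≤ 1 := by
  have hch : ∀ x : I → Bool, |ch S x| = 1 := by
    intro x
    unfold ch
    rw [Finset.abs_prod]
    apply Finset.prod_eq_one
    intro i _
    split_ifs <;> simp
  have hbr : ∀ x, |br f x| ≤ 1 := by
    intro x
    unfold br
    split_ifs <;> simp
  have h1 : ∀ x, |br f x * ch S x| ≤ 1 := by
    intro x
    rw [abs_mul, hch x, mul_one]
    exact hbr x
  rw [abs_le]
  constructor
  · have h2 : av (fun x => - (br f x * ch S x)) ≤ 1 :=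
      av_le fun x => by have := (abs_le.1 (h1 x)).1; linarith
    have h3 : av (fun x => - (br f x * ch S x)) = - co (br f) S := by
      unfold co av
      rw [Finset.sum_neg_distrib, neg_div]
    rw [h3] at h2
    linarith
  · exact av_le fun x => (abs_le.1 (h1 x)).2

lemma Wl_zero_le (f : (I → Bool) → Bool) : Wl 0 f ≤ 1 := by
  unfold Wl
  have h1 : univ.filter (fun S : I → Bool => wt S = 0) ⊆ {fun _ => false} := by
    intro S hS
    rw [Finset.mem_filter] at hS
    rw [Finset.mem_singleton]
    funext i
    have h2 := hS.2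
    unfold wt at h2
    rw [Finset.card_eq_zero, Finset.filter_eq_empty_iff] at h2
    simpa using h2 (Finset.mem_univ i)
  refine (Finset.sum_le_sum_of_subset_of_nonneg h1 (fun S _ _ => abs_nonneg _)).trans ?_
  rw [Finset.sum_singleton]
  exact abs_co_le f _

lemma Wl_const {m : ℕ} {f : (I → Bool) → Bool} (h : ∃ c, ∀ x, f x = c) : Wl (m + 1) f = 0 := by
  have h1 : Deg 0 (br f) := DTr.deg (k := 0) h
  unfold Wl
  apply Finset.sum_eq_zero
  intro S hS
  have h2 := (Finset.mem_filter.1 hS).2
  rw [h1 S (by omega), abs_zero]

lemma Wl_one_le {k : ℕ} : ∀ {f : (I → Bool) → Bool}, DTr k f → Wl 1 f ≤ k := by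
  induction k with
  | zero =>
    intro f h
    rw [Wl_const h]
    simp
  | succ k ih =>
    intro f h
    rcases h with h | ⟨i, h⟩
    · rw [Wl_const h]
      positivity
    · have h1 := Wl_split 0 f i
      have h2 := ih (h false)
      have h3 := ih (h true)
      have h4 := Wl_zero_le (fun x => f (Function.update x i false))
      have h5 := Wl_zero_le (fun x => f (Function.update x i true))
      simp only [zero_add] at h1
      push_cast
      linarith

lemma Wl_two_le {k : ℕ} : ∀ {f : (I → Bool) → Bool}, DTr k f → Wl 2 f ≤ (k : ℝ) ^ 2 := by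
  induction k with
  | zero =>
    intro f h
    rw [Wl_const h]
    simp
  | succ k ih =>
    intro f h
    rcases h with h | ⟨i, h⟩
    · rw [Wl_const h]
      positivity
    · have h1 := Wl_split 1 f i
      have h2 := ih (h false)
      have h3 := ih (h true)
      have h4 := Wl_one_le (h false)
      have h5 := Wl_one_le (h true)
      norm_num at h1
      have hk : (0 : ℝ) ≤ k := by positivity
      push_cast
      nlinarith

theorem L2_dtr {t : ℕ} {f : (I → Bool) → Bool} (h : DTr t f) : L2 f ≤ (t : ℝ) ^ 2 :=
  Wl_two_le h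

theorem L2_le_card (f : (I → Bool) → Bool) : L2 f ≤ (Fintype.card I : ℝ) ^ 2 := by
  apply L2_dtr
  apply DTr.of_junta
  refine ⟨univ, le_of_eq Finset.card_univ, fun x y hxy => ?_⟩
  have : x = y := funext fun i => hxy i (Finset.mem_univ i)
  rw [this]

lemma Ex_co_rr {p : ℝ} (f : (I → Bool) → ℝ) (T : I → Bool) :
    Ex (wq p) (fun ρ : Restr I => co (rr f ρ) T) = p ^ wt T * co f T := by
  unfold Ex
  have h1 : ∀ ρ : Restr I, (∏ i, wq p (ρ i)) * co (rr f ρ) T =
      ∑ U, co f U * ∏ i, (wq p (ρ i) * loc (U i) (T i) (ρ i)) := by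
    intro ρ
    rw [co_rr, Finset.mul_sum]
    refine Finset.sum_congr rfl fun U _ => ?_
    rw [Finset.prod_mul_distrib]
    ring
  rw [Finset.sum_congr rfl fun ρ _ => h1 ρ, Finset.sum_comm]
  have h2 : ∀ U : I → Bool, ∑ ρ : Restr I, co f U * ∏ i, (wq p (ρ i) * loc (U i) (T i) (ρ i)) =
      if U = T then p ^ wt T * co f T else 0 := by
    intro U
    rw [← Finset.mul_sum]
    have h3 := sum_prodO (fun (i : I) o => wq p o * loc (U i) (T i) o)
    rw [h3]
    by_cases h : U = T
    · subst h
      rw [if_pos (rfl : U = U), mul_comm, pow_wt]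
      congr 1
      refine Finset.prod_congr rfl fun i _ => ?_
      rw [Fintype.sum_option, Fintype.sum_bool]
      cases U i
      · simp [wq, loc]
      · simp [wq, loc]
    · rw [if_neg h]
      obtain ⟨i, hi⟩ := Function.ne_iff.1 h
      refine mul_eq_zero_of_right _ (Finset.prod_eq_zero (Finset.mem_univ i) ?_)
      rw [Fintype.sum_option, Fintype.sum_bool]
      cases hU : U i <;> cases hT : T i
      · exact absurd (hU.trans hT.symm) hi
      · simp [wq, loc]
      · simp [wq, loc]
      · exact absurd (hU.trans hT.symm) hi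
  rw [Finset.sum_congr rfl fun U _ => h2 U]
  simp

lemma abs_Ex_le {p : ℝ} (h0 : 0 ≤ p) (h1 : p ≤ 1) (F : Restr I → ℝ) :
    |Ex (wq p) F| ≤ Ex (wq p) (fun ρ => |F ρ|) := by
  unfold Ex
  refine (Finset.abs_sum_le_sum_abs _ _).trans (Finset.sum_le_sum fun ρ _ => ?_)
  rw [abs_mul, abs_of_nonneg (Finset.prod_nonneg fun i _ => wq_nonneg h0 h1 _)]

theorem L2_restr {p : ℝ} (h0 : 0 ≤ p) (h1 : p ≤ 1) (f : (I → Bool) → Bool) :
    p ^ 2 * L2 f ≤ Ex (wq p) (fun ρ : Restr I => L2 (rs f ρ)) := by
  unfold L2
  rw [Ex_sum, Finset.mul_sum]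
  refine Finset.sum_le_sum fun S hS => ?_
  have h2 := (Finset.mem_filter.1 hS).2
  have h3 := Ex_co_rr (p := p) (br f) S
  rw [h2] at h3
  have h4 : p ^ 2 * |co (br f) S| = |Ex (wq p) (fun ρ : Restr I => co (rr (br f) ρ) S)| := by
    rw [h3, abs_mul, abs_of_nonneg (by positivity : (0 : ℝ) ≤ p ^ 2)]
  rw [h4]
  exact abs_Ex_le h0 h1 _

theorem level2 {t : ℕ} {p η : ℝ} (hp : 0 < p) (hp1 : p ≤ 1) {f : (I → Bool) → Bool}
    (hG : GoodF t p η f) (σ : Restr I) :
    L2 (rs f σ) ≤ ((t : ℝ) ^ 2 + η * (Fintype.card I : ℝ) ^ 2) / p ^ 2 := by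
  classical
  rw [le_div_iff₀ (by positivity), mul_comm]
  refine (L2_restr hp.le hp1 (rs f σ)).trans ?_
  have h1 := hG σ p hp le_rfl
  unfold bad at h1
  have h2 : Ex (wq p) (fun ρ : Restr I => L2 (rs (rs f σ) ρ)) ≤
      Ex (wq p) (fun ρ : Restr I => (t : ℝ) ^ 2 + (Fintype.card I : ℝ) ^ 2 *
        (if ¬ DTr t (rs (rs f σ) ρ) then (1 : ℝ) else 0)) := by
    refine Ex_mono (wq_nonneg hp.le hp1) fun ρ => ?_
    by_cases h : DTr t (rs (rs f σ) ρ)
    · have := L2_dtr h
      simp only [h, not_true_eq_false, if_false, mul_zero, add_zero]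
      exact this
    · have := L2_le_card (rs (rs f σ) ρ)
      simp only [h, not_false_eq_true, if_true, mul_one]
      have h3 : (0 : ℝ) ≤ (t : ℝ) ^ 2 := by positivity
      linarith
  refine h2.trans ?_
  rw [Ex_add, Ex_const (wq_sum p), Ex_smul]
  have h3 : (Fintype.card I : ℝ) ^ 2 * Ex (wq p) (fun ρ : Restr I =>
      if ¬ DTr t (rs (rs f σ) ρ) then (1 : ℝ) else 0) ≤ (Fintype.card I : ℝ) ^ 2 * η := by
    apply mul_le_mul_of_nonneg_left _ (by positivity)
    convert h1 using 3
  linarith

end General

end Pool.Agent.H543R2.EQ
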