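import Pool.Agent.H543R2.EQ.Defs

/-! # Task A2: product expectations (helper495) -/

namespace Pool.Agent.H543R2.EQ

open Pool.Agent.NPC Pool.Agent.H620R2.Gauge Finset H568R2 Pool.Agent.H676

section General

variable {I : Type*} [Fintype I] [DecidableEq I]

theorem pe_const (z : I → ℝ) (c : ℝ) : pe z (fun _ => c) = c := by
  unfold pe
  rw [← Finset.sum_mul, sum_prod (fun i b => (1 + sg b * z i) / 2)]
  have : ∀ i ∈ (univ : Finset I), ((1 + sg false * z i) / 2 + (1 + sg true * z i) / 2) = 1 := by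
    intro i _
    simp only [sg]
    norm_num
    ring
  rw [Finset.prod_congr rfl this]
  simp

theorem pe_add (z : I → ℝ) (g g' : (I → Bool) → ℝ) :
    pe z (fun y => g y + g' y) = pe z g + pe z g' := by
  unfold pe
  rw [← Finset.sum_add_distrib]
  exact Finset.sum_congr rfl fun y _ => by ring

theorem pe_smul (z : I → ℝ) (c : ℝ) (g : (I → Bool) → ℝ) :
    pe z (fun y => c * g y) = c * pe z g := by
  unfold pe
  rw [Finset.mul_sum]
  exact Finset.sum_congr rfl fun y _ => by ring

theorem pe_mono {z : I → ℝ} (hz : ∀ i, |z i| ≤ 1) {g g' : (I → Bool) → ℝ}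
    (h : ∀ y, g y ≤ g' y) : pe z g ≤ pe z g' := by
  unfold pe
  refine Finset.sum_le_sum fun y _ => mul_le_mul_of_nonneg_left (h y) ?_
  refine Finset.prod_nonneg fun i _ => ?_
  have h1 := abs_le.1 (hz i)
  cases y i
  · simp only [sg]; norm_num; linarith
  · simp only [sg]; norm_num; linarith

theorem pe_zero (g : (I → Bool) → ℝ) : pe (fun _ => 0) g = av g := by
  unfold pe av
  rw [Finset.sum_div]
  refine Finset.sum_congr rfl fun y _ => ?_
  have : ∏ i : I, (1 + sg (y i) * (0:ℝ)) / 2 = 1 / 2 ^ Fintype.card I := by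
    simp
  rw [this]
  ring

theorem pe_fourier (w : I → ℝ) (g : (I → Bool) → ℝ) :
    pe w g = ∑ S : I → Bool, co g S * ∏ i, (if S i then w i else 1) := by
  unfold pe
  have h1 : ∀ y : I → Bool, (∏ i, (1 + sg (y i) * w i) / 2) * g y =
      ∑ S : I → Bool, co g S * ((∏ i, (1 + sg (y i) * w i) / 2) * ch S y) := by
    intro y
    conv_lhs => rw [inversion g y]
    rw [Finset.mul_sum]
    exact Finset.sum_congr rfl fun S _ => by ring
  rw [Finset.sum_congr rfl fun y _ => h1 y, Finset.sum_comm]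
  refine Finset.sum_congr rfl fun S _ => ?_
  rw [← Finset.mul_sum]
  congr 1
  have h2 : ∀ y : I → Bool, (∏ i, (1 + sg (y i) * w i) / 2) * ch S y =
      ∏ i, ((1 + sg (y i) * w i) / 2 * (if S i && y i then (-1 : ℝ) else 1)) := by
    intro y
    unfold ch
    rw [Finset.prod_mul_distrib]
  rw [Finset.sum_congr rfl fun y _ => h2 y,
    sum_prod (fun i b => (1 + sg b * w i) / 2 * (if S i && b then (-1 : ℝ) else 1))]
  refine Finset.prod_congr rfl fun i _ => ?_
  cases S i
  · simp only [sg]; norm_num; ring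
  · simp only [sg]; norm_num; ring

theorem pe_split {K H : Type*} [Fintype K] [DecidableEq K] [Fintype H] [DecidableEq H]
    (z : K ⊕ H → ℝ) (hz : ∀ h, z (Sum.inr h) = 0) (g : (K ⊕ H → Bool) → ℝ) :
    pe z g = pe (fun k => z (Sum.inl k)) (fun a => av (fun h => g (Sum.elim a h))) := by
  unfold pe av
  rw [← Equiv.sum_comp (Equiv.sumArrowEquivProdArrow K H Bool).symm, Fintype.sum_prod_type]
  refine Finset.sum_congr rfl fun a _ => ?_
  beta_reduce
  rw [Finset.sum_div, Finset.mul_sum]
  refine Finset.sum_congr rfl fun h _ => ?_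
  have e : (Equiv.sumArrowEquivProdArrow K H Bool).symm (a, h) = Sum.elim a h := rfl
  rw [e, Fintype.prod_sum_type]
  have e2 : ∏ x : H, (1 + sg (Sum.elim a h (Sum.inr x)) * z (Sum.inr x)) / 2
      = 1 / 2 ^ Fintype.card H := by
    simp [hz]
  rw [e2]
  simp only [Sum.elim_inl]
  ring

end General

end Pool.Agent.H543R2.EQ
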