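import Pool.Agent.H543R2.EQ.Defs
import Pool.Agent.H676.Rest

/-! Task A3: one small step of the walk is invisible. -/

namespace Pool.Agent.H543R2.EQ

open Pool.Agent.NPC Pool.Agent.H620R2.Gauge Finset H568R2 Pool.Agent.H676

section A3

variable {I : Type*} [Fintype I] [DecidableEq I]

private theorem peF (w : I → ℝ) (g : (I → Bool) → ℝ) :
    pe w g = ∑ S : I → Bool, co g S * ∏ i, (if S i then w i else 1) := by
  unfold pe
  have h1 : ∀ y : I → Bool, (∏ i, (1 + sg (y i) * w i) / 2) * g y =
      ∑ S : I → Bool, co g S * ∏ i, ((1 + sg (y i) * w i) / 2 *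
        (if S i && y i then (-1 : ℝ) else 1)) := by
    intro y
    conv_lhs => rw [inversion g y]
    rw [Finset.mul_sum]
    refine Finset.sum_congr rfl fun S _ => ?_
    rw [Finset.prod_mul_distrib]
    unfold ch
    ring
  rw [Finset.sum_congr rfl fun y _ => h1 y, Finset.sum_comm]
  refine Finset.sum_congr rfl fun S _ => ?_
  rw [← Finset.mul_sum]
  rw [sum_prod (fun i b => (1 + sg b * w i) / 2 * (if S i && b then (-1 : ℝ) else 1))]
  congr 1
  refine Finset.prod_congr rfl fun i _ => ?_
  cases S i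
  · simp [sg]; ring
  · simp [sg]; ring

/-- a biased point as a random restriction followed by a point of small bias -/
private theorem expand (W : I → Option Bool → ℝ) (hW1 : ∀ i, ∑ o, W i o = 1) (v z' : I → ℝ)
    (h : ∀ i, W i none * v i + W i (some false) - W i (some true) = z' i)
    (g : (I → Bool) → ℝ) :
    pe z' g = ∑ ρ : Restr I, (∏ i, W i (ρ i)) * pe v (rr g ρ) := by
  have h1 : ∀ ρ : Restr I, (∏ i, W i (ρ i)) * pe v (rr g ρ) =
      ∑ U : I → Bool, co g U * ∑ T : I → Bool, ∏ i, (W i (ρ i) * loc (U i) (T i) (ρ i) *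
        (if T i then v i else 1)) := by
    intro ρ
    rw [peF]
    have h2 : ∀ T : I → Bool, co (rr g ρ) T * ∏ i, (if T i then v i else 1) =
        ∑ U : I → Bool, co g U * ((∏ i, loc (U i) (T i) (ρ i)) *
          ∏ i, (if T i then v i else 1)) := by
      intro T
      rw [co_rr, Finset.sum_mul]
      exact Finset.sum_congr rfl fun U _ => by ring
    rw [Finset.sum_congr rfl fun T _ => h2 T, Finset.sum_comm, Finset.mul_sum]
    refine Finset.sum_congr rfl fun U _ => ?_
    rw [Finset.mul_sum, Finset.mul_sum]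
    refine Finset.sum_congr rfl fun T _ => ?_
    rw [Finset.prod_mul_distrib, Finset.prod_mul_distrib]
    ring
  rw [Finset.sum_congr rfl fun ρ _ => h1 ρ, Finset.sum_comm, peF]
  refine Finset.sum_congr rfl fun U _ => ?_
  rw [← Finset.mul_sum, Finset.sum_comm]
  congr 1
  have h3 : ∀ T : I → Bool, ∑ ρ : I → Option Bool, ∏ i, (W i (ρ i) * loc (U i) (T i) (ρ i) *
      (if T i then v i else 1)) = ∏ i, ∑ o, (W i o * loc (U i) (T i) o *
        (if T i then v i else 1)) := by
    intro T
    exact sum_prodO (fun i o => W i o * loc (U i) (T i) o * (if T i then v i else 1))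
  rw [Finset.sum_congr rfl fun T _ => h3 T]
  rw [sum_prod (fun i b => ∑ o, (W i o * loc (U i) b o * (if b then v i else 1)))]
  refine Finset.prod_congr rfl fun i _ => ?_
  have hW := hW1 i
  have hh := h i
  rw [Fintype.sum_option, Fintype.sum_bool] at hW
  rw [Fintype.sum_option, Fintype.sum_option, Fintype.sum_bool, Fintype.sum_bool]
  cases hU : U i
  · simp [loc]
    linarith
  · simp [loc]
    linarith

private theorem abs_co_le (F : (I → Bool) → Bool) (S : I → Bool) : |co (br F) S| ≤ 1 := by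
  have hch : ∀ x : I → Bool, |ch S x| = 1 := by
    intro x
    unfold ch
    rw [Finset.abs_prod]
    apply Finset.prod_eq_one
    intro i _
    split_ifs <;> simp
  have hb : ∀ x : I → Bool, |br F x * ch S x| ≤ 1 := by
    intro x
    rw [abs_mul, hch, mul_one]
    unfold br
    split_ifs <;> simp
  unfold co
  rw [abs_le]
  constructor
  · have h : av (fun x => (-1) * (br F x * ch S x)) ≤ 1 := by
      apply av_le
      intro x
      have := (abs_le.1 (hb x)).1
      linarith
    have h2 : av (fun x => (-1) * (br F x * ch S x)) = - av (fun x => br F x * ch S x) := by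
      unfold av
      rw [← Finset.mul_sum]
      ring
    rw [h2] at h
    linarith
  · apply av_le
    intro x
    exact (abs_le.1 (hb x)).2

private theorem card_wt (k : ℕ) :
    (univ.filter (fun S : I → Bool => wt S = k)).card = (Fintype.card I).choose k := by
  rw [← Finset.card_univ, ← Finset.card_powersetCard]
  refine Finset.card_nbij' (fun S => univ.filter (fun i => S i = true))
    (fun A => fun i => decide (i ∈ A)) ?_ ?_ ?_ ?_
  · intro S hS
    rw [Finset.mem_coe, Finset.mem_filter] at hS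
    rw [Finset.mem_coe, Finset.mem_powersetCard]
    exact ⟨Finset.subset_univ _, hS.2⟩
  · intro A hA
    rw [Finset.mem_coe, Finset.mem_powersetCard] at hA
    rw [Finset.mem_coe, Finset.mem_filter]
    refine ⟨Finset.mem_univ _, ?_⟩
    unfold wt
    rw [← hA.2]
    congr 1
    ext i
    simp
  · intro S _
    funext i
    simp
  · intro A _
    ext i
    simp

private theorem two_pow_pred_le (k : ℕ) : 2 ^ (k - 1) ≤ k.factorial := by
  induction k with
  | zero => simp
  | succ n ih =>
    rcases Nat.eq_zero_or_pos n with h | h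
    · subst h; simp
    · obtain ⟨m, rfl⟩ : ∃ m, n = m + 1 := ⟨n - 1, by omega⟩
      have e1 : m + 1 + 1 - 1 = m + 1 := by omega
      have e2 : m + 1 - 1 = m := by omega
      rw [e2] at ih
      rw [e1, Nat.factorial_succ, pow_succ]
      nlinarith

private theorem tail3 {c : ℝ} (hc : 0 ≤ c) (hcN : c * Fintype.card I ≤ 1) :
    ∑ S ∈ univ.filter (fun S : I → Bool => 3 ≤ wt S), c ^ wt S ≤ (c * Fintype.card I) ^ 3 := by
  set N := Fintype.card I with hN
  have hwt : ∀ S : I → Bool, wt S ≤ N := fun S => Finset.card_le_univ _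
  have h1 : ∑ S ∈ univ.filter (fun S : I → Bool => 3 ≤ wt S), c ^ wt S =
      ∑ k ∈ Finset.Ico 3 (N + 1), ∑ S ∈ (univ.filter (fun S : I → Bool => 3 ≤ wt S)).filter
        (fun S => wt S = k), c ^ wt S := by
    rw [Finset.sum_fiberwise_of_maps_to]
    intro S hS
    rw [Finset.mem_Ico]
    exact ⟨(Finset.mem_filter.1 hS).2, Nat.lt_succ_of_le (hwt S)⟩
  rw [h1]
  have h2 : ∀ k ∈ Finset.Ico 3 (N + 1), ∑ S ∈ (univ.filter (fun S : I → Bool => 3 ≤ wt S)).filter
        (fun S => wt S = k), c ^ wt S ≤ (c * N) ^ 3 * (1 / 2) ^ (k - 1) := by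
    intro k hk
    rw [Finset.mem_Ico] at hk
    have e1 : (univ.filter (fun S : I → Bool => 3 ≤ wt S)).filter (fun S => wt S = k) =
        univ.filter (fun S : I → Bool => wt S = k) := by
      ext S
      simp only [Finset.mem_filter, Finset.mem_univ, true_and]
      constructor
      · rintro ⟨_, h⟩; exact h
      · intro h; exact ⟨by omega, h⟩
    rw [e1]
    have e2 : ∑ S ∈ univ.filter (fun S : I → Bool => wt S = k), c ^ wt S =
        (N.choose k : ℝ) * c ^ k := by
      rw [Finset.sum_congr rfl (g := fun _ => c ^ k)]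
      · rw [Finset.sum_const, card_wt, nsmul_eq_mul]
      · intro S hS
        rw [(Finset.mem_filter.1 hS).2]
    rw [e2]
    have e3 : (N.choose k : ℝ) ≤ (N : ℝ) ^ k / (k.factorial : ℝ) := Nat.choose_le_pow_div k N
    have e4 : (2 : ℝ) ^ (k - 1) ≤ (k.factorial : ℝ) := by
      exact_mod_cast two_pow_pred_le k
    have e5 : (N : ℝ) ^ k / (k.factorial : ℝ) ≤ (N : ℝ) ^ k / 2 ^ (k - 1) :=
      div_le_div_of_nonneg_left (by positivity) (by positivity) e4
    have hcN0 : 0 ≤ c * N := by positivity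
    calc (N.choose k : ℝ) * c ^ k ≤ (N : ℝ) ^ k / 2 ^ (k - 1) * c ^ k :=
          mul_le_mul_of_nonneg_right (e3.trans e5) (by positivity)
      _ = (c * N) ^ k * (1 / 2) ^ (k - 1) := by
          rw [mul_pow, one_div, inv_pow]; ring
      _ ≤ (c * N) ^ 3 * (1 / 2) ^ (k - 1) := by
          apply mul_le_mul_of_nonneg_right _ (by positivity)
          exact pow_le_pow_of_le_one hcN0 hcN hk.1
  refine (Finset.sum_le_sum h2).trans ?_
  rw [← Finset.mul_sum]
  have h3 : ∑ k ∈ Finset.Ico 3 (N + 1), (1 / 2 : ℝ) ^ (k - 1) ≤ 1 := by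
    have h4 : ∀ M : ℕ, 3 ≤ M → ∑ k ∈ Finset.Ico 3 M, (1 / 2 : ℝ) ^ (k - 1) ≤
        1 / 2 - (1 / 2) ^ (M - 2) := by
      intro M hM
      induction M, hM using Nat.le_induction with
      | base => norm_num
      | succ m hm ih =>
        rw [Finset.sum_Ico_succ_top hm]
        obtain ⟨j, rfl⟩ : ∃ j, m = j + 3 := ⟨m - 3, by omega⟩
        have e1 : j + 3 - 1 = j + 2 := by omega
        have e2 : j + 3 - 2 = j + 1 := by omega
        have e3 : j + 3 + 1 - 2 = j + 2 := by omega
        rw [e2] at ih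
        rw [e1, e3]
        have e4 : (1 / 2 : ℝ) ^ (j + 2) = (1 / 2) ^ (j + 1) * (1 / 2) := pow_succ _ _
        rw [e4]
        linarith
    by_cases hN3 : 3 ≤ N + 1
    · have := h4 (N + 1) hN3
      have h5 : (0 : ℝ) < (1 / 2) ^ (N + 1 - 2) := by positivity
      linarith
    · rw [Finset.Ico_eq_empty (by omega)]
      simp
  have hcN0 : 0 ≤ (c * N) ^ 3 := by positivity
  nlinarith

omit [DecidableEq I] in
private theorem prod_if (S : I → Bool) (v : I → ℝ) :
    ∏ i, (if S i then v i else 1) = ∏ i ∈ univ.filter (fun i => S i = true), v i := by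
  rw [Finset.prod_filter]

private theorem level {Ω : Type*} [Fintype Ω] [Nonempty Ω] (F : (I → Bool) → Bool) {B : ℝ}
    (hB : L2 F ≤ B) (w : Ω → I → ℝ) {a b : ℝ} (ha : 0 ≤ a) (hb : 0 ≤ b)
    (h1 : ∀ i, ∑ ω, w ω i = 0)
    (h2 : ∀ i j, i ≠ j → |∑ ω, w ω i * w ω j| ≤ a * Fintype.card Ω)
    (h3 : ∀ ω i, |w ω i| ≤ b) (hbI : 8 * b * Fintype.card I ≤ 1) :
    |(∑ ω, pe (fun i => 8 * w ω i) (br F)) / Fintype.card Ω - pe (fun _ => 0) (br F)| ≤
      64 * a * B + (8 * b * Fintype.card I) ^ 3 := by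
  have hΩ : (0 : ℝ) < Fintype.card Ω := by exact_mod_cast Fintype.card_pos
  set m : (I → Bool) → ℝ := fun S =>
    (∑ ω, ∏ i, (if S i then 8 * w ω i else 1)) / Fintype.card Ω -
      ∏ i, (if S i then (0 : ℝ) else 1) with hm
  have e1 : (∑ ω, pe (fun i => 8 * w ω i) (br F)) / Fintype.card Ω - pe (fun _ => 0) (br F) =
      ∑ S, co (br F) S * m S := by
    rw [Finset.sum_congr rfl fun ω _ => peF (fun i => 8 * w ω i) (br F), peF, Finset.sum_comm,
      Finset.sum_div, ← Finset.sum_sub_distrib]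
    refine Finset.sum_congr rfl fun S _ => ?_
    rw [← Finset.mul_sum, hm]
    ring
  rw [e1]
  have hm01 : ∀ S, wt S ≤ 1 → m S = 0 := by
    intro S hS
    rw [hm]
    simp only
    rw [prod_if S (fun _ => 0), Finset.sum_congr rfl fun ω _ => prod_if S (fun i => 8 * w ω i)]
    unfold wt at hS
    rcases Nat.lt_or_ge (univ.filter (fun i => S i = true)).card 1 with h0 | h0
    · have : univ.filter (fun i => S i = true) = ∅ := Finset.card_eq_zero.1 (by omega)
      rw [this]
      simp
    · obtain ⟨i, hi⟩ := Finset.card_eq_one.1 (le_antisymm hS h0)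
      rw [hi]
      simp only [Finset.prod_singleton]
      rw [← Finset.mul_sum, h1 i]
      simp
  have hm2 : ∀ S, wt S = 2 → |m S| ≤ 64 * a := by
    intro S hS
    rw [hm]
    simp only
    rw [prod_if S (fun _ => 0), Finset.sum_congr rfl fun ω _ => prod_if S (fun i => 8 * w ω i)]
    unfold wt at hS
    obtain ⟨i, j, hij, hi⟩ := Finset.card_eq_two.1 hS
    rw [hi]
    simp only [Finset.prod_pair hij]
    have e2 : ∑ ω, 8 * w ω i * (8 * w ω j) = 64 * ∑ ω, w ω i * w ω j := by
      rw [Finset.mul_sum]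
      exact Finset.sum_congr rfl fun ω _ => by ring
    rw [e2, mul_zero, sub_zero, abs_div, abs_mul, abs_of_pos hΩ, abs_of_pos (by norm_num : (0:ℝ) < 64),
      div_le_iff₀ hΩ]
    have := h2 i j hij
    nlinarith
  have hm3 : ∀ S, 3 ≤ wt S → |m S| ≤ (8 * b) ^ wt S := by
    intro S hS
    rw [hm]
    simp only
    rw [prod_if S (fun _ => 0), Finset.sum_congr rfl fun ω _ => prod_if S (fun i => 8 * w ω i)]
    have hne : (univ.filter (fun i => S i = true)).Nonempty := by
      rw [← Finset.card_pos]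
      unfold wt at hS
      omega
    obtain ⟨i, hi⟩ := hne
    rw [Finset.prod_eq_zero hi rfl, sub_zero, abs_div, abs_of_pos hΩ, div_le_iff₀ hΩ]
    refine (Finset.abs_sum_le_sum_abs _ _).trans ?_
    have : ∀ ω ∈ (univ : Finset Ω), |∏ i ∈ univ.filter (fun i => S i = true), 8 * w ω i| ≤
        (8 * b) ^ wt S := by
      intro ω _
      rw [Finset.abs_prod]
      unfold wt
      rw [← Finset.prod_const]
      refine Finset.prod_le_prod (fun i _ => abs_nonneg _) fun i _ => ?_
      rw [abs_mul, abs_of_pos (by norm_num : (0:ℝ) < 8)]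
      have := h3 ω i
      linarith
    refine (Finset.sum_le_card_nsmul _ _ _ this).trans ?_
    rw [nsmul_eq_mul, Finset.card_univ]
    linarith [mul_comm ((8 * b) ^ wt S) (Fintype.card Ω : ℝ)]
  refine (Finset.abs_sum_le_sum_abs _ _).trans ?_
  have hpt : ∀ S : I → Bool, |co (br F) S * m S| ≤
      (if wt S = 2 then |co (br F) S| * (64 * a) else 0) +
      (if 3 ≤ wt S then (8 * b) ^ wt S else 0) := by
    intro S
    rw [abs_mul]
    have hc := abs_co_le F S
    have hc0 := abs_nonneg (co (br F) S)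
    rcases Nat.lt_or_ge (wt S) 2 with h | h
    · rw [hm01 S (by omega), abs_zero, mul_zero, if_neg (by omega), if_neg (by omega), add_zero]
    · rcases Nat.lt_or_ge 2 (wt S) with h' | h'
      · rw [if_neg (by omega), if_pos (by omega), zero_add]
        have := hm3 S h'
        have h0 := abs_nonneg (m S)
        nlinarith
      · rw [if_pos (by omega), if_neg (by omega), add_zero]
        exact mul_le_mul_of_nonneg_left (hm2 S (by omega)) hc0
  refine (Finset.sum_le_sum fun S _ => hpt S).trans ?_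
  rw [Finset.sum_add_distrib, ← Finset.sum_filter, ← Finset.sum_filter, ← Finset.sum_mul]
  have ht := tail3 (I := I) (c := 8 * b) (by positivity) hbI
  have hL : ∑ S ∈ univ.filter (fun S : I → Bool => wt S = 2), |co (br F) S| ≤ B := hB
  have : (∑ S ∈ univ.filter (fun S : I → Bool => wt S = 2), |co (br F) S|) * (64 * a) ≤
      B * (64 * a) := mul_le_mul_of_nonneg_right hL (by positivity)
  linarith

theorem one_step {Ω : Type*} [Fintype Ω] [Nonempty Ω] (f : (I → Bool) → Bool) {B : ℝ}
    (hB : ∀ σ : Restr I, L2 (rs f σ) ≤ B) (z : I → ℝ) (hz : ∀ i, |z i| ≤ 1) (w : Ω → I → ℝ)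
    (hact : ∀ i, (∀ ω, w ω i = 0) ∨ |z i| ≤ 7 / 8) {a b : ℝ} (ha : 0 ≤ a) (hb : 0 ≤ b)
    (h1 : ∀ i, ∑ ω, w ω i = 0)
    (h2 : ∀ i j, i ≠ j → |∑ ω, w ω i * w ω j| ≤ a * Fintype.card Ω)
    (h3 : ∀ ω i, |w ω i| ≤ b) (hbI : 8 * b * Fintype.card I ≤ 1) :
    |(∑ ω, pe (fun i => z i + w ω i) (br f)) / Fintype.card Ω - pe z (br f)| ≤
      64 * a * B + (8 * b * Fintype.card I) ^ 3 := by
  classical
  have hΩ : (0 : ℝ) < Fintype.card Ω := by exact_mod_cast Fintype.card_pos
  set W : I → Option Bool → ℝ := fun i o =>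
    match o with
    | none => if ∀ ω, w ω i = 0 then 0 else 1 / 8
    | some c => if ∀ ω, w ω i = 0 then (1 + sg c * z i) / 2 else (7 / 8 + sg c * z i) / 2
    with hW
  have hWn : ∀ i, W i none = if ∀ ω, w ω i = 0 then 0 else 1 / 8 := fun i => rfl
  have hWs : ∀ i c, W i (some c) =
    if ∀ ω, w ω i = 0 then (1 + sg c * z i) / 2 else (7 / 8 + sg c * z i) / 2 := fun i c => rfl
  have hW1 : ∀ i, ∑ o, W i o = 1 := by
    intro i
    rw [Fintype.sum_option, Fintype.sum_bool, hWn, hWs, hWs]
    split_ifs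
    · simp [sg]; ring
    · simp [sg]; ring
  have hW0 : ∀ i o, 0 ≤ W i o := by
    intro i o
    cases o with
    | none => rw [hWn]; split_ifs <;> norm_num
    | some c =>
      rw [hWs]
      have hzi := abs_le.1 (hz i)
      split_ifs with h
      · cases c
        · simp [sg]; linarith
        · simp [sg]; linarith
      · have := abs_le.1 ((hact i).resolve_left h)
        cases c
        · simp [sg]; linarith
        · simp [sg]; linarith
  have hE1 : ∀ ω, pe (fun i => z i + w ω i) (br f) =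
      ∑ ρ : Restr I, (∏ i, W i (ρ i)) * pe (fun i => 8 * w ω i) (rr (br f) ρ) := by
    intro ω
    apply expand W hW1
    intro i
    rw [hWn, hWs, hWs]
    split_ifs with h
    · rw [h ω]; simp [sg]; ring
    · simp [sg]; ring
  have hE2 : pe z (br f) =
      ∑ ρ : Restr I, (∏ i, W i (ρ i)) * pe (fun _ => 0) (rr (br f) ρ) := by
    apply expand W hW1
    intro i
    rw [hWs, hWs]
    split_ifs with h
    · simp [sg]; ring
    · simp [sg]; ring
  have hsum : (∑ ω, pe (fun i => z i + w ω i) (br f)) / Fintype.card Ω - pe z (br f) =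
      ∑ ρ : Restr I, (∏ i, W i (ρ i)) *
        ((∑ ω, pe (fun i => 8 * w ω i) (br (rs f ρ))) / Fintype.card Ω -
          pe (fun _ => 0) (br (rs f ρ))) := by
    rw [Finset.sum_congr rfl fun ω _ => hE1 ω, hE2, Finset.sum_comm, Finset.sum_div,
      ← Finset.sum_sub_distrib]
    refine Finset.sum_congr rfl fun ρ _ => ?_
    rw [← Finset.mul_sum, rr_br]
    ring
  rw [hsum]
  refine (Finset.abs_sum_le_sum_abs _ _).trans ?_
  have hpt : ∀ ρ ∈ (univ : Finset (Restr I)), |(∏ i, W i (ρ i)) *
        ((∑ ω, pe (fun i => 8 * w ω i) (br (rs f ρ))) / Fintype.card Ω -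
          pe (fun _ => 0) (br (rs f ρ)))| ≤
      (∏ i, W i (ρ i)) * (64 * a * B + (8 * b * Fintype.card I) ^ 3) := by
    intro ρ _
    rw [abs_mul, abs_of_nonneg (Finset.prod_nonneg fun i _ => hW0 i (ρ i))]
    exact mul_le_mul_of_nonneg_left (level (rs f ρ) (hB ρ) w ha hb h1 h2 h3 hbI)
      (Finset.prod_nonneg fun i _ => hW0 i (ρ i))
  refine (Finset.sum_le_sum hpt).trans ?_
  rw [← Finset.sum_mul]
  have hone : ∑ ρ : Restr I, ∏ i, W i (ρ i) = 1 := by
    rw [sum_prodO (fun i o => W i o)]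
    exact Finset.prod_eq_one fun i _ => hW1 i
  rw [hone, one_mul]

end A3

end Pool.Agent.H543R2.EQ
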