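import Pool.Agent.H543R2.EQ.Defs

/-!
# Expectations along a Markov chain
-/

namespace Pool.Agent.H543R2.EQ

open Finset

section Chain

variable {Ω : Type*} [Fintype Ω] [Nonempty Ω] {S : Type*} (w : Ω → (S → ℝ) → S → ℝ)

theorem chn_const (T : ℕ) (c : ℝ) (z : S → ℝ) : chn w T (fun _ => c) z = c := by
  have hc : (Fintype.card Ω : ℝ) ≠ 0 := by
    exact_mod_cast Fintype.card_ne_zero
  induction T generalizing z with
  | zero => rfl
  | succ T ih =>
    simp only [chn, ih]
    rw [Finset.sum_const, Finset.card_univ, nsmul_eq_mul]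
    field_simp

theorem chn_lin (T : ℕ) (a b : ℝ) (G G' : (S → ℝ) → ℝ) (z : S → ℝ) :
    chn w T (fun z => a * G z + b * G' z) z = a * chn w T G z + b * chn w T G' z := by
  induction T generalizing z with
  | zero => rfl
  | succ T ih =>
    simp only [chn, ih]
    rw [Finset.sum_add_distrib, ← Finset.mul_sum, ← Finset.mul_sum]
    ring

theorem chn_mono_inv {P : (S → ℝ) → Prop} (hP : ∀ z, P z → ∀ ω, P (w ω z))
    {G G' : (S → ℝ) → ℝ} (h : ∀ z, P z → G z ≤ G' z) :
    ∀ (T : ℕ) (z : S → ℝ), P z → chn w T G z ≤ chn w T G' z := by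
  intro T
  induction T with
  | zero => intro z hz; exact h z hz
  | succ T ih =>
    intro z hz
    simp only [chn]
    apply div_le_div_of_nonneg_right _ (Nat.cast_nonneg _)
    exact Finset.sum_le_sum fun ω _ => ih _ (hP z hz ω)

theorem chn_close {P : (S → ℝ) → Prop} (hP : ∀ z, P z → ∀ ω, P (w ω z)) {F : (S → ℝ) → ℝ}
    {e : ℝ} (h : ∀ z, P z → |(∑ ω, F (w ω z)) / Fintype.card Ω - F z| ≤ e) :
    ∀ (T : ℕ) (z : S → ℝ), P z → |chn w T F z - F z| ≤ T * e := by
  have hc0 : (0 : ℝ) < (Fintype.card Ω : ℝ) := by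
    exact_mod_cast Fintype.card_pos
  intro T
  induction T with
  | zero => intro z _; simp [chn]
  | succ T ih =>
    intro z hz
    have h1 := h z hz
    have h2 : |(∑ ω, (chn w T F (w ω z) - F (w ω z))) / Fintype.card Ω| ≤ T * e := by
      rw [abs_div, abs_of_pos hc0, div_le_iff₀ hc0]
      refine (Finset.abs_sum_le_sum_abs _ _).trans ?_
      refine (Finset.sum_le_sum fun ω _ => ih _ (hP z hz ω)).trans ?_
      rw [Finset.sum_const, Finset.card_univ, nsmul_eq_mul]
      linarith
    have h3 : chn w (T + 1) F z - F z =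
        (∑ ω, (chn w T F (w ω z) - F (w ω z))) / Fintype.card Ω
          + ((∑ ω, F (w ω z)) / Fintype.card Ω - F z) := by
      simp only [chn]
      rw [Finset.sum_sub_distrib]
      ring
    rw [h3]
    refine (abs_add_le _ _).trans ?_
    push_cast
    linarith

end Chain

end Pool.Agent.H543R2.EQ
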