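import Pool.Agent.H543R2.EQ.Defs

/-! The bent matrix. -/

namespace Pool.Agent.H543R2.EQ

open Pool.Agent.NPC Pool.Agent.H620R2.Gauge Finset H568R2 Pool.Agent.H676

theorem U_aux_sumX (n : ℕ) (F : Fin n → Bool → Bool → ℝ) :
    ∑ y : X n, ∏ i, F i (y.1 i) (y.2 i) = ∏ i, ∑ a, ∑ b, F i a b := by
  have h1 : ∑ y : X n, ∏ i, F i (y.1 i) (y.2 i) =
      ∑ g : Fin n → Bool × Bool, ∏ i, F i (g i).1 (g i).2 := by
    refine (Fintype.sum_equiv (Equiv.arrowProdEquivProdArrow (Fin n) (fun _ => Bool)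
      (fun _ => Bool)) _ _ ?_).symm
    intro g
    rfl
  rw [h1]
  have h2 := Finset.prod_univ_sum (fun _ : Fin n => (univ : Finset (Bool × Bool)))
    (fun i (p : Bool × Bool) => F i p.1 p.2)
  rw [Fintype.piFinset_univ] at h2
  rw [← h2]
  refine Finset.prod_congr rfl (fun i _ => ?_)
  rw [Fintype.sum_prod_type]

theorem U_row (n : ℕ) (x : X n) : ∑ y, U n x y = 1 := by
  unfold U
  rw [← Finset.sum_div]
  rw [U_aux_sumX n (fun i a b => if (x.1 i ^^ a) && (x.2 i ^^ b) then (-1 : ℝ) else 1)]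
  have h : ∀ i : Fin n, (∑ a, ∑ b, if (x.1 i ^^ a) && (x.2 i ^^ b) then (-1 : ℝ) else 1) = 2 := by
    intro i
    cases x.1 i <;> cases x.2 i <;> simp [Fintype.sum_bool] <;> norm_num
  rw [Finset.prod_congr rfl (fun i _ => h i)]
  simp

theorem U_orth (n : ℕ) (x x' : X n) : ∑ y, U n x y * U n x' y = if x = x' then 1 else 0 := by
  have h0 : ∀ y : X n, U n x y * U n x' y =
      (∏ i, ((if (x.1 i ^^ y.1 i) && (x.2 i ^^ y.2 i) then (-1 : ℝ) else 1) *
        (if (x'.1 i ^^ y.1 i) && (x'.2 i ^^ y.2 i) then (-1 : ℝ) else 1))) / 4 ^ n := by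
    intro y
    unfold U
    rw [Finset.prod_mul_distrib, div_mul_div_comm, ← mul_pow]
    norm_num
  rw [Finset.sum_congr rfl (fun y _ => h0 y), ← Finset.sum_div]
  rw [U_aux_sumX n (fun i a b => (if (x.1 i ^^ a) && (x.2 i ^^ b) then (-1 : ℝ) else 1) *
        (if (x'.1 i ^^ a) && (x'.2 i ^^ b) then (-1 : ℝ) else 1))]
  have h : ∀ i : Fin n, (∑ a, ∑ b, (if (x.1 i ^^ a) && (x.2 i ^^ b) then (-1 : ℝ) else 1) *
        (if (x'.1 i ^^ a) && (x'.2 i ^^ b) then (-1 : ℝ) else 1)) =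
      if x.1 i = x'.1 i ∧ x.2 i = x'.2 i then 4 else 0 := by
    intro i
    cases x.1 i <;> cases x.2 i <;> cases x'.1 i <;> cases x'.2 i <;>
      simp [Fintype.sum_bool] <;> norm_num
  rw [Finset.prod_congr rfl (fun i _ => h i)]
  by_cases hx : x = x'
  · subst hx
    simp
  · rw [if_neg hx]
    have : ∃ i, ¬ (x.1 i = x'.1 i ∧ x.2 i = x'.2 i) := by
      by_contra hcon
      push Not at hcon
      apply hx
      exact Prod.ext (funext fun i => (hcon i).1) (funext fun i => (hcon i).2)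
    obtain ⟨i, hi⟩ := this
    rw [Finset.prod_eq_zero (Finset.mem_univ i) (by rw [if_neg hi])]
    simp

theorem U_aux_sg (b : Bool) : ∃ m : ℤ, sg b = 1 - 2 * m := by
  cases b
  · exact ⟨0, by simp [sg]⟩
  · exact ⟨1, by simp [sg]; norm_num⟩

theorem U_aux_mul {a b : ℝ} (ha : ∃ m : ℤ, a = 1 - 2 * m) (hb : ∃ m : ℤ, b = 1 - 2 * m) :
    ∃ m : ℤ, a * b = 1 - 2 * m := by
  obtain ⟨m, rfl⟩ := ha
  obtain ⟨k, rfl⟩ := hb
  exact ⟨m + k - 2 * m * k, by push_cast; ring⟩

theorem U_aux_prod {ι : Type*} (s : Finset ι) (f : ι → ℝ) (h : ∀ i ∈ s, ∃ m : ℤ, f i = 1 - 2 * m) :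
    ∃ m : ℤ, ∏ i ∈ s, f i = 1 - 2 * m := by
  classical
  induction s using Finset.induction_on with
  | empty => exact ⟨0, by simp⟩
  | insert a s ha ih =>
    rw [Finset.prod_insert ha]
    exact U_aux_mul (h a (Finset.mem_insert_self _ _))
      (ih (fun i hi => h i (Finset.mem_insert_of_mem hi)))

theorem U_aux_sum {ι : Type*} (s : Finset ι) (f : ι → ℝ) (h : ∀ i ∈ s, ∃ m : ℤ, f i = 1 - 2 * m) :
    ∃ m : ℤ, ∑ i ∈ s, f i = s.card - 2 * m := by
  classical
  induction s using Finset.induction_on with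
  | empty => exact ⟨0, by simp⟩
  | insert a s ha ih =>
    rw [Finset.sum_insert ha, Finset.card_insert_of_notMem ha]
    obtain ⟨m, hm⟩ := h a (Finset.mem_insert_self _ _)
    obtain ⟨k, hk⟩ := ih (fun i hi => h i (Finset.mem_insert_of_mem hi))
    exact ⟨m + k, by rw [hm, hk]; push_cast; ring⟩

theorem psi_int (n : ℕ) (hn : 1 ≤ n) (y : J n → Bool) :
    ∃ m : ℤ, 8 ^ n * Psi n (sgv y) = 2 * m := by
  have h1 : 8 ^ n * Psi n (sgv y) = ∑ p : X n × X n,
      sg (y (Sum.inl (Sum.inl p.1))) *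
        (∏ i, if (p.1.1 i ^^ p.2.1 i) && (p.1.2 i ^^ p.2.2 i) then (-1 : ℝ) else 1) *
        sg (y (Sum.inl (Sum.inr p.2))) := by
    rw [Fintype.sum_prod_type]
    unfold Psi sgv U
    have h8 : (8 : ℝ) ^ n = 4 ^ n * 2 ^ n := by rw [← mul_pow]; norm_num
    rw [h8]
    have h4 : (4 : ℝ) ^ n ≠ 0 := by positivity
    have h2 : (2 : ℝ) ^ n ≠ 0 := by positivity
    rw [mul_comm ((4 : ℝ) ^ n), mul_assoc, mul_div_cancel₀ _ h4, Finset.mul_sum]
    refine Finset.sum_congr rfl (fun x _ => ?_)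
    rw [Finset.mul_sum]
    refine Finset.sum_congr rfl (fun z _ => ?_)
    field_simp
  obtain ⟨m, hm⟩ := U_aux_sum (univ : Finset (X n × X n)) (fun p =>
      sg (y (Sum.inl (Sum.inl p.1))) *
        (∏ i, if (p.1.1 i ^^ p.2.1 i) && (p.1.2 i ^^ p.2.2 i) then (-1 : ℝ) else 1) *
        sg (y (Sum.inl (Sum.inr p.2)))) (fun p _ => by
          refine U_aux_mul (U_aux_mul (U_aux_sg _) (U_aux_prod _ _ (fun i _ => ?_))) (U_aux_sg _)
          split_ifs
          · exact ⟨1, by norm_num⟩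
          · exact ⟨0, by norm_num⟩)
  rw [h1, hm]
  have hc : (univ : Finset (X n × X n)).card = 16 ^ n := by
    simp only [Finset.card_univ, Fintype.card_prod, Fintype.card_fun, Fintype.card_bool,
      Fintype.card_fin]
    rw [← mul_pow, ← mul_pow]
    norm_num
  rw [hc]
  obtain ⟨k, rfl⟩ : ∃ k, n = k + 1 := ⟨n - 1, by omega⟩
  exact ⟨8 * 16 ^ k - m, by push_cast; ring⟩

theorem dflt_no (n : ℕ) : NoI n (dflt n) := by
  unfold NoI val
  have h1 : Psi n (sgv (dflt n)) = 1 := by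
    unfold Psi
    have h : ∀ x : X n, (∑ z, sgv (dflt n) (Sum.inl (Sum.inl x)) * U n x z *
        sgv (dflt n) (Sum.inl (Sum.inr z))) = 1 := by
      intro x
      rw [← U_row n x]
      refine Finset.sum_congr rfl (fun z _ => ?_)
      simp [sgv, dflt, sg]
    rw [Finset.sum_congr rfl (fun x _ => h x)]
    simp only [Finset.sum_const, Finset.card_univ, Fintype.card_prod, Fintype.card_fun,
      Fintype.card_bool, Fintype.card_fin, nsmul_eq_mul, mul_one]
    rw [← mul_pow]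
    push_cast
    norm_num
    try exact div_self (by positivity)
  have h2 : (∑ i : X n × (Fin n → Bool), sg (dflt n (Sum.inr i))) / 8 ^ n = -1 := by
    have h : ∀ i : X n × (Fin n → Bool), sg (dflt n (Sum.inr i)) = -1 := by
      intro i; simp [dflt, sg]
    rw [Finset.sum_congr rfl (fun i _ => h i)]
    simp only [Finset.sum_const, Finset.card_univ, Fintype.card_prod, Fintype.card_fun,
      Fintype.card_bool, Fintype.card_fin, nsmul_eq_mul]
    rw [← mul_pow, ← mul_pow]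
    push_cast
    norm_num
    try field_simp
  rw [h1, h2]
  norm_num

end Pool.Agent.H543R2.EQ
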