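import Pool.Agent.H543R2.EQ.A5Aux
import Pool.Agent.H543R2.EQ.U

/-!
Project EQP, task A5 (helper640): variance of the form.
-/

set_option autoImplicit false

namespace Pool.Agent.H543R2.EQ

private theorem a5_U_symm (n : ℕ) (x y : X n) : U n x y = U n y x := by
  unfold U
  congr 1
  refine Finset.prod_congr rfl fun i _ => ?_
  rw [Bool.xor_comm (x.1 i), Bool.xor_comm (x.2 i)]

theorem pe_var (n : ℕ) {z : J n → ℝ} (hz : ∀ i, |z i| ≤ 1) :
    pe z (fun y => (Psi n (sgv y) - Psi n z) ^ 2) ≤ 4 / 4 ^ n :=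
  pe_var_of n (a5_U_symm n) (U_orth n) hz

end Pool.Agent.H543R2.EQ
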