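import Pool.Agent.H543R2.EQ.Defs

/-!
Project EQP, task A5 (helper640): variance of the form, from the orthogonality of `U`.
-/

set_option autoImplicit false

namespace Pool.Agent.H543R2.EQ

open Pool.Agent.NPC Pool.Agent.H620R2.Gauge Finset H568R2 Pool.Agent.H676

section A5gen

variable {I : Type*} [Fintype I] [DecidableEq I]

/-- flipping one coordinate -/
private def fl (i : I) : (I → Bool) ≃ (I → Bool) where
  toFun y := Function.update y i (!y i)
  invFun y := Function.update y i (!y i)
  left_inv y := by simp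
  right_inv y := by simp

private theorem a5_pe_flip (z : I → ℝ) (i : I) (F : (I → Bool) → ℝ) :
    pe z F = 1 / 2 * ∑ y, (∏ j ∈ univ.erase i, (1 + sg (y j) * z j) / 2) *
      ((1 + sg (y i) * z i) / 2 * F y +
        (1 + sg (!y i) * z i) / 2 * F (Function.update y i (!y i))) := by
  have h1 : pe z F = ∑ y : I → Bool, (∏ j ∈ univ.erase i, (1 + sg (y j) * z j) / 2) *
      ((1 + sg (y i) * z i) / 2 * F y) := by
    unfold pe
    refine sum_congr rfl fun y _ => ?_
    rw [← mul_prod_erase univ (fun j => (1 + sg (y j) * z j) / 2) (mem_univ i)]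
    ring
  have h2 : pe z F = ∑ y : I → Bool, (∏ j ∈ univ.erase i, (1 + sg (y j) * z j) / 2) *
      ((1 + sg (!y i) * z i) / 2 * F (Function.update y i (!y i))) := by
    rw [h1, ← Equiv.sum_comp (fl i)]
    refine sum_congr rfl fun y _ => ?_
    have e1 : (fl i y) i = !y i := by simp [fl]
    have e2 : (fl i y) = Function.update y i (!y i) := rfl
    rw [e1, e2]
    congr 1
    refine prod_congr rfl fun j hj => ?_
    rw [Function.update_of_ne (ne_of_mem_erase hj)]
  have h3 : ∑ y : I → Bool, (∏ j ∈ univ.erase i, (1 + sg (y j) * z j) / 2) *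
      ((1 + sg (y i) * z i) / 2 * F y +
        (1 + sg (!y i) * z i) / 2 * F (Function.update y i (!y i))) = pe z F + pe z F := by
    nth_rewrite 1 [h1]
    rw [h2, ← sum_add_distrib]
    refine sum_congr rfl fun y _ => ?_
    ring
  rw [h3]; ring

/-- independence of one coordinate -/
private theorem a5_indep (z : I → ℝ) (i : I) (g : Bool → ℝ) (h : (I → Bool) → ℝ)
    (hh : ∀ y b, h (Function.update y i b) = h y) :
    pe z (fun y => g (y i) * h y) =
      ((1 - z i) / 2 * g true + (1 + z i) / 2 * g false) * pe z h := by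
  rw [a5_pe_flip z i, a5_pe_flip z i h]
  rw [mul_left_comm, mul_sum, mul_sum]
  rw [mul_sum]
  refine sum_congr rfl fun y _ => ?_
  simp only [Function.update_self, hh]
  cases y i <;> simp [sg] <;> ring

private theorem a5_sum {K : Type*} (s : Finset K) (z : I → ℝ) (F : K → (I → Bool) → ℝ) :
    pe z (fun y => ∑ k ∈ s, F k y) = ∑ k ∈ s, pe z (F k) := by
  unfold pe
  rw [sum_comm]
  refine sum_congr rfl fun y _ => ?_
  rw [mul_sum]

private theorem a5_smul (z : I → ℝ) (c : ℝ) (F : (I → Bool) → ℝ) :
    pe z (fun y => c * F y) = c * pe z F := by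
  unfold pe
  rw [mul_sum]
  refine sum_congr rfl fun y _ => ?_
  ring

private theorem a5_add (z : I → ℝ) (F G : (I → Bool) → ℝ) :
    pe z (fun y => F y + G y) = pe z F + pe z G := by
  unfold pe
  rw [← sum_add_distrib]
  refine sum_congr rfl fun y _ => ?_
  ring

private theorem a5_w_nonneg {z : I → ℝ} (hz : ∀ i, |z i| ≤ 1) (y : I → Bool) :
    0 ≤ ∏ i, (1 + sg (y i) * z i) / 2 := by
  refine prod_nonneg fun i _ => ?_
  have h1 := neg_abs_le (z i)
  have h2 := le_abs_self (z i)
  have h3 := hz i
  cases y i <;> simp [sg] <;> linarith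

private theorem a5_mono {z : I → ℝ} (hz : ∀ i, |z i| ≤ 1) {F G : (I → Bool) → ℝ}
    (h : ∀ y, F y ≤ G y) : pe z F ≤ pe z G := by
  unfold pe
  exact sum_le_sum fun y _ => mul_le_mul_of_nonneg_left (h y) (a5_w_nonneg hz y)

private theorem a5_const (z : I → ℝ) (c : ℝ) : pe z (fun _ => c) = c := by
  unfold pe
  rw [← sum_mul]
  have : ∑ y : I → Bool, ∏ i, (1 + sg (y i) * z i) / 2 = 1 := by
    have := (Finset.prod_univ_sum (fun _ : I => (univ : Finset Bool))
      (fun i b => (1 + sg b * z i) / 2)).symm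
    rw [Fintype.piFinset_univ] at this
    rw [this]
    refine prod_eq_one fun i _ => ?_
    simp [sg]
    ring
  rw [this, one_mul]

private theorem a5_mean_zero (z : I → ℝ) (i : I) (h : (I → Bool) → ℝ)
    (hh : ∀ y b, h (Function.update y i b) = h y) :
    pe z (fun y => (sg (y i) - z i) * h y) = 0 := by
  rw [a5_indep z i (fun b => sg b - z i) h hh]
  simp [sg]
  left; ring

private theorem a5_var (z : I → ℝ) (i : I) (h : (I → Bool) → ℝ)
    (hh : ∀ y b, h (Function.update y i b) = h y) :
    pe z (fun y => (sg (y i) - z i) ^ 2 * h y) = (1 - z i ^ 2) * pe z h := by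
  rw [a5_indep z i (fun b => (sg b - z i) ^ 2) h hh]
  congr 1
  simp [sg]
  ring

private theorem a5_sg_sq (b : Bool) : sg b ^ 2 = 1 := by cases b <;> simp [sg]

/-- second moment of a sum with independent centred coefficients -/
private theorem a5_second {K : Type*} [Fintype K] [DecidableEq K] (A : K → I)
    (hA : Function.Injective A) {z : I → ℝ} (hz : ∀ i, |z i| ≤ 1)
    (β : K → (I → Bool) → ℝ) (hβ : ∀ k k' y b, β k (Function.update y (A k') b) = β k y) :
    pe z (fun y => (∑ k, (sg (y (A k)) - z (A k)) * β k y) ^ 2) ≤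
      pe z (fun y => ∑ k, β k y ^ 2) := by
  have e1 : (fun y => (∑ k, (sg (y (A k)) - z (A k)) * β k y) ^ 2) =
      fun y => ∑ k, ∑ k', (sg (y (A k)) - z (A k)) *
        ((sg (y (A k')) - z (A k')) * (β k y * β k' y)) := by
    funext y
    rw [sq, sum_mul_sum]
    refine sum_congr rfl fun k _ => sum_congr rfl fun k' _ => ?_
    ring
  rw [e1, a5_sum, a5_sum]
  refine sum_le_sum fun k _ => ?_
  rw [a5_sum]
  have e2 : ∀ k', pe z (fun y => (sg (y (A k)) - z (A k)) *
        ((sg (y (A k')) - z (A k')) * (β k y * β k' y))) =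
      if k = k' then (1 - z (A k) ^ 2) * pe z (fun y => β k y ^ 2) else 0 := by
    intro k'
    split_ifs with hk
    · subst hk
      rw [← a5_var z (A k) (fun y => β k y ^ 2) (fun y b => by rw [hβ])]
      congr 1
      funext y
      ring
    · apply a5_mean_zero
      intro y b
      rw [hβ, hβ, Function.update_of_ne (fun h => hk (hA h).symm)]
  rw [sum_congr rfl fun k' _ => e2 k', sum_ite_eq univ k]
  simp only [mem_univ, if_true]
  have h0 : 0 ≤ pe z (fun y => β k y ^ 2) := by
    rw [← a5_const z 0]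
    exact a5_mono hz fun y => sq_nonneg _
  nlinarith [sq_nonneg (z (A k))]

private theorem a5_form {K : Type*} [Fintype K] [DecidableEq K] (A B : K → I)
    (hA : Function.Injective A) (hB : Function.Injective B) (hAB : ∀ x y, A x ≠ B y)
    (M : K → K → ℝ) (hr : ∀ x x', ∑ y, M x y * M x' y = if x = x' then 1 else 0)
    (hc : ∀ y y', ∑ x, M x y * M x y' = if y = y' then 1 else 0)
    {z : I → ℝ} (hz : ∀ i, |z i| ≤ 1) :
    pe z (fun y => (∑ x, ∑ x', sg (y (A x)) * M x x' * sg (y (B x')) -
      ∑ x, ∑ x', z (A x) * M x x' * z (B x')) ^ 2) ≤ 4 * Fintype.card K := by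
  have hP : pe z (fun y => (∑ k, (sg (y (A k)) - z (A k)) *
      (∑ k', M k k' * sg (y (B k')))) ^ 2) ≤ Fintype.card K := by
    refine (a5_second A hA hz (fun k y => ∑ k', M k k' * sg (y (B k'))) ?_).trans ?_
    · intro k k' y b
      refine sum_congr rfl fun k'' _ => ?_
      rw [Function.update_of_ne (hAB k' k'').symm]
    · rw [← a5_const z (Fintype.card K : ℝ)]
      refine a5_mono hz fun y => le_of_eq ?_
      have : ∀ k, (∑ k', M k k' * sg (y (B k'))) ^ 2 =
          ∑ k', ∑ k'', (M k k' * M k k'') * (sg (y (B k')) * sg (y (B k''))) := by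
        intro k
        rw [sq, sum_mul_sum]
        refine sum_congr rfl fun _ _ => sum_congr rfl fun _ _ => ?_
        ring
      simp only [this]
      rw [sum_comm]
      have h2 : ∀ k', ∑ k, ∑ k'', (M k k' * M k k'') * (sg (y (B k')) * sg (y (B k''))) = 1 := by
        intro k'
        rw [sum_comm]
        have h3 : ∀ k'', ∑ k, (M k k' * M k k'') * (sg (y (B k')) * sg (y (B k''))) =
            if k' = k'' then sg (y (B k')) * sg (y (B k'')) else 0 := by
          intro k''
          rw [← sum_mul, hc]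
          split_ifs <;> simp
        rw [sum_congr rfl fun k'' _ => h3 k'', sum_ite_eq univ k']
        simp only [mem_univ, if_true]
        rw [← sq, a5_sg_sq]
      rw [sum_congr rfl fun k' _ => h2 k']
      simp
  have hQ : pe z (fun y => (∑ k, (sg (y (B k)) - z (B k)) *
      (∑ k', z (A k') * M k' k)) ^ 2) ≤ Fintype.card K := by
    refine (a5_second B hB hz (fun k _ => ∑ k', z (A k') * M k' k) ?_).trans ?_
    · intro k k' y b
      rfl
    · rw [a5_const]
      have : ∀ k, (∑ k', z (A k') * M k' k) ^ 2 =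
          ∑ k', ∑ k'', (M k' k * M k'' k) * (z (A k') * z (A k'')) := by
        intro k
        rw [sq, sum_mul_sum]
        refine sum_congr rfl fun _ _ => sum_congr rfl fun _ _ => ?_
        ring
      simp only [this]
      rw [sum_comm]
      have h2 : ∀ k', ∑ k, ∑ k'', (M k' k * M k'' k) * (z (A k') * z (A k'')) ≤ 1 := by
        intro k'
        rw [sum_comm]
        have h3 : ∀ k'', ∑ k, (M k' k * M k'' k) * (z (A k') * z (A k'')) =
            if k' = k'' then z (A k') * z (A k'') else 0 := by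
          intro k''
          rw [← sum_mul, hr]
          split_ifs <;> simp
        rw [sum_congr rfl fun k'' _ => h3 k'', sum_ite_eq univ k']
        simp only [mem_univ, if_true]
        rw [← sq]
        have := hz (A k')
        rw [← sq_abs]
        nlinarith [abs_nonneg (z (A k'))]
      refine (sum_le_sum fun k' _ => h2 k').trans ?_
      simp
  have key : ∀ y : I → Bool, (∑ x, ∑ x', sg (y (A x)) * M x x' * sg (y (B x')) -
      ∑ x, ∑ x', z (A x) * M x x' * z (B x')) =
      (∑ k, (sg (y (A k)) - z (A k)) * (∑ k', M k k' * sg (y (B k')))) +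
      (∑ k, (sg (y (B k)) - z (B k)) * (∑ k', z (A k') * M k' k)) := by
    intro y
    have h1 : (∑ k, (sg (y (B k)) - z (B k)) * (∑ k', z (A k') * M k' k)) =
        ∑ k', ∑ k, (sg (y (B k)) - z (B k)) * (z (A k') * M k' k) := by
      rw [sum_comm]
      refine sum_congr rfl fun _ _ => ?_
      rw [mul_sum]
    rw [h1, ← sum_sub_distrib, ← sum_add_distrib]
    refine sum_congr rfl fun k _ => ?_
    rw [← sum_sub_distrib, mul_sum, ← sum_add_distrib]
    refine sum_congr rfl fun k' _ => ?_
    ring
  calc pe z (fun y => (∑ x, ∑ x', sg (y (A x)) * M x x' * sg (y (B x')) -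
      ∑ x, ∑ x', z (A x) * M x x' * z (B x')) ^ 2)
      ≤ pe z (fun y => 2 * (∑ k, (sg (y (A k)) - z (A k)) *
          (∑ k', M k k' * sg (y (B k')))) ^ 2 +
          2 * (∑ k, (sg (y (B k)) - z (B k)) * (∑ k', z (A k') * M k' k)) ^ 2) := by
        refine a5_mono hz fun y => ?_
        rw [key y]
        nlinarith [sq_nonneg ((∑ k, (sg (y (A k)) - z (A k)) *
          (∑ k', M k k' * sg (y (B k')))) -
          (∑ k, (sg (y (B k)) - z (B k)) * (∑ k', z (A k') * M k' k)))]
    _ ≤ 4 * Fintype.card K := by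
        rw [a5_add, a5_smul, a5_smul]
        linarith

end A5gen

theorem pe_var_of (n : ℕ) (hs : ∀ x y : X n, U n x y = U n y x)
    (ho : ∀ x x' : X n, ∑ y, U n x y * U n x' y = if x = x' then 1 else 0)
    {z : J n → ℝ} (hz : ∀ i, |z i| ≤ 1) :
    pe z (fun y => (Psi n (sgv y) - Psi n z) ^ 2) ≤ 4 / 4 ^ n := by
  have h := a5_form (I := J n) (K := X n) (fun x => Sum.inl (Sum.inl x))
    (fun x => Sum.inl (Sum.inr x)) (fun x y h => Sum.inl_injective (Sum.inl_injective h))
    (fun x y h => Sum.inr_injective (Sum.inl_injective h)) (fun x y h => by simp at h) (U n) ho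
    (fun y y' => by
      rw [← ho y y']
      exact sum_congr rfl fun x _ => by rw [hs x y, hs x y']) hz
  have hc : (Fintype.card (X n) : ℝ) = 4 ^ n := by
    simp only [X, Fintype.card_prod, Fintype.card_pi, Fintype.card_bool, prod_const, card_univ,
      Fintype.card_fin]
    push_cast
    rw [← mul_pow]
    norm_num
  rw [hc] at h
  have e : (fun y : J n → Bool => (Psi n (sgv y) - Psi n z) ^ 2) =
      fun y => (1 / (4 ^ n) ^ 2) * (∑ x : X n, ∑ x' : X n, sg (y (Sum.inl (Sum.inl x))) * U n x x' *
        sg (y (Sum.inl (Sum.inr x'))) -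
        ∑ x : X n, ∑ x' : X n, z (Sum.inl (Sum.inl x)) * U n x x' * z (Sum.inl (Sum.inr x'))) ^ 2 := by
    funext y
    simp only [Psi, sgv]
    field_simp
  rw [e, a5_smul]
  have h4 : (0 : ℝ) < 4 ^ n := by positivity
  calc 1 / (4 ^ n) ^ 2 * _ ≤ 1 / ((4 : ℝ) ^ n) ^ 2 * (4 * 4 ^ n) := by gcongr
    _ = 4 / 4 ^ n := by field_simp

end Pool.Agent.H543R2.EQ
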