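import Pool.Agent.H543R2.EQ.Defs

/-!
# The random walk: invariants, and the probability of not reaching the value `1/8`

Task A6 of the project EQP.
-/

namespace Pool.Agent.H543R2.EQ

open Pool.Agent.NPC Pool.Agent.H620R2.Gauge Finset H568R2 Pool.Agent.H676

theorem A6_U_abs (n : ℕ) (x y : X n) : |U n x y| = 1 / 2 ^ n := by
  unfold U
  rw [abs_div, abs_prod, abs_of_pos (show (0 : ℝ) < 2 ^ n by positivity)]
  congr 1
  refine prod_eq_one fun i _ => ?_
  split_ifs <;> simp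

theorem A6_U_sq (n : ℕ) (x y : X n) : U n x y * U n x y = 1 / 4 ^ n := by
  rw [← abs_mul_abs_self, A6_U_abs, div_mul_div_comm, ← mul_pow]
  norm_num

theorem A6_cardX (n : ℕ) : Fintype.card (X n) = 4 ^ n := by
  simp [X, Fintype.card_prod]
  rw [← mul_pow]
  norm_num

theorem A6_cardX' (n : ℕ) : (Fintype.card (X n) : ℝ) = 4 ^ n := by
  rw [A6_cardX]; push_cast; ring

theorem A6_sg_abs (b : Bool) : |sg b| = 1 := by
  cases b <;> simp [sg]

theorem A6_sg_sq (b : Bool) : sg b * sg b = 1 := by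
  cases b <;> simp [sg]

theorem A6_sg_not (b : Bool) : sg (!b) = - sg b := by
  cases b <;> simp [sg]

/-- every coordinate of the direction is at most `2 ^ n` -/
theorem A6_inc_abs (n : ℕ) (ω : X n → Bool) (i : J n) : |inc n ω i| ≤ 2 ^ n := by
  rcases i with (x | y) | r
  · simp only [inc, A6_sg_abs]
    exact one_le_pow₀ (by norm_num)
  · simp only [inc]
    calc |∑ x, U n x y * sg (ω x)| ≤ ∑ x, |U n x y * sg (ω x)| := abs_sum_le_sum_abs _ _
      _ = ∑ _x : X n, (1 : ℝ) / 2 ^ n := by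
        refine sum_congr rfl fun x _ => ?_
        rw [abs_mul, A6_U_abs, A6_sg_abs, mul_one]
      _ = 2 ^ n := by
        rw [sum_const, card_univ, nsmul_eq_mul, A6_cardX']
        rw [show (4 : ℝ) ^ n = 2 ^ n * 2 ^ n by rw [← mul_pow]; norm_num]
        field_simp
  · simp only [inc, abs_zero]
    positivity

theorem A6_inc_abs_a (n : ℕ) (ω : X n → Bool) (x : X n) :
    |inc n ω (Sum.inl (Sum.inl x))| = 1 := by
  simp only [inc, A6_sg_abs]

theorem A6_stp_ge (n : ℕ) (δ : ℝ) (ω : X n → Bool) {z : J n → ℝ} (hz : ¬ Psi n z < 1 / 8) :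
    stp n δ ω z = z := by
  funext i
  simp only [stp]
  rw [if_neg fun h => hz h.1]

theorem A6_stp_abs (n : ℕ) {δ : ℝ} (hδ : 0 ≤ δ) (h : δ * 2 ^ n ≤ 1 / 8) {z : J n → ℝ}
    (hz : ∀ i, |z i| ≤ 1) (ω : X n → Bool) (i : J n) : |stp n δ ω z i| ≤ 1 := by
  simp only [stp]
  split_ifs with hc
  · calc |z i + δ * inc n ω i| ≤ |z i| + |δ * inc n ω i| := abs_add_le _ _
      _ = |z i| + δ * |inc n ω i| := by rw [abs_mul, abs_of_nonneg hδ]
      _ ≤ 7 / 8 + δ * 2 ^ n := by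
        have := mul_le_mul_of_nonneg_left (A6_inc_abs n ω i) hδ
        linarith [hc.2]
      _ ≤ 1 := by linarith
  · exact hz i

theorem A6_stp_diff (n : ℕ) {δ : ℝ} (hδ : 0 ≤ δ) (z : J n → ℝ) (ω : X n → Bool) (i : J n) :
    |stp n δ ω z i - z i| ≤ δ * |inc n ω i| := by
  simp only [stp]
  split_ifs with hc
  · rw [add_sub_cancel_left, abs_mul, abs_of_nonneg hδ]
  · rw [sub_self, abs_zero]; positivity

theorem A6_psi_diff (n : ℕ) {δ : ℝ} (hδ : 0 ≤ δ) (h : δ * 2 ^ n ≤ 1 / 8) {z : J n → ℝ}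
    (hz : ∀ i, |z i| ≤ 1) (ω : X n → Bool) :
    Psi n (stp n δ ω z) - Psi n z ≤ 3 * 4 ^ n * δ := by
  have h4 : (0 : ℝ) < 4 ^ n := by positivity
  have h2 : (0 : ℝ) < 2 ^ n := by positivity
  have h21 : (1 : ℝ) ≤ 2 ^ n := one_le_pow₀ (by norm_num)
  have key : ∀ x y : X n, stp n δ ω z (Sum.inl (Sum.inl x)) * U n x y *
      stp n δ ω z (Sum.inl (Sum.inr y)) - z (Sum.inl (Sum.inl x)) * U n x y *
      z (Sum.inl (Sum.inr y)) ≤ 2 * δ := by
    intro x y
    set u' := stp n δ ω z (Sum.inl (Sum.inl x)) with hu'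
    set v' := stp n δ ω z (Sum.inl (Sum.inr y)) with hv'
    set u := z (Sum.inl (Sum.inl x)) with hu
    set v := z (Sum.inl (Sum.inr y)) with hv
    have e1 : |u' - u| ≤ δ := by
      have := A6_stp_diff n hδ z ω (Sum.inl (Sum.inl x))
      rwa [A6_inc_abs_a, mul_one] at this
    have e2 : |v' - v| ≤ δ * 2 ^ n :=
      (A6_stp_diff n hδ z ω (Sum.inl (Sum.inr y))).trans
        (mul_le_mul_of_nonneg_left (A6_inc_abs n ω _) hδ)
    have e3 : |v'| ≤ 1 := A6_stp_abs n hδ h hz ω _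
    have e4 : |u| ≤ 1 := hz _
    calc u' * U n x y * v' - u * U n x y * v
        = U n x y * ((u' - u) * v' + u * (v' - v)) := by ring
      _ ≤ |U n x y * ((u' - u) * v' + u * (v' - v))| := le_abs_self _
      _ = 1 / 2 ^ n * |(u' - u) * v' + u * (v' - v)| := by rw [abs_mul, A6_U_abs]
      _ ≤ 1 / 2 ^ n * (δ * 1 + 1 * (δ * 2 ^ n)) := by
        refine mul_le_mul_of_nonneg_left ?_ (by positivity)
        refine (abs_add_le _ _).trans ?_
        rw [abs_mul, abs_mul]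
        exact add_le_add (mul_le_mul e1 e3 (abs_nonneg _) hδ)
          (mul_le_mul e4 e2 (abs_nonneg _) zero_le_one)
      _ ≤ 1 / 2 ^ n * (2 * (δ * 2 ^ n)) := by
        refine mul_le_mul_of_nonneg_left ?_ (by positivity)
        nlinarith
      _ = 2 * δ := by field_simp
  have hs : (∑ x, ∑ y, stp n δ ω z (Sum.inl (Sum.inl x)) * U n x y *
      stp n δ ω z (Sum.inl (Sum.inr y))) - (∑ x, ∑ y, z (Sum.inl (Sum.inl x)) * U n x y *
      z (Sum.inl (Sum.inr y))) ≤ 4 ^ n * (4 ^ n * (2 * δ)) := by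
    rw [← sum_sub_distrib]
    calc _ ≤ ∑ _x : X n, (4 : ℝ) ^ n * (2 * δ) := by
          refine sum_le_sum fun x _ => ?_
          rw [← sum_sub_distrib]
          calc _ ≤ ∑ _y : X n, 2 * δ := sum_le_sum fun y _ => key x y
            _ = _ := by rw [sum_const, card_univ, nsmul_eq_mul, A6_cardX']
      _ = _ := by rw [sum_const, card_univ, nsmul_eq_mul, A6_cardX']
  unfold Psi
  rw [← sub_div, div_le_iff₀ h4]
  refine hs.trans ?_
  nlinarith [mul_nonneg (mul_nonneg h4.le h4.le) hδ]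

theorem inv_stp (n : ℕ) {δ : ℝ} (hδ : 0 ≤ δ) (h : δ * 2 ^ n ≤ 1 / 8) {z : J n → ℝ}
    (hz : ∀ i, |z i| ≤ 1) (hP : Psi n z ≤ 1 / 8 + 3 * 4 ^ n * δ) (ω : X n → Bool) :
    (∀ i, |stp n δ ω z i| ≤ 1) ∧ Psi n (stp n δ ω z) ≤ 1 / 8 + 3 * 4 ^ n * δ := by
  refine ⟨A6_stp_abs n hδ h hz ω, ?_⟩
  by_cases hc : Psi n z < 1 / 8
  · linarith [A6_psi_diff n hδ h hz ω]
  · rw [A6_stp_ge n δ ω hc]; exact hP

section Sums

variable {I : Type*} [Fintype I] [DecidableEq I]

theorem A6_sum_sg (x : I) : ∑ ω : I → Bool, sg (ω x) = 0 := by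
  refine Finset.sum_involution (fun ω _ => Function.update ω x (!ω x)) ?_ ?_ ?_ ?_
  · intro ω _
    simp [A6_sg_not]
  · intro ω _ _ he
    have := congrFun he x
    simp at this
  · intro ω _; exact mem_univ _
  · intro ω _
    simp

theorem A6_sum_sg_sg {x y : I} (h : x ≠ y) : ∑ ω : I → Bool, sg (ω x) * sg (ω y) = 0 := by
  refine Finset.sum_involution (fun ω _ => Function.update ω x (!ω x)) ?_ ?_ ?_ ?_
  · intro ω _
    simp [A6_sg_not, Function.update_of_ne h.symm]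
  · intro ω _ _ he
    have := congrFun he x
    simp at this
  · intro ω _; exact mem_univ _
  · intro ω _
    simp

theorem A6_sum_sg_sg' (x y : I) : ∑ ω : I → Bool, sg (ω x) * sg (ω y) =
    if x = y then (Fintype.card (I → Bool) : ℝ) else 0 := by
  split_ifs with h
  · subst h
    simp_rw [A6_sg_sq]
    rw [sum_const, card_univ, nsmul_eq_mul, mul_one]
  · exact A6_sum_sg_sg h

end Sums

theorem A6_inc_sum (n : ℕ) (i : X n ⊕ X n) : ∑ ω : X n → Bool, inc n ω (Sum.inl i) = 0 := by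
  rcases i with x | y
  · simp only [inc]; exact A6_sum_sg x
  · simp only [inc]
    rw [sum_comm]
    refine sum_eq_zero fun x _ => ?_
    rw [← mul_sum, A6_sum_sg, mul_zero]

theorem A6_inc_ab (n : ℕ) (x y : X n) :
    ∑ ω : X n → Bool, inc n ω (Sum.inl (Sum.inl x)) * inc n ω (Sum.inl (Sum.inr y)) =
      U n x y * Fintype.card (X n → Bool) := by
  simp only [inc]
  simp_rw [mul_sum]
  rw [sum_comm]
  have : ∀ x' : X n, ∑ ω : X n → Bool, sg (ω x) * (U n x' y * sg (ω x')) =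
      if x = x' then U n x' y * Fintype.card (X n → Bool) else 0 := by
    intro x'
    have h1 : ∀ ω : X n → Bool, sg (ω x) * (U n x' y * sg (ω x')) =
        U n x' y * (sg (ω x) * sg (ω x')) := fun ω => by ring
    simp_rw [h1]
    rw [← mul_sum, A6_sum_sg_sg']
    split_ifs <;> simp
  rw [sum_congr rfl fun x' _ => this x']
  rw [sum_ite_eq]
  simp

theorem A6_inc_sq (n : ℕ) (i : X n ⊕ X n) :
    ∑ ω : X n → Bool, inc n ω (Sum.inl i) ^ 2 = Fintype.card (X n → Bool) := by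
  rcases i with x | y
  · simp only [inc, sq, A6_sg_sq]
    rw [sum_const, card_univ, nsmul_eq_mul, mul_one]
  · have h1 : ∀ ω : X n → Bool, inc n ω (Sum.inl (Sum.inr y)) ^ 2 =
        ∑ x, U n x y * (inc n ω (Sum.inl (Sum.inl x)) * inc n ω (Sum.inl (Sum.inr y))) := by
      intro ω
      simp only [inc]
      rw [sq, sum_mul]
      refine sum_congr rfl fun x _ => ?_
      ring
    simp_rw [h1]
    rw [sum_comm]
    simp_rw [← mul_sum, A6_inc_ab, ← mul_assoc, A6_U_sq]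
    rw [sum_const, card_univ, nsmul_eq_mul, A6_cardX']
    field_simp

open Classical in
/-- is the coordinate active? -/
noncomputable def A6_act (t : ℝ) : ℝ := if |t| ≤ 7 / 8 then 1 else 0

theorem A6_act_nonneg (t : ℝ) : 0 ≤ A6_act t := by
  unfold A6_act; split_ifs <;> norm_num

theorem A6_act_le (t : ℝ) : A6_act t ≤ 1 := by
  unfold A6_act; split_ifs <;> norm_num

theorem A6_act_sq (t : ℝ) : A6_act t * A6_act t = A6_act t := by
  unfold A6_act; split_ifs <;> norm_num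

theorem A6_act_ge (t : ℝ) : 1 - A6_act t ≤ 64 / 49 * t ^ 2 := by
  unfold A6_act
  split_ifs with h
  · nlinarith [sq_nonneg t]
  · push Not at h
    have : (7 / 8 : ℝ) ^ 2 ≤ |t| ^ 2 := by
      exact pow_le_pow_left₀ (by norm_num) h.le 2
    rw [sq_abs] at this
    norm_num at this
    linarith

theorem A6_stp_lt (n : ℕ) (δ : ℝ) (ω : X n → Bool) {z : J n → ℝ} (hz : Psi n z < 1 / 8)
    (i : J n) : stp n δ ω z i = z i + δ * A6_act (z i) * inc n ω i := by
  simp only [stp, A6_act, hz, true_and]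
  split_ifs <;> ring

/-- the mean of the form after one step -/
theorem A6_psi_mean (n : ℕ) (δ : ℝ) {z : J n → ℝ} (hz : Psi n z < 1 / 8) :
    ∑ ω : X n → Bool, Psi n (stp n δ ω z) = Fintype.card (X n → Bool) *
      (Psi n z + δ ^ 2 * ((∑ x, A6_act (z (Sum.inl (Sum.inl x)))) / 4 ^ n) *
        ((∑ y, A6_act (z (Sum.inl (Sum.inr y)))) / 4 ^ n)) := by
  have h4 : (4 : ℝ) ^ n ≠ 0 := by positivity
  set N : ℝ := (Fintype.card (X n → Bool) : ℝ) with hN
  have key : ∀ x y : X n, ∑ ω : X n → Bool, stp n δ ω z (Sum.inl (Sum.inl x)) * U n x y *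
      stp n δ ω z (Sum.inl (Sum.inr y)) = N * (z (Sum.inl (Sum.inl x)) * U n x y *
      z (Sum.inl (Sum.inr y))) + N * δ ^ 2 * A6_act (z (Sum.inl (Sum.inl x))) *
      A6_act (z (Sum.inl (Sum.inr y))) * (1 / 4 ^ n) := by
    intro x y
    have h1 : ∀ ω : X n → Bool, stp n δ ω z (Sum.inl (Sum.inl x)) * U n x y *
        stp n δ ω z (Sum.inl (Sum.inr y)) = z (Sum.inl (Sum.inl x)) * U n x y *
          z (Sum.inl (Sum.inr y)) +
        (δ * A6_act (z (Sum.inl (Sum.inl x))) * U n x y * z (Sum.inl (Sum.inr y))) *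
          inc n ω (Sum.inl (Sum.inl x)) +
        (δ * A6_act (z (Sum.inl (Sum.inr y))) * U n x y * z (Sum.inl (Sum.inl x))) *
          inc n ω (Sum.inl (Sum.inr y)) +
        (δ ^ 2 * A6_act (z (Sum.inl (Sum.inl x))) * A6_act (z (Sum.inl (Sum.inr y))) * U n x y) *
          (inc n ω (Sum.inl (Sum.inl x)) * inc n ω (Sum.inl (Sum.inr y))) := by
      intro ω
      rw [A6_stp_lt n δ ω hz, A6_stp_lt n δ ω hz]
      ring
    simp_rw [h1]
    rw [sum_add_distrib, sum_add_distrib, sum_add_distrib, sum_const, card_univ, nsmul_eq_mul,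
      ← mul_sum, ← mul_sum, ← mul_sum, A6_inc_sum, A6_inc_sum, A6_inc_ab, ← hN, ← A6_U_sq n x y]
    ring
  unfold Psi
  rw [← sum_div]
  have h2 : ∑ ω : X n → Bool, ∑ x, ∑ y, stp n δ ω z (Sum.inl (Sum.inl x)) * U n x y *
      stp n δ ω z (Sum.inl (Sum.inr y)) = ∑ x, ∑ y, (N * (z (Sum.inl (Sum.inl x)) * U n x y *
      z (Sum.inl (Sum.inr y))) + N * δ ^ 2 * A6_act (z (Sum.inl (Sum.inl x))) *
      A6_act (z (Sum.inl (Sum.inr y))) * (1 / 4 ^ n)) := by
    rw [sum_comm]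
    refine sum_congr rfl fun x _ => ?_
    rw [sum_comm]
    refine sum_congr rfl fun y _ => key x y
  have h3 : ∑ x : X n, ∑ y : X n, (N * (z (Sum.inl (Sum.inl x)) * U n x y *
      z (Sum.inl (Sum.inr y))) + N * δ ^ 2 * A6_act (z (Sum.inl (Sum.inl x))) *
      A6_act (z (Sum.inl (Sum.inr y))) * (1 / 4 ^ n)) =
      N * (∑ x, ∑ y, z (Sum.inl (Sum.inl x)) * U n x y * z (Sum.inl (Sum.inr y))) +
      N * δ ^ 2 * (1 / 4 ^ n) * ((∑ x, A6_act (z (Sum.inl (Sum.inl x)))) *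
        ∑ y, A6_act (z (Sum.inl (Sum.inr y)))) := by
    rw [sum_mul_sum, mul_sum, mul_sum, ← sum_add_distrib]
    refine sum_congr rfl fun x _ => ?_
    rw [mul_sum, mul_sum, ← sum_add_distrib]
    refine sum_congr rfl fun y _ => ?_
    ring
  rw [h2, h3]
  field_simp

/-- the mean of the squares after one step -/
theorem A6_sq_mean (n : ℕ) (δ : ℝ) {z : J n → ℝ} (hz : Psi n z < 1 / 8) :
    ∑ ω : X n → Bool, (∑ i, stp n δ ω z (Sum.inl i) ^ 2) ≤ Fintype.card (X n → Bool) *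
      ((∑ i, z (Sum.inl i) ^ 2) + 2 * 4 ^ n * δ ^ 2) := by
  set N : ℝ := (Fintype.card (X n → Bool) : ℝ) with hN
  have hN0 : 0 ≤ N := by rw [hN]; positivity
  rw [sum_comm]
  have key : ∀ i : X n ⊕ X n, ∑ ω : X n → Bool, stp n δ ω z (Sum.inl i) ^ 2 ≤
      N * z (Sum.inl i) ^ 2 + N * δ ^ 2 := by
    intro i
    have h1 : ∀ ω : X n → Bool, stp n δ ω z (Sum.inl i) ^ 2 = z (Sum.inl i) ^ 2 +
        (2 * z (Sum.inl i) * δ * A6_act (z (Sum.inl i))) * inc n ω (Sum.inl i) +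
        (δ ^ 2 * (A6_act (z (Sum.inl i)) * A6_act (z (Sum.inl i)))) * inc n ω (Sum.inl i) ^ 2 := by
      intro ω
      rw [A6_stp_lt n δ ω hz]
      ring
    simp_rw [h1]
    rw [sum_add_distrib, sum_add_distrib, ← mul_sum, ← mul_sum, A6_inc_sum, A6_inc_sq,
      sum_const, card_univ, nsmul_eq_mul, ← hN, A6_act_sq]
    have := mul_le_mul_of_nonneg_left (A6_act_le (z (Sum.inl i)))
      (mul_nonneg hN0 (sq_nonneg δ))
    linarith
  refine (sum_le_sum fun i _ => key i).trans ?_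
  rw [sum_add_distrib, ← mul_sum, sum_const, card_univ, nsmul_eq_mul]
  have hc : (Fintype.card (X n ⊕ X n) : ℝ) = 2 * 4 ^ n := by
    rw [Fintype.card_sum, A6_cardX]; push_cast; ring
  rw [hc]
  linarith

theorem A6_inactive (n : ℕ) (z : J n → ℝ) :
    1 - ((∑ x, A6_act (z (Sum.inl (Sum.inl x)))) / 4 ^ n) *
      ((∑ y, A6_act (z (Sum.inl (Sum.inr y)))) / 4 ^ n) ≤
      64 / 49 * ((∑ i, z (Sum.inl i) ^ 2) / 4 ^ n) := by
  have h4 : (0 : ℝ) < 4 ^ n := by positivity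
  set A := (∑ x, A6_act (z (Sum.inl (Sum.inl x)))) / 4 ^ n with hA
  set B := (∑ y, A6_act (z (Sum.inl (Sum.inr y)))) / 4 ^ n with hB
  have hle : ∀ f : X n → ℝ, (∑ x, A6_act (f x)) / 4 ^ n ≤ 1 := by
    intro f
    rw [div_le_one h4]
    calc _ ≤ ∑ _x : X n, (1 : ℝ) := sum_le_sum fun x _ => A6_act_le _
      _ = 4 ^ n := by rw [sum_const, card_univ, nsmul_eq_mul, A6_cardX', mul_one]
  have hge : ∀ f : X n → ℝ, 1 - (∑ x, A6_act (f x)) / 4 ^ n ≤
      64 / 49 * ((∑ x, f x ^ 2) / 4 ^ n) := by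
    intro f
    have : (1 : ℝ) = (∑ _x : X n, (1 : ℝ)) / 4 ^ n := by
      rw [sum_const, card_univ, nsmul_eq_mul, A6_cardX', mul_one, div_self h4.ne']
    rw [this, ← sub_div, ← sum_sub_distrib, mul_div_assoc', mul_sum]
    exact div_le_div_of_nonneg_right (sum_le_sum fun x _ => A6_act_ge _) h4.le
  have hA1 : A ≤ 1 := hle _
  have hB1 : B ≤ 1 := hle _
  have hA2 := hge (fun x => z (Sum.inl (Sum.inl x)))
  have hB2 := hge (fun x => z (Sum.inl (Sum.inr x)))
  rw [← hA] at hA2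
  rw [← hB] at hB2
  rw [Fintype.sum_sum_type, add_div, mul_add]
  nlinarith [mul_nonneg (sub_nonneg.2 hA1) (sub_nonneg.2 hB1)]

theorem A6_chn_zero (n : ℕ) (δ : ℝ) (T : ℕ) {z : J n → ℝ} (hz : ¬ Psi n z < 1 / 8) :
    chn (stp n δ) T (fun z => if Psi n z < 1 / 8 then (1 : ℝ) else 0) z = 0 := by
  induction T with
  | zero => simp only [chn, if_neg hz]
  | succ T ih =>
    simp only [chn]
    rw [sum_congr rfl fun ω _ => by rw [A6_stp_ge n δ ω hz, ih]]
    simp

theorem A6_chn_bd (n : ℕ) (δ : ℝ) (T : ℕ) (z : J n → ℝ) :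
    chn (stp n δ) T (fun z => if Psi n z < 1 / 8 then (1 : ℝ) else 0) z ≤ 1 := by
  induction T generalizing z with
  | zero => simp only [chn]; split_ifs <;> norm_num
  | succ T ih =>
    simp only [chn]
    have hN : (0 : ℝ) < Fintype.card (X n → Bool) := by
      exact_mod_cast Fintype.card_pos
    rw [div_le_one hN]
    refine (sum_le_sum fun ω _ => ih (stp n δ ω z)).trans ?_
    rw [sum_const, card_univ, nsmul_eq_mul, mul_one]

theorem not_reached (n : ℕ) {δ : ℝ} (hδ : 0 ≤ δ) (h : δ * 2 ^ n ≤ 1 / 8) (T : ℕ) {z : J n → ℝ}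
    (hz : ∀ i, |z i| ≤ 1) (hP : Psi n z ≤ 1 / 8 + 3 * 4 ^ n * δ) :
    T * δ ^ 2 * chn (stp n δ) T (fun z => if Psi n z < 1 / 8 then (1 : ℝ) else 0) z ≤
      1 / 8 + 3 * 4 ^ n * δ - Psi n z +
        64 / 49 * ((∑ i, z (Sum.inl i) ^ 2) / 4 ^ n * (T * δ ^ 2) + (T * δ ^ 2) ^ 2) := by
  induction T generalizing z with
  | zero =>
    simp only [chn, Nat.cast_zero, zero_mul]
    norm_num
    linarith
  | succ T ih =>
    have h4 : (0 : ℝ) < 4 ^ n := by positivity
    have hR0 : 0 ≤ (∑ i, z (Sum.inl i) ^ 2) / 4 ^ n := by positivity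
    by_cases hc : Psi n z < 1 / 8
    · have hN : (0 : ℝ) < Fintype.card (X n → Bool) := by
        exact_mod_cast Fintype.card_pos
      have hb := A6_chn_bd n δ (T + 1) z
      have hψ := A6_psi_mean n δ hc
      have hs := A6_sq_mean n δ hc
      have hia := A6_inactive n z
      set N : ℝ := (Fintype.card (X n → Bool) : ℝ) with hNdef
      set A := (∑ x, A6_act (z (Sum.inl (Sum.inl x)))) / 4 ^ n with hA
      set B := (∑ y, A6_act (z (Sum.inl (Sum.inr y)))) / 4 ^ n with hB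
      set g : (J n → ℝ) → ℝ := fun z => if Psi n z < 1 / 8 then (1 : ℝ) else 0 with hg
      -- the sum of the induction hypotheses
      have h1 : T * δ ^ 2 * ∑ ω : X n → Bool, chn (stp n δ) T g (stp n δ ω z) ≤
          N * (1 / 8 + 3 * 4 ^ n * δ) - ∑ ω : X n → Bool, Psi n (stp n δ ω z) +
          64 / 49 * ((∑ ω : X n → Bool, ∑ i, stp n δ ω z (Sum.inl i) ^ 2) / 4 ^ n *
            (T * δ ^ 2) + N * (T * δ ^ 2) ^ 2) := by
        rw [mul_sum]
        have h2 := sum_le_sum fun (ω : X n → Bool) (_ : ω ∈ univ) =>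
          ih (inv_stp n hδ h hz hP ω).1 (inv_stp n hδ h hz hP ω).2
        refine h2.trans (le_of_eq ?_)
        rw [sum_add_distrib, sum_sub_distrib, sum_const, card_univ, nsmul_eq_mul, ← mul_sum,
          sum_add_distrib, ← sum_mul, sum_const, card_univ, nsmul_eq_mul, ← sum_div]
      have hch : chn (stp n δ) (T + 1) g z =
          (∑ ω : X n → Bool, chn (stp n δ) T g (stp n δ ω z)) / N := rfl
      have hch' : (∑ ω : X n → Bool, chn (stp n δ) T g (stp n δ ω z)) =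
          N * chn (stp n δ) (T + 1) g z := by
        rw [hch]; field_simp
      rw [hch', hψ] at h1
      set P := chn (stp n δ) (T + 1) g z with hPdef
      set R := (∑ i, z (Sum.inl i) ^ 2) / 4 ^ n with hR
      have hs' : (∑ ω : X n → Bool, ∑ i, stp n δ ω z (Sum.inl i) ^ 2) / 4 ^ n ≤
          N * (R + 2 * δ ^ 2) := by
        rw [div_le_iff₀ h4]
        refine hs.trans (le_of_eq ?_)
        rw [hR]; field_simp
      have hTd : 0 ≤ T * δ ^ 2 := by positivity
      have h3 := mul_le_mul_of_nonneg_right hs' hTd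
      have h4' : N * (T * δ ^ 2 * P) ≤ N * ((1 / 8 + 3 * 4 ^ n * δ) -
          (Psi n z + δ ^ 2 * A * B) + 64 / 49 * ((R + 2 * δ ^ 2) * (T * δ ^ 2) +
            (T * δ ^ 2) ^ 2)) := by
        linarith
      have h5 := le_of_mul_le_mul_left h4' hN
      have hd : 0 ≤ δ ^ 2 := sq_nonneg δ
      have h6 := mul_le_mul_of_nonneg_left hia hd
      have h7 := mul_le_mul_of_nonneg_left hb hd
      have h8 : 0 ≤ (δ ^ 2) ^ 2 := by positivity
      push_cast
      nlinarith [h5, h6, h7, h8]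
    · rw [A6_chn_zero n δ (T + 1) hc, mul_zero]
      have : 0 ≤ 64 / 49 * ((∑ i, z (Sum.inl i) ^ 2) / 4 ^ n * ((T + 1 : ℕ) * δ ^ 2) +
          ((T + 1 : ℕ) * δ ^ 2) ^ 2) := by positivity
      linarith

end Pool.Agent.H543R2.EQ
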