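import Pool.Agent.H543R2.EQ.Defs

/-! Slices of the cube, Chebyshev's inequality for the binomial distribution. -/

namespace Pool.Agent.H543R2.EQ

open Pool.Agent.NPC Pool.Agent.H620R2.Gauge Finset H568R2 Pool.Agent.H676

section General

variable {I : Type*} [Fintype I] [DecidableEq I]

theorem B1_wt_update_true {x : I → Bool} {i : I} (hx : x i = false) :
    wt (Function.update x i true) = wt x + 1 := by
  classical
  unfold wt
  have h : (univ.filter (fun j => Function.update x i true j = true)) =
      insert i (univ.filter (fun j => x j = true)) := by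
    ext j
    simp only [mem_filter, mem_univ, true_and, mem_insert]
    by_cases hj : j = i
    · subst hj; simp
    · simp [hj]
  rw [h, card_insert_of_notMem]
  simp [hx]

theorem B1_card_wt (k : ℕ) :
    (univ.filter (fun y : I → Bool => wt y = k)).card = (Fintype.card I).choose k := by
  classical
  rw [← Finset.card_univ (α := I), ← Finset.card_powersetCard]
  refine Finset.card_nbij' (fun y => univ.filter (fun i => y i = true))
    (fun s i => decide (i ∈ s)) ?_ ?_ ?_ ?_
  · intro y hy
    simp only [mem_coe, mem_filter, mem_univ, true_and] at hy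
    simp only [mem_coe, mem_powersetCard]
    exact ⟨Finset.subset_univ _, hy⟩
  · intro s hs
    simp only [mem_coe, mem_powersetCard] at hs
    simp only [mem_coe, mem_filter, mem_univ, true_and]
    unfold wt
    simpa using hs.2
  · intro y _
    funext i
    simp
  · intro s _
    ext i
    simp

theorem B1_card_false {x : I → Bool} {k : ℕ} (hx : wt x = k) :
    ((univ.filter (fun i => x i = false)).card : ℝ) = (Fintype.card I : ℝ) - k := by
  classical
  have h : (univ.filter (fun i => x i = true)).card + (univ.filter (fun i => x i = false)).card =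
      Fintype.card I := by
    rw [← Finset.card_univ (α := I)]
    rw [← Finset.card_filter_add_card_filter_not (s := univ) (fun i => x i = true)]
    congr 2
    ext i
    simp
  have h2 : (univ.filter (fun i => x i = true)).card = k := hx
  rw [h2] at h
  have : ((k : ℝ) + ((univ.filter (fun i => x i = false)).card : ℝ)) = (Fintype.card I : ℝ) := by
    exact_mod_cast h
  linarith

theorem B1_shift (F : (I → Bool) → ℝ) (k : ℕ) :
    ∑ x ∈ univ.filter (fun x : I → Bool => wt x = k), ∑ i ∈ univ.filter (fun i => x i = false),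
      F (Function.update x i true) =
    ((k : ℝ) + 1) * ∑ y ∈ univ.filter (fun y : I → Bool => wt y = k + 1), F y := by
  classical
  have h1 : ∑ x ∈ univ.filter (fun x : I → Bool => wt x = k),
      ∑ i ∈ univ.filter (fun i => x i = false), F (Function.update x i true) =
      ∑ i : I, ∑ x ∈ univ.filter (fun x : I → Bool => wt x = k ∧ x i = false),
        F (Function.update x i true) := by
    simp only [Finset.sum_filter]
    rw [Finset.sum_comm (s := (univ : Finset I)) (t := univ)]
    refine Finset.sum_congr rfl (fun x _ => ?_)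
    by_cases hx : wt x = k
    · simp [hx]
    · simp [hx]
  have h2 : ((k : ℝ) + 1) * ∑ y ∈ univ.filter (fun y : I → Bool => wt y = k + 1), F y =
      ∑ i : I, ∑ y ∈ univ.filter (fun y : I → Bool => wt y = k + 1 ∧ y i = true), F y := by
    have : ∀ y ∈ univ.filter (fun y : I → Bool => wt y = k + 1), ((k : ℝ) + 1) * F y =
        ∑ i ∈ univ.filter (fun i => y i = true), F y := by
      intro y hy
      rw [mem_filter] at hy
      rw [Finset.sum_const, nsmul_eq_mul]
      have : (univ.filter (fun i => y i = true)).card = k + 1 := hy.2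
      rw [this]
      push_cast
      ring
    rw [Finset.mul_sum, Finset.sum_congr rfl this]
    simp only [Finset.sum_filter]
    rw [Finset.sum_comm (s := (univ : Finset I)) (t := univ)]
    refine Finset.sum_congr rfl (fun x _ => ?_)
    by_cases hx : wt x = k + 1
    · simp [hx]
    · simp [hx]
  rw [h1, h2]
  refine Finset.sum_congr rfl (fun i _ => ?_)
  refine Finset.sum_nbij' (fun x => Function.update x i true) (fun y => Function.update y i false)
    ?_ ?_ ?_ ?_ ?_
  · intro x hx
    simp only [mem_filter, mem_univ, true_and] at hx ⊢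
    refine ⟨?_, by simp⟩
    rw [B1_wt_update_true hx.2, hx.1]
  · intro y hy
    simp only [mem_filter, mem_univ, true_and] at hy ⊢
    refine ⟨?_, by simp⟩
    have h3 := B1_wt_update_true (x := Function.update y i false) (i := i) (by simp)
    have h4 : Function.update (Function.update y i false) i true = y := by
      rw [Function.update_idem, ← hy.2, Function.update_eq_self]
    rw [h4, hy.1] at h3
    omega
  · intro x hx
    simp only [mem_filter, mem_univ, true_and] at hx
    simp only [Function.update_idem]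
    rw [← hx.2, Function.update_eq_self]
  · intro y hy
    simp only [mem_filter, mem_univ, true_and] at hy
    simp only [Function.update_idem]
    rw [← hy.2, Function.update_eq_self]
  · intro x _
    rfl

theorem sl_step (g : (I → Bool) → Bool) {k : ℕ} (hk : k < Fintype.card I) :
    |sl (k + 1) (br g) - sl k (br g)| ≤ sl k (sens g) / ((Fintype.card I : ℝ) - k) := by
  classical
  have hMk : (0 : ℝ) < (Fintype.card I : ℝ) - k := by
    have : (k : ℝ) < (Fintype.card I : ℝ) := by exact_mod_cast hk
    linarith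
  have hC : (0 : ℝ) < ((Fintype.card I).choose k : ℝ) := by
    exact_mod_cast Nat.choose_pos hk.le
  have hC1 : (0 : ℝ) < ((Fintype.card I).choose (k + 1) : ℝ) := by
    exact_mod_cast Nat.choose_pos hk
  have hid : ((Fintype.card I).choose (k + 1) : ℝ) * ((k : ℝ) + 1) =
      ((Fintype.card I).choose k : ℝ) * ((Fintype.card I : ℝ) - k) := by
    have h := Nat.choose_succ_right_eq (Fintype.card I) k
    have h2 : (((Fintype.card I).choose (k + 1) * (k + 1) : ℕ) : ℝ) =
        (((Fintype.card I).choose k * (Fintype.card I - k) : ℕ) : ℝ) := by rw [h]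
    push_cast [Nat.cast_sub hk.le] at h2
    exact h2
  have hs1 : sl (k + 1) (br g) = (((k : ℝ) + 1) *
      ∑ y ∈ univ.filter (fun y : I → Bool => wt y = k + 1), br g y) /
        (((Fintype.card I).choose k : ℝ) * ((Fintype.card I : ℝ) - k)) := by
    rw [← hid]
    unfold sl
    have : ((k : ℝ) + 1) ≠ 0 := by positivity
    field_simp
  have hs2 : sl k (br g) = (∑ x ∈ univ.filter (fun x : I → Bool => wt x = k),
      ∑ i ∈ univ.filter (fun i => x i = false), br g x) /
        (((Fintype.card I).choose k : ℝ) * ((Fintype.card I : ℝ) - k)) := by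
    have : ∑ x ∈ univ.filter (fun x : I → Bool => wt x = k),
      ∑ i ∈ univ.filter (fun i => x i = false), br g x =
        ((Fintype.card I : ℝ) - k) * ∑ x ∈ univ.filter (fun x : I → Bool => wt x = k), br g x := by
      rw [Finset.mul_sum]
      refine Finset.sum_congr rfl (fun x hx => ?_)
      rw [mem_filter] at hx
      rw [Finset.sum_const, nsmul_eq_mul, B1_card_false hx.2]
    rw [this]
    unfold sl
    field_simp
  rw [hs1, hs2, ← B1_shift, ← sub_div, ← Finset.sum_sub_distrib, abs_div]
  rw [abs_of_pos (mul_pos hC hMk)]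
  have hs3 : sl k (sens g) / ((Fintype.card I : ℝ) - k) =
      (∑ x ∈ univ.filter (fun x : I → Bool => wt x = k), sens g x) /
        (((Fintype.card I).choose k : ℝ) * ((Fintype.card I : ℝ) - k)) := by
    unfold sl
    rw [div_div]
  rw [hs3]
  refine div_le_div_of_nonneg_right ?_ (mul_pos hC hMk).le
  refine le_trans (Finset.abs_sum_le_sum_abs _ _) (Finset.sum_le_sum (fun x _ => ?_))
  rw [← Finset.sum_sub_distrib]
  refine le_trans (Finset.abs_sum_le_sum_abs _ _) ?_
  have h1 : ∀ i ∈ univ.filter (fun i => x i = false),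
      |br g (Function.update x i true) - br g x| ≤
        if g (Function.update x i (!x i)) ≠ g x then (1 : ℝ) else 0 := by
    intro i hi
    rw [mem_filter] at hi
    have : (!x i) = true := by rw [hi.2]; rfl
    rw [this]
    unfold br
    cases h3 : g (Function.update x i true) <;> cases h4 : g x <;> simp
  refine le_trans (Finset.sum_le_sum h1) ?_
  rw [← Finset.sum_filter, Finset.sum_const, nsmul_eq_mul, mul_one]
  unfold sens
  exact_mod_cast Finset.card_le_card (by
    intro i hi
    rw [mem_filter] at hi ⊢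
    exact ⟨mem_univ _, hi.2⟩)

theorem av_eq_sum_sl (g : (I → Bool) → ℝ) :
    av g = ∑ k ∈ range (Fintype.card I + 1),
      ((Fintype.card I).choose k : ℝ) / 2 ^ Fintype.card I * sl k g := by
  classical
  unfold av
  have h : ∑ x, g x = ∑ k ∈ range (Fintype.card I + 1),
      ∑ y ∈ univ.filter (fun y : I → Bool => wt y = k), g y := by
    rw [Finset.sum_fiberwise_of_maps_to]
    intro x _
    rw [mem_range]
    have : wt x ≤ Fintype.card I := by
      unfold wt; exact Finset.card_le_univ _
    omega
  rw [h, Finset.sum_div]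
  refine Finset.sum_congr rfl (fun k hk => ?_)
  rw [mem_range] at hk
  have hC : (0 : ℝ) < ((Fintype.card I).choose k : ℝ) := by
    exact_mod_cast Nat.choose_pos (by omega)
  unfold sl
  field_simp

theorem sl_const {k : ℕ} (hk : k ≤ Fintype.card I) (c : ℝ) :
    sl k (fun _ : I → Bool => c) = c := by
  unfold sl
  rw [Finset.sum_const, nsmul_eq_mul, B1_card_wt]
  have hC : (0 : ℝ) < ((Fintype.card I).choose k : ℝ) := by
    exact_mod_cast Nat.choose_pos hk
  field_simp

theorem sl_mono {k : ℕ} {g g' : (I → Bool) → ℝ} (h : ∀ y, wt y = k → g y ≤ g' y) :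
    sl k g ≤ sl k g' := by
  unfold sl
  refine div_le_div_of_nonneg_right (Finset.sum_le_sum (fun y hy => ?_)) (Nat.cast_nonneg _)
  rw [mem_filter] at hy
  exact h y hy.2

/-- Chebyshev for the binomial distribution -/
theorem binom_tail {τ : ℝ} (hτ : 0 < τ) {M : ℕ} (hM : 1 ≤ M) :
    ∑ k ∈ (range (M + 1)).filter (fun k : ℕ => τ * M < |(k : ℝ) - M / 2|),
      (M.choose k : ℝ) / 2 ^ M ≤ 1 / (4 * τ ^ 2 * M) := by
  have hM0 : (0 : ℝ) < M := by exact_mod_cast hM
  have hvar : ∑ k ∈ range (M + 1), ((k : ℝ) - M / 2) ^ 2 * ((M.choose k : ℝ) / 2 ^ M) =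
      (M : ℝ) / 4 := by
    have h := congrArg (Polynomial.eval (1 / 2 : ℝ)) (bernsteinPolynomial.variance ℝ M)
    rw [Polynomial.eval_finsetSum] at h
    simp only [Polynomial.eval_mul, Polynomial.eval_pow, Polynomial.eval_sub,
      Polynomial.eval_natCast, Polynomial.eval_X, Polynomial.eval_one, nsmul_eq_mul,
      bernsteinPolynomial] at h
    have h5 : ∀ k ∈ range (M + 1), ((k : ℝ) - M / 2) ^ 2 * ((M.choose k : ℝ) / 2 ^ M) =
        ((M : ℝ) * (1 / 2) - (k : ℝ)) ^ 2 *
          ((M.choose k : ℝ) * (1 / 2) ^ k * (1 - 1 / 2) ^ (M - k)) := by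
      intro k hk
      rw [mem_range] at hk
      have h6 : ((1 : ℝ) / 2) ^ k * (1 - 1 / 2) ^ (M - k) = 1 / 2 ^ M := by
        have : (1 : ℝ) - 1 / 2 = 1 / 2 := by norm_num
        rw [this, ← pow_add]
        have : k + (M - k) = M := by omega
        rw [this, div_pow, one_pow]
      rw [mul_assoc ((M.choose k : ℝ)), h6]
      ring
    rw [Finset.sum_congr rfl h5, h]
    ring
  have h1 : ∀ k ∈ (range (M + 1)).filter (fun k : ℕ => τ * M < |(k : ℝ) - M / 2|),
      (M.choose k : ℝ) / 2 ^ M ≤
        (1 / (τ * M) ^ 2) * (((k : ℝ) - M / 2) ^ 2 * ((M.choose k : ℝ) / 2 ^ M)) := by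
    intro k hk
    rw [mem_filter] at hk
    have h2 : (τ * M) ^ 2 ≤ ((k : ℝ) - M / 2) ^ 2 := by
      rw [← sq_abs ((k : ℝ) - M / 2)]
      exact pow_le_pow_left₀ (by positivity) hk.2.le 2
    have h3 : (1 : ℝ) ≤ (1 / (τ * M) ^ 2) * ((k : ℝ) - M / 2) ^ 2 := by
      rw [one_div_mul_eq_div, le_div_iff₀ (by positivity), one_mul]
      exact h2
    calc (M.choose k : ℝ) / 2 ^ M = 1 * ((M.choose k : ℝ) / 2 ^ M) := by ring
      _ ≤ ((1 / (τ * M) ^ 2) * ((k : ℝ) - M / 2) ^ 2) * ((M.choose k : ℝ) / 2 ^ M) :=
        mul_le_mul_of_nonneg_right h3 (by positivity)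
      _ = _ := by ring
  refine le_trans (Finset.sum_le_sum h1) ?_
  rw [← Finset.mul_sum]
  have h4 : ∑ k ∈ (range (M + 1)).filter (fun k : ℕ => τ * M < |(k : ℝ) - M / 2|),
      ((k : ℝ) - M / 2) ^ 2 * ((M.choose k : ℝ) / 2 ^ M) ≤ (M : ℝ) / 4 := by
    rw [← hvar]
    exact Finset.sum_le_sum_of_subset_of_nonneg (Finset.filter_subset _ _)
      (fun _ _ _ => by positivity)
  calc (1 / (τ * M) ^ 2) * ∑ k ∈ (range (M + 1)).filter (fun k : ℕ => τ * M < |(k : ℝ) - M / 2|),
      ((k : ℝ) - M / 2) ^ 2 * ((M.choose k : ℝ) / 2 ^ M) ≤ (1 / (τ * M) ^ 2) * ((M : ℝ) / 4) :=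
        mul_le_mul_of_nonneg_left h4 (by positivity)
    _ = 1 / (4 * τ ^ 2 * M) := by field_simp

end General

end Pool.Agent.H543R2.EQ
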