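import Pool.Agent.H543R2.EQ.Defs

/-! # Task B2: sensitivity of decision trees (helper497) -/

namespace Pool.Agent.H543R2.EQ

open Pool.Agent.NPC Pool.Agent.H620R2.Gauge Finset H568R2 Pool.Agent.H676

section General

variable {I : Type*} [Fintype I] [DecidableEq I]

theorem sens_le_dtr {t : ℕ} {g : (I → Bool) → Bool} (h : DTr t g) (y : I → Bool) :
    sens g y ≤ t := by
  obtain ⟨A, hA, hy⟩ := h.cert (g y) y rfl
  unfold sens
  have hsub : (univ.filter (fun i => g (Function.update y i (!y i)) ≠ g y)) ⊆ A := by
    intro i hi
    by_contra hiA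
    rw [mem_filter] at hi
    apply hi.2
    apply hy
    intro j hj
    rw [Function.update_of_ne]
    rintro rfl
    exact hiA hj
  have := (card_le_card hsub).trans hA
  exact_mod_cast this

theorem B2_sum_w (q : ℝ) : ∑ R : I → Bool, (∏ i, if R i then q else 1 - q) = 1 := by
  have h := Finset.prod_univ_sum (fun _ : I => (univ : Finset Bool))
    (fun _ b => if b then q else 1 - q)
  rw [Fintype.piFinset_univ] at h
  rw [← h]
  simp

theorem B2_sum_w_i (q : ℝ) (i : I) :
    ∑ R : I → Bool, (∏ i, if R i then q else 1 - q) * (if R i then (1 : ℝ) else 0) = q := by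
  have h := Finset.prod_univ_sum (fun _ : I => (univ : Finset Bool))
    (fun j b => if j = i then (if b then q else 0) else (if b then q else 1 - q))
  rw [Fintype.piFinset_univ] at h
  have h1 : ∀ R : I → Bool, (∏ i, if R i then q else 1 - q) * (if R i then (1 : ℝ) else 0) =
      ∏ j, (if j = i then (if R j then q else 0) else (if R j then q else 1 - q)) := by
    intro R
    by_cases hR : R i = true
    · rw [if_pos hR, mul_one]
      refine prod_congr rfl fun j _ => ?_
      by_cases hj : j = i
      · subst hj; rw [if_pos rfl, if_pos hR, if_pos hR]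
      · rw [if_neg hj]
    · rw [if_neg hR, mul_zero]
      symm
      apply prod_eq_zero (mem_univ i)
      rw [if_pos rfl, if_neg hR]
  rw [sum_congr rfl fun R _ => h1 R, ← h, prod_eq_single i]
  · simp
  · intro j _ hj
    rw [sum_congr rfl (g := fun b => if b then q else 1 - q) (fun b _ => by rw [if_neg hj])]
    simp
  · intro hh; exact absurd (mem_univ i) hh

theorem sens_le {t : ℕ} {q : ℝ} (h0 : 0 ≤ q) (h1 : q ≤ 1) (g : (I → Bool) → Bool)
    (y : I → Bool) : q * sens g y ≤ t + Fintype.card I * PR t q g y := by
  classical
  set S : Finset I := univ.filter (fun i => g (Function.update y i (!y i)) ≠ g y) with hS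
  set w : (I → Bool) → ℝ := fun R => ∏ i, if R i then q else 1 - q with hw
  have hw0 : ∀ R, 0 ≤ w R := fun R => prod_nonneg fun i _ => by
    split_ifs <;> linarith
  have e1 : q * sens g y = ∑ R, w R * ∑ i ∈ S, (if R i then (1 : ℝ) else 0) := by
    simp only [mul_sum]
    rw [sum_comm]
    have : ∀ i ∈ S, ∑ R : I → Bool, w R * (if R i then (1 : ℝ) else 0) = q := fun i _ =>
      B2_sum_w_i q i
    rw [sum_congr rfl this, sum_const, nsmul_eq_mul, mul_comm]
    rfl
  have e2 : ∀ R : I → Bool, ∑ i ∈ S, (if R i then (1 : ℝ) else 0) ≤
      t + Fintype.card I *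
        (if ¬ DTr t (rs g (fun i => if R i then none else some (y i))) then (1 : ℝ) else 0) := by
    intro R
    set ρ : Restr I := fun i => if R i then none else some (y i) with hρ
    have hov : ov ρ y = y := by
      funext i
      unfold ov
      simp only [hρ]
      by_cases hR : R i = true
      · rw [if_pos hR]; rfl
      · rw [if_neg hR]; rfl
    have hle : ∑ i ∈ S, (if R i then (1 : ℝ) else 0) ≤ sens (rs g ρ) y := by
      rw [Finset.sum_boole]
      unfold sens
      norm_cast
      apply card_le_card
      intro i hi
      rw [mem_filter, hS, mem_filter] at hi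
      rw [mem_filter]
      refine ⟨mem_univ _, ?_⟩
      have : ov ρ (Function.update y i (!y i)) = Function.update y i (!y i) := by
        funext j
        unfold ov
        simp only [hρ]
        by_cases hR : R j = true
        · rw [if_pos hR]; rfl
        · rw [if_neg hR]
          have hji : j ≠ i := by
            rintro rfl; exact hR hi.2
          rw [Function.update_of_ne hji]
          rfl
      unfold rs
      rw [this, hov]
      exact hi.1.2
    by_cases hD : DTr t (rs g ρ)
    · rw [if_neg (not_not.2 hD), mul_zero, add_zero]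
      exact hle.trans (sens_le_dtr hD y)
    · rw [if_pos hD, mul_one]
      have : sens (rs g ρ) y ≤ Fintype.card I := by
        unfold sens
        exact_mod_cast card_le_univ _
      have ht : (0 : ℝ) ≤ t := Nat.cast_nonneg t
      linarith
  rw [e1]
  calc ∑ R, w R * ∑ i ∈ S, (if R i then (1 : ℝ) else 0)
      ≤ ∑ R, w R * (t + Fintype.card I *
        (if ¬ DTr t (rs g (fun i => if R i then none else some (y i))) then (1 : ℝ) else 0)) :=
        sum_le_sum fun R _ => mul_le_mul_of_nonneg_left (e2 R) (hw0 R)
    _ = t * (∑ R, w R) + Fintype.card I * ∑ R, w R *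
        (if ¬ DTr t (rs g (fun i => if R i then none else some (y i))) then (1 : ℝ) else 0) := by
        rw [mul_sum, mul_sum, ← sum_add_distrib]
        refine sum_congr rfl fun R _ => ?_
        ring
    _ = t + Fintype.card I * PR t q g y := by
        rw [hw, B2_sum_w, mul_one]
        rfl

end General

end Pool.Agent.H543R2.EQ
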