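import Pool.Agent.H543R2.EQ.Defs

/-! Task B3 of the project EQP (helper543): biased restrictions. -/

namespace Pool.Agent.H543R2.EQ

open Pool.Agent.NPC Pool.Agent.H620R2.Gauge Finset H568R2 Pool.Agent.H676

section General

variable {I : Type*} [Fintype I] [DecidableEq I]

/-- the weight of a biased restriction -/
noncomputable def B3W (q θ : ℝ) : Option Bool → ℝ
  | none => q
  | some b => (1 - q) * (if b then θ else 1 - θ)

/-- the weight of the first restriction -/
noncomputable def B3v (lam : ℝ) (b₀ : Bool) : Option Bool → ℝ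
  | none => lam
  | some b => if b = b₀ then 1 - lam else 0

theorem B3_merge (q θ : ℝ) (F : Restr I → ℝ) :
    ∑ y : I → Bool, (∏ i, if y i then θ else 1 - θ) *
      ∑ R : I → Bool, (∏ i, if R i then q else 1 - q) *
        F (fun i => if R i then none else some (y i)) = Ex (B3W q θ) F := by
  have h1 := Ex_prod (I := I) (fun b : Bool => if b then θ else 1 - θ)
    (fun b : Bool => if b then q else 1 - q)
    (fun c => F (fun i => if (c i).2 then none else some (c i).1))
  have h2 := Ex_push (I := I) (fun c : Bool × Bool => if c.2 then none else some c.1)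
    (fun c : Bool × Bool => (if c.1 then θ else 1 - θ) * (if c.2 then q else 1 - q))
    (B3W q θ) (by
      intro b
      rw [Finset.sum_filter, Fintype.sum_prod_type]
      simp only [Fintype.sum_bool]
      rcases b with _ | b
      · simp [B3W]
        ring
      · cases b
        · simp [B3W]
          ring
        · simp [B3W]
          ring) F
  rw [← h2, h1]
  rfl

theorem B3_split {q θ lam q' : ℝ} {b₀ : Bool} (h1 : lam * q' = q)
    (h2 : lam * ((1 - q') / 2) = (1 - q) * (if b₀ then 1 - θ else θ)) (F : Restr I → ℝ) :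
    Ex (B3W q θ) F = Ex (B3v lam b₀) (fun σ : Restr I => Ex (wq q') (fun ρ => F (cmp σ ρ))) := by
  have h3 := Ex_prod (I := I) (B3v lam b₀) (wq q') (fun c => F (fun i => (c i).1.or (c i).2))
  have h4 := Ex_push (I := I) (fun c : Option Bool × Option Bool => c.1.or c.2)
    (fun c : Option Bool × Option Bool => B3v lam b₀ c.1 * wq q' c.2)
    (B3W q θ) (by
      intro b
      rw [Finset.sum_filter, Fintype.sum_prod_type]
      simp only [Fintype.sum_option, Fintype.sum_bool]
      rcases b with _ | b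
      · simp [B3W, B3v, wq]
        linarith
      · cases b <;> cases b₀ <;> simp [B3W, B3v, wq] at h2 ⊢ <;> nlinarith) F
  rw [← h4, h3]
  rfl

theorem B3_final {t : ℕ} {p η : ℝ} {g : (I → Bool) → Bool}
    (hG : GoodF t p η g) {q θ lam q' : ℝ} {b₀ : Bool} (h1 : lam * q' = q)
    (h2 : lam * ((1 - q') / 2) = (1 - q) * (if b₀ then 1 - θ else θ)) (hq' : 0 < q')
    (hq'p : q' ≤ p) (hl0 : 0 ≤ lam) (hl1 : lam ≤ 1) :
    ∑ y : I → Bool, (∏ i, if y i then θ else 1 - θ) * PR t q g y ≤ η := by
  classical
  have h3 := B3_merge (I := I) q θ (fun ρ => if ¬ DTr t (rs g ρ) then (1 : ℝ) else 0)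
  rw [B3_split (b₀ := b₀) h1 h2] at h3
  have h4 : ∑ y : I → Bool, (∏ i, if y i then θ else 1 - θ) * PR t q g y =
      ∑ y : I → Bool, (∏ i, if y i then θ else 1 - θ) *
      ∑ R : I → Bool, (∏ i, if R i then q else 1 - q) *
        (if ¬ DTr t (rs g (fun i => if R i then none else some (y i))) then (1 : ℝ) else 0) := by
    refine Finset.sum_congr rfl fun y _ => ?_
    unfold PR
    congr 1
  rw [h4, h3]
  have h5 : ∀ a, 0 ≤ B3v lam b₀ a := by
    intro a
    rcases a with _ | b
    · exact hl0
    · change 0 ≤ (if b = b₀ then 1 - lam else 0)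
      split_ifs
      · linarith
      · exact le_rfl
  have h6 : ∑ a, B3v lam b₀ a = 1 := by
    rw [Fintype.sum_option, Fintype.sum_bool]
    cases b₀ <;> simp [B3v]
  rw [← Ex_const (I := I) h6 η]
  refine Ex_mono h5 fun σ => ?_
  have h7 := hG σ q' hq' hq'p
  refine le_trans (le_of_eq ?_) h7
  unfold bad
  congr 1
  funext ρ
  rw [rs_cmp]

theorem biased {t : ℕ} {p η : ℝ} (hp : 0 < p) (hp1 : p ≤ 1) {g : (I → Bool) → Bool}
    (hG : GoodF t p η g) {θ : ℝ} (h0 : 1 / 4 ≤ θ) (h1 : θ ≤ 3 / 4) :
    ∑ y : I → Bool, (∏ i, if y i then θ else 1 - θ) * PR t (p / 2) g y ≤ η := by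
  have key : ∀ (b₀ : Bool) (θm : ℝ), θm = (if b₀ then 1 - θ else θ) → 1 / 4 ≤ θm → θm ≤ 1 / 2 →
      ∑ y : I → Bool, (∏ i, if y i then θ else 1 - θ) * PR t (p / 2) g y ≤ η := by
    intro b₀ θm hθm hm0 hm1
    set lam : ℝ := p / 2 + 2 * (1 - p / 2) * θm with hlam
    have hl2 : 1 / 2 ≤ lam := by
      rw [hlam]
      nlinarith
    have hl1 : lam ≤ 1 := by
      rw [hlam]
      nlinarith
    have hl0 : 0 < lam := by linarith
    refine B3_final hG (q := p / 2) (lam := lam) (q' := p / 2 / lam) (b₀ := b₀) ?_ ?_ ?_ ?_ hl0.le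
      hl1
    · field_simp
    · rw [← hθm]
      field_simp
      rw [hlam]
      ring
    · positivity
    · rw [div_le_iff₀ hl0]
      nlinarith
  rcases le_total θ (1 / 2) with h | h
  · exact key false θ (by simp) h0 h
  · exact key true (1 - θ) (by simp) (by linarith) (by linarith)

end General

end Pool.Agent.H543R2.EQ
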