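import Pool.Agent.H543R2.EQ.Defs

/-! Task B4: the mode of the binomial distribution. -/

namespace Pool.Agent.H543R2.EQ

open Pool.Agent.NPC Pool.Agent.H620R2.Gauge Finset H568R2 Pool.Agent.H676

section General

variable {I : Type*} [Fintype I] [DecidableEq I]

/-- the ratio of consecutive terms of the binomial distribution -/
theorem B4_ratio (M j : ℕ) (hj : j < M) (x y : ℝ) :
    (M.choose (j + 1) * (x ^ (j + 1) * y ^ (M - (j + 1)))) * (((j : ℝ) + 1) * y) =
      (M.choose j * (x ^ j * y ^ (M - j))) * (((M : ℝ) - j) * x) := by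
  have h1 : (M.choose (j + 1) : ℝ) * ((j : ℝ) + 1) = M.choose j * ((M : ℝ) - j) := by
    have := Nat.choose_succ_right_eq M j
    have h2 : ((M.choose (j + 1) * (j + 1) : ℕ) : ℝ) = ((M.choose j * (M - j) : ℕ) : ℝ) := by
      rw [this]
    push_cast [Nat.cast_sub hj.le] at h2
    exact h2
  have h2 : y ^ (M - j) = y ^ (M - (j + 1)) * y := by
    rw [← pow_succ]; congr 1; omega
  rw [h2, pow_succ]
  calc _ = ((M.choose (j + 1) : ℝ) * ((j : ℝ) + 1)) * (x ^ j * x * y ^ (M - (j + 1)) * y) := by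
        ring
    _ = _ := by rw [h1]; ring

theorem B4_mode {M k : ℕ} (h0 : 0 < k) (h1 : k < M) (j : ℕ) (hj : j ≤ M) :
    (M.choose j * (((k : ℝ) / M) ^ j * (1 - (k : ℝ) / M) ^ (M - j))) ≤
      (M.choose k * (((k : ℝ) / M) ^ k * (1 - (k : ℝ) / M) ^ (M - k))) := by
  set x : ℝ := (k : ℝ) / M with hx
  have hM : (0 : ℝ) < M := by exact_mod_cast h0.trans h1
  have hk0 : (0 : ℝ) < k := by exact_mod_cast h0
  have hkM : (k : ℝ) < M := by exact_mod_cast h1
  have hx0 : 0 < x := by positivity
  have hy0 : 0 < 1 - x := by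
    rw [hx, sub_pos, div_lt_one hM]; exact hkM
  have hxM : x * M = k := by rw [hx]; field_simp
  have hyM : (1 - x) * M = M - k := by rw [sub_mul, hxM]; ring
  set b : ℕ → ℝ := fun j => M.choose j * (x ^ j * (1 - x) ^ (M - j)) with hb
  have hb0 : ∀ j, 0 ≤ b j := fun j => by
    have : 0 ≤ 1 - x := hy0.le
    positivity
  have hr : ∀ j < M, b (j + 1) * (((j : ℝ) + 1) * (1 - x)) = b j * (((M : ℝ) - j) * x) :=
    fun j hj => B4_ratio M j hj x (1 - x)
  -- increasing up to `k`
  have hup : ∀ j < k, b j ≤ b (j + 1) := by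
    intro j hj
    have h2 := hr j (by omega)
    have hjk : (j : ℝ) + 1 ≤ k := by exact_mod_cast hj
    have h3 : ((j : ℝ) + 1) * (1 - x) ≤ ((M : ℝ) - j) * x := by
      have h4 : ((j : ℝ) + 1) * (1 - x) * M ≤ ((M : ℝ) - j) * x * M := by
        rw [mul_assoc, hyM, mul_assoc, hxM]
        nlinarith
      exact le_of_mul_le_mul_right h4 hM
    have h5 : 0 < ((j : ℝ) + 1) * (1 - x) := by positivity
    have h6 : b j * (((j : ℝ) + 1) * (1 - x)) ≤ b (j + 1) * (((j : ℝ) + 1) * (1 - x)) := by
      rw [h2]; exact mul_le_mul_of_nonneg_left h3 (hb0 j)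
    exact le_of_mul_le_mul_right h6 h5
  have hdown : ∀ j, k ≤ j → j < M → b (j + 1) ≤ b j := by
    intro j hj hjM
    have h2 := hr j hjM
    have hjk : (k : ℝ) ≤ j := by exact_mod_cast hj
    have h3 : ((M : ℝ) - j) * x ≤ ((j : ℝ) + 1) * (1 - x) := by
      have h4 : ((M : ℝ) - j) * x * M ≤ ((j : ℝ) + 1) * (1 - x) * M := by
        rw [mul_assoc, hxM, mul_assoc, hyM]
        nlinarith
      exact le_of_mul_le_mul_right h4 hM
    have h5 : 0 < ((j : ℝ) + 1) * (1 - x) := by positivity
    have h6 : b (j + 1) * (((j : ℝ) + 1) * (1 - x)) ≤ b j * (((j : ℝ) + 1) * (1 - x)) := by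
      rw [h2]; exact mul_le_mul_of_nonneg_left h3 (hb0 j)
    exact le_of_mul_le_mul_right h6 h5
  change b j ≤ b k
  rcases le_total j k with h | h
  · have : ∀ d, d ≤ k → b (k - d) ≤ b k := by
      intro d
      induction d with
      | zero => intro _; simp
      | succ d ih =>
        intro hd
        refine (hup (k - (d + 1)) (by omega)).trans ?_
        rw [show k - (d + 1) + 1 = k - d by omega]
        exact ih (by omega)
    have h2 := this (k - j) (by omega)
    rwa [show k - (k - j) = j by omega] at h2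
  · have : ∀ d, k + d ≤ M → b (k + d) ≤ b k := by
      intro d
      induction d with
      | zero => intro _; simp
      | succ d ih =>
        intro hd
        exact (hdown (k + d) (by omega) (by omega)).trans (ih (by omega))
    have h2 := this (j - k) (by omega)
    rwa [show k + (j - k) = j by omega] at h2

theorem binom_mode {M k : ℕ} (h0 : 0 < k) (h1 : k < M) :
    1 ≤ ((M : ℝ) + 1) * (M.choose k * (((k : ℝ) / M) ^ k * (1 - (k : ℝ) / M) ^ (M - k))) := by
  have h2 : (1 : ℝ) = ∑ j ∈ range (M + 1),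
      (M.choose j * (((k : ℝ) / M) ^ j * (1 - (k : ℝ) / M) ^ (M - j))) := by
    have h3 := add_pow ((k : ℝ) / M) (1 - (k : ℝ) / M) M
    rw [add_sub_cancel, one_pow] at h3
    refine h3.trans (sum_congr rfl fun j _ => ?_)
    ring
  have h3 := sum_le_card_nsmul (range (M + 1))
    (fun j => (M.choose j * (((k : ℝ) / M) ^ j * (1 - (k : ℝ) / M) ^ (M - j)) : ℝ)) _
    (fun j hj => B4_mode h0 h1 j (by rw [mem_range] at hj; omega))
  rw [← h2, card_range, nsmul_eq_mul] at h3
  push_cast at h3
  exact h3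

theorem B4_prod (y : I → Bool) (a b : ℝ) :
    (∏ i, if y i then a else b) = a ^ wt y * b ^ (Fintype.card I - wt y) := by
  rw [prod_ite, prod_const, prod_const]
  congr 2
  rw [filter_not, ← compl_eq_univ_sdiff, card_compl]
  rfl

theorem sl_le_biased {k : ℕ} (h0 : 0 < k) (h1 : k < Fintype.card I) {F : (I → Bool) → ℝ}
    (hF : ∀ y, 0 ≤ F y) :
    sl k F ≤ ((Fintype.card I : ℝ) + 1) * ∑ y : I → Bool,
      (∏ i, if y i then ((k : ℝ) / Fintype.card I) else 1 - (k : ℝ) / Fintype.card I) * F y := by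
  set M := Fintype.card I with hM
  set x : ℝ := (k : ℝ) / M with hx
  have hM0 : (0 : ℝ) < M := by exact_mod_cast h0.trans h1
  have hkM : (k : ℝ) < M := by exact_mod_cast h1
  have hx0 : 0 ≤ x := by positivity
  have hy0 : 0 ≤ 1 - x := by
    rw [hx, sub_nonneg, div_le_one hM0]; exact hkM.le
  have hmode := binom_mode h0 h1
  rw [← hx] at hmode
  set S : ℝ := ∑ y ∈ univ.filter (fun y : I → Bool => wt y = k), F y with hS
  have hS0 : 0 ≤ S := sum_nonneg fun y _ => hF y
  have hC : (0 : ℝ) < M.choose k := by exact_mod_cast Nat.choose_pos h1.le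
  have h2 : x ^ k * (1 - x) ^ (M - k) * S ≤ ∑ y : I → Bool,
      (∏ i, if y i then x else 1 - x) * F y := by
    rw [hS, mul_sum]
    refine (sum_le_sum fun y hy => ?_).trans
      (sum_le_sum_of_subset_of_nonneg (filter_subset _ _) fun y _ _ => ?_)
    · rw [mem_filter] at hy
      rw [B4_prod, hy.2]
    · rw [B4_prod]
      have := hF y
      positivity
  have h3 : sl k F = S / M.choose k := rfl
  rw [h3, div_le_iff₀ hC]
  calc S = 1 * S := (one_mul S).symm
    _ ≤ (((M : ℝ) + 1) * (M.choose k * (x ^ k * (1 - x) ^ (M - k)))) * S :=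
        mul_le_mul_of_nonneg_right hmode hS0
    _ = ((M : ℝ) + 1) * (x ^ k * (1 - x) ^ (M - k) * S) * M.choose k := by ring
    _ ≤ _ := by
        refine mul_le_mul_of_nonneg_right ?_ hC.le
        exact mul_le_mul_of_nonneg_left h2 (by positivity)

end General

end Pool.Agent.H543R2.EQ
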