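import Pool.Agent.H620R2.GaugeQ.Defs
import Pool.Agent.H620R2.Gauge.Base

/-!
# Exact quantum polynomial time is not in the polynomial hierarchy, relative to an oracle

Definitions of the proof.  The instance of size `n` consists of two tables `a, b` on
`{0,1}^(2n)` and a table `h` on `{0,1}^(3n)`.
-/

namespace Pool.Agent.H543R2.EQ

open Pool.Agent.NPC Pool.Agent.H620R2.Gauge Finset H568R2 Pool.Agent.H676

/-- sign of a bit -/
def sg (b : Bool) : ℝ := if b then -1 else 1

/-- the points of `{0,1}^(2n)` -/
abbrev X (n : ℕ) : Type := (Fin n → Bool) × (Fin n → Bool)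

/-- the positions of an instance of size `n`: table `a`, table `b`, table `h` -/
abbrev J (n : ℕ) : Type := (X n ⊕ X n) ⊕ (X n × (Fin n → Bool))

set_option synthInstance.maxSize 400 in
@[reducible] instance instDecJ (n : ℕ) : DecidableEq (J n) := inferInstance

/-- the flat orthogonal matrix (a bent convolution) -/
noncomputable def U (n : ℕ) (x y : X n) : ℝ :=
  (∏ i, if (x.1 i ^^ y.1 i) && (x.2 i ^^ y.2 i) then (-1 : ℝ) else 1) / 2 ^ n

/-- the form `⟨u, U v⟩ / N` with `N = 4 ^ n`, `z` being a point of `ℝ^J` -/
noncomputable def Psi (n : ℕ) (z : J n → ℝ) : ℝ :=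
  (∑ x, ∑ y, z (Sum.inl (Sum.inl x)) * U n x y * z (Sum.inl (Sum.inr y))) / 4 ^ n

/-- the signs of an instance -/
def sgv {I : Type*} (y : I → Bool) : I → ℝ := fun i => sg (y i)

/-- the value of an instance -/
noncomputable def val (n : ℕ) (y : J n → Bool) : ℝ :=
  (Psi n (sgv y) + (∑ i, sg (y (Sum.inr i))) / 8 ^ n) / 2

/-- the yes-instances have exact value `1/16` -/
def YesI (n : ℕ) (y : J n → Bool) : Prop := val n y = 1 / 16

/-- the no-instances have exact value `0` -/
def NoI (n : ℕ) (y : J n → Bool) : Prop := val n y = 0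

section General

variable {I : Type*} [Fintype I] [DecidableEq I]

open Classical in
/-- the probability that a random restriction with star probability `q` does not turn `f` into a
decision tree of depth `t` -/
noncomputable def bad (t : ℕ) (q : ℝ) (f : (I → Bool) → Bool) : ℝ :=
  Ex (wq q) (fun ρ : Restr I => if ¬ DTr t (rs f ρ) then (1 : ℝ) else 0)

/-- `f` and all its restrictions simplify under random restrictions with small star probability -/
def GoodF (t : ℕ) (p η : ℝ) (f : (I → Bool) → Bool) : Prop :=
  ∀ (σ : Restr I) (q : ℝ), 0 < q → q ≤ p → bad t q (rs f σ) ≤ η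

/-- the Fourier weight (in `ℓ₁`) of level two -/
noncomputable def L2 (f : (I → Bool) → Bool) : ℝ :=
  ∑ S ∈ univ.filter (fun S : I → Bool => wt S = 2), |co (br f) S|

/-- the expectation of `g y`, where the bits `y i` are independent and `sg (y i)` has mean `z i` -/
noncomputable def pe (z : I → ℝ) (g : (I → Bool) → ℝ) : ℝ :=
  ∑ y, (∏ i, (1 + sg (y i) * z i) / 2) * g y

/-- the mean over the points of weight `k` -/
noncomputable def sl (k : ℕ) (g : (I → Bool) → ℝ) : ℝ :=
  (∑ y ∈ univ.filter (fun y : I → Bool => wt y = k), g y) / (Fintype.card I).choose k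

/-- the number of sensitive coordinates of `g` at `y` -/
noncomputable def sens (g : (I → Bool) → Bool) (y : I → Bool) : ℝ :=
  ((univ.filter (fun i => g (Function.update y i (!y i)) ≠ g y)).card : ℝ)

open Classical in
/-- the probability that `g` does not become a decision tree of depth `t` if all coordinates
outside a random set (of density `q`) are fixed as in `y` -/
noncomputable def PR (t : ℕ) (q : ℝ) (g : (I → Bool) → Bool) (y : I → Bool) : ℝ :=
  ∑ R : I → Bool, (∏ i, if R i then q else 1 - q) *
    (if ¬ DTr t (rs g (fun i => if R i then none else some (y i))) then (1 : ℝ) else 0)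

end General

/-- the bound for the difference of a slice and the cube -/
noncomputable def eS (n t : ℕ) (p η τ : ℝ) : ℝ :=
  16 * τ / p * (t + 8 ^ n * (8 ^ n + 1) * η) + 1 / (4 * τ ^ 2 * 8 ^ n)

/-- the expectation of `G` after `T` steps of the random walk with steps `w ω`, from `z` -/
noncomputable def chn {Ω I : Type*} [Fintype Ω] (w : Ω → (I → ℝ) → I → ℝ) :
    ℕ → ((I → ℝ) → ℝ) → (I → ℝ) → ℝ
  | 0, G, z => G z
  | T + 1, G, z => (∑ ω, chn w T G (w ω z)) / Fintype.card Ω

/-- the direction of the step: `ω` on the first table, `Uᵀ ω` on the second, `0` on the third -/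
noncomputable def inc (n : ℕ) (ω : X n → Bool) : J n → ℝ
  | Sum.inl (Sum.inl x) => sg (ω x)
  | Sum.inl (Sum.inr y) => ∑ x, U n x y * sg (ω x)
  | Sum.inr _ => 0

open Classical in
/-- a step of the random walk: a coordinate is frozen once it has left `[-7/8, 7/8]`, and all
coordinates are frozen once the form has reached `1/8` -/
noncomputable def stp (n : ℕ) (δ : ℝ) (ω : X n → Bool) (z : J n → ℝ) : J n → ℝ :=
  fun i => if Psi n z < 1 / 8 ∧ |z i| ≤ 7 / 8 then z i + δ * inc n ω i else z i

/-- the answer to the question `s` for the instance `y` of size `n`: the first two bits select the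
table, the others are the position -/
def strVal (n : ℕ) (y : J n → Bool) : List Bool → Bool
  | c :: e :: l =>
    let p : X n := (fun i => l.getD i false, fun i => l.getD (n + i) false)
    let r : Fin n → Bool := fun i => l.getD (2 * n + i) false
    if c then (if e then false else y (Sum.inr (p, r)))
    else if e then y (Sum.inl (Sum.inr p)) else y (Sum.inl (Sum.inl p))
  | _ => false

/-- the oracle made of one instance for every size `n`, asked with strings of length `3n+2` -/
def orcY (Y : (n : ℕ) → J n → Bool) : Oracle := fun s =>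
  if s.length % 3 = 2 then strVal ((s.length - 2) / 3) (Y ((s.length - 2) / 3)) s else false

/-- the language: is the instance of size `|x|` a yes-instance? -/
def langY (Y : (n : ℕ) → J n → Bool) : Set (List Bool) := {x | YesI x.length (Y x.length)}

/-- the no-instance used by default -/
def dflt (n : ℕ) : J n → Bool := Sum.elim (fun _ => false) (fun _ => true)

/-- the answer of the algorithm `M` on input `s`, as a function of the instance of size `n` -/
def leafY (M : Alg) (Y : (n : ℕ) → J n → Bool) (n : ℕ) (s : List Bool) (y : J n → Bool) : Bool :=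
  decide (M.out (orcY (Function.update Y n y)) s = some [true])

/-! ### The quantum circuits -/

/-- inner product -/
noncomputable def ip {m : ℕ} (φ ψ : (Fin m → Bool) → ℝ) : ℝ := ∑ s, φ s * ψ s

/-- not gate -/
def Xg (k : ℕ) : Gate := Sum.inr (false, [], k)

/-- Hadamard gate -/
def Hg (k : ℕ) : Gate := Sum.inl k

/-- the qubits of a gate -/
def gq : Gate → List ℕ
  | Sum.inl i => [i]
  | Sum.inr (_, q, k) => k :: q

/-- phase gate, made with the help of qubit `1`, which is `0` before and after: the sign changes
if all qubits in `q` are `1` (`o = false`), if the string in `q` is in the oracle (`o = true`) -/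
def ph (o : Bool) (q : List ℕ) : List Gate := [Xg 1, Hg 1, Sum.inr (o, q, 1), Hg 1, Xg 1]

/-- the sign changes if all qubits in `W` are `0` and all qubits in `E` are `1` -/
def rfl0 (W E : List ℕ) : List Gate := W.map Xg ++ ph false (W ++ E) ++ W.map Xg

/-- one Grover iteration for the circuit `C` with work qubits `W` -/
def grov (W : List ℕ) (C : List Gate) : List Gate :=
  C ++ rfl0 W [] ++ C.reverse ++ rfl0 W [] ++ C

/-- The doubling step. The qubits `b1 :: b2 :: B ++ [s, t]` (put into a uniform superposition)
select: not `b1 b2`: a Grover iteration; `b1 b2` and all of `B` and `s ∨ t`: the qubit `z` is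
flipped; otherwise: the circuit `C` itself. -/
def dbl (W : List ℕ) (b1 b2 : ℕ) (B : List ℕ) (s t z : ℕ) (C : List Gate) : List Gate :=
  (b1 :: b2 :: B ++ [s, t]).map Hg ++ (C ++ rfl0 W [] ++ rfl0 W [b1, b2] ++ C.reverse ++
    rfl0 W [] ++ rfl0 W [b1, b2] ++ C) ++
  [Sum.inr (false, b1 :: b2 :: B ++ [s], z), Sum.inr (false, b1 :: b2 :: B ++ [t], z),
    Sum.inr (false, b1 :: b2 :: B ++ [s, t], z)] ++ (b1 :: b2 :: B ++ [s, t]).map Hg

/-- the amplitude of the all-zero state in the final state -/
noncomputable def amp (A : Oracle) (m : ℕ) (C : List Gate) : ℝ :=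
  circAct A C (initSt m) (fun _ => false)

/-- the circuit only touches the qubits in `W` and qubit `1`, and it returns qubit `1` to `0`, as
does its inverse -/
def Acts (A : Oracle) (m : ℕ) (W : List ℕ) (C : List Gate) : Prop :=
  (∀ g ∈ C, ∀ i ∈ gq g, i ∈ W ∨ i = 1) ∧
  (∀ ψ : (Fin m → Bool) → ℝ, (∀ s, ψ s ≠ 0 → rd s 1 = false) →
    ∀ s, circAct A C ψ s ≠ 0 → rd s 1 = false) ∧
  (∀ ψ : (Fin m → Bool) → ℝ, (∀ s, ψ s ≠ 0 → rd s 1 = false) →
    ∀ s, circAct A C.reverse ψ s ≠ 0 → rd s 1 = false)

/-- the qubits of the question -/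
def qs (n : ℕ) : List ℕ := [2, 3] ++ List.range' 25 (3 * n)

/-- the basic circuit -/
def base (n : ℕ) : List Gate :=
  (2 :: List.range' 25 (3 * n)).map Hg ++ ph true (qs n) ++
  (List.range' 25 (2 * n)).map Hg ++
  (List.range n).flatMap (fun i => ph false [25 + i, 25 + n + i]) ++
  (List.range' 25 (2 * n)).map Hg ++ [Xg 3] ++ ph true (qs n) ++ [Xg 3] ++
  (2 :: List.range' 25 (3 * n)).map Hg

/-- work qubits after the doubling steps -/
def W1 (n : ℕ) : List ℕ := qs n ++ [4, 5, 6, 7, 8, 9, 10, 11, 12]
def W2 (n : ℕ) : List ℕ := W1 n ++ [13, 14, 15, 16, 17, 18, 19]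
def W3 (n : ℕ) : List ℕ := W2 n ++ [20, 21, 22, 23, 24]

/-- the circuits after the doubling steps -/
def C1 (n : ℕ) : List Gate := dbl (qs n) 4 5 [6, 7, 8, 9] 10 11 12 (base n)
def C2 (n : ℕ) : List Gate := dbl (W1 n) 13 14 [15, 16] 17 18 19 (C1 n)
def C3 (n : ℕ) : List Gate := dbl (W2 n) 20 21 [] 22 23 24 (C2 n)

/-- the final circuit: a last Grover iteration; qubit `0` is flipped if the work qubits are `0` -/
def circ (n : ℕ) : List Unit × List Gate :=
  (List.replicate (25 + 3 * n) (), grov (W3 n) (C3 n) ++
    ((W3 n).map Xg ++ [Sum.inr (false, W3 n, 0)] ++ (W3 n).map Xg))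

/-- The language `L` is in exact quantum polynomial time relative to `A`: there are quantum
circuits `C x`, computable from `x` in polynomial time, which accept with probability `1` if `x`
is in `L` and with probability `0` if it is not. -/
def IsEQP (A : Oracle) (L : Set (List Bool)) : Prop :=
  ∃ C : List Bool → List Unit × List Gate, PolyTime (fun x => bits (C x)) ∧
    ∀ x, (x ∈ L → accProb A (C x) = 1) ∧ (x ∉ L → accProb A (C x) = 0)

end Pool.Agent.H543R2.EQ
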