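import Pool.Agent.H543R2.EQ.Defs
import Pool.Agent.H620R2.Gauge.C

/-!
# Oracles with `P = PH`: definitions

The questions whether an algorithm of the polynomial hierarchy accepts `x` are coded into the
oracle itself, at strings of length divisible by `3`, much longer than all questions asked.
-/

namespace Pool.Agent.H543R2.EQ

open Pool.Agent.NPC Pool.Agent.H620R2.Gauge Finset H568R2 Pool.Agent.H676

/-- `k` alternating quantifiers in front of "`M` accepts with oracle `A`" -/
def QO (A : Oracle) (M : Alg) (m : ℕ) : ℕ → Bool → List Bool → Prop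
  | 0, _, y => M.out A y = some [true]
  | k + 1, true, y => ∃ w : List Bool, w.length ≤ m ∧ QO A M m k false (pairBits w y)
  | k + 1, false, y => ∀ w : List Bool, w.length ≤ m → QO A M m k true (pairBits w y)

/-- an enumeration of the algorithms of the polynomial hierarchy with the lengths of the codes -/
structure Cod : Type where
  M : ℕ → Alg
  P : ℕ → Polynomial ℕ
  k : ℕ → ℕ
  R : ℕ → Polynomial ℕ
  surj : ∀ (M' : Alg) (P' : Polynomial ℕ) (k' : ℕ), ∃ e, M e = M' ∧ P e = P' ∧ k e = k'
  mod3 : ∀ (e : ℕ) (x : List Bool), (code R e x).length % 3 = 0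
  /-- the questions are much shorter than the code -/
  short : ∀ (e : ℕ) (x s a : List Bool),
    s.length ≤ x.length + k e * (2 * (P e).eval x.length + 1) →
    a.length ≤ (M e).p.eval s.length →
    ((M e).D (pairBits s a)).length ^ 2 ≤ (code R e x).length
  time : ∀ (e : ℕ) (x s : List Bool),
    s.length ≤ x.length + k e * (2 * (P e).eval x.length + 1) →
    (M e).p.eval s.length ≤ (code R e x).length
  size : ∀ (e : ℕ) (x : List Bool),
    x.length + k e * (2 * (P e).eval x.length + 1) + 2 ^ k e ≤ (code R e x).length

/-- the oracle with the coded answers -/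
noncomputable def PhiC (c : Cod) (B : Oracle) : Oracle :=
  CC.Phi c.R (fun e A x => QO A (c.M e) ((c.P e).eval x.length) (c.k e) true x) B

/-- the answer to the question `z`, as a function of the instance of size `n` -/
noncomputable def ansE (c : Cod) (Y : (n : ℕ) → J n → Bool) (n : ℕ) (z : List Bool)
    (y : J n → Bool) : Bool :=
  PhiC c (orcY (Function.update Y n y)) z

end Pool.Agent.H543R2.EQ
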