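import Pool.Agent.H543R2.EQ.DefsE

/-!
# The enumeration of the algorithms and the lengths of the codes (task E1)
-/

namespace Pool.Agent.H543R2.EQ

open Pool.Agent.NPC Pool.Agent.H620R2.Gauge Finset H568R2 Pool.Agent.H676

theorem exists_cod : Nonempty Cod := by
  have h1 : Countable (Polynomial ℕ) := CC.poly_countable
  have h2 : Nonempty (Alg × Polynomial ℕ × ℕ) := ⟨⟨⟨fun x => x, polyTime_id, 0⟩, 0, 0⟩⟩
  obtain ⟨g, hg⟩ := exists_surjective_nat (Alg × Polynomial ℕ × ℕ)
  choose b hb using fun e => Alg.next_length (g e).1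
  let len : ℕ → Polynomial ℕ := fun e =>
    Polynomial.X + Polynomial.C (g e).2.2 * (Polynomial.C 2 * (g e).2.1 + Polynomial.C 1)
  let Q : ℕ → Polynomial ℕ := fun e =>
    ((b e).comp (len e)) ^ 2 + (g e).1.p.comp (len e) + len e + Polynomial.C (2 ^ (g e).2.2)
  let R : ℕ → Polynomial ℕ := fun e =>
    Polynomial.C 3 * Q e + Polynomial.C 2 * (Polynomial.X + Polynomial.C (e + 2))
  have hlen : ∀ e m, (len e).eval m = m + (g e).2.2 * (2 * (g e).2.1.eval m + 1) := by
    intro e m
    simp only [len, Polynomial.eval_add, Polynomial.eval_mul, Polynomial.eval_C, Polynomial.eval_X]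
  have hQ : ∀ e m, (Q e).eval m = ((b e).eval ((len e).eval m)) ^ 2 +
      (g e).1.p.eval ((len e).eval m) + (len e).eval m + 2 ^ (g e).2.2 := by
    intro e m
    simp only [Q, Polynomial.eval_add, Polynomial.eval_pow, Polynomial.eval_comp, Polynomial.eval_C]
  have hcode : ∀ e x, (code R e x).length = 3 * ((Q e).eval x.length + x.length + e + 2) := by
    intro e x
    have hR : (R e).eval x.length = 3 * (Q e).eval x.length + 2 * (x.length + (e + 2)) := by
      simp only [R, Polynomial.eval_add, Polynomial.eval_mul, Polynomial.eval_C, Polynomial.eval_X]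
    simp only [code, List.length_append, List.length_cons, List.length_replicate]
    rw [hR]
    ring
  refine ⟨⟨fun e => (g e).1, fun e => (g e).2.1, fun e => (g e).2.2, R, ?_, ?_, ?_, ?_, ?_⟩⟩
  · intro M' P' k'
    obtain ⟨e, he⟩ := hg (M', P', k')
    refine ⟨e, ?_, ?_, ?_⟩ <;> rw [he]
  · intro e x
    rw [hcode]
    exact Nat.mul_mod_right 3 _
  · intro e x s a hs ha
    beta_reduce at hs ha ⊢
    rw [← hlen] at hs
    have h3 := hb e s a ha
    have h4 : (b e).eval s.length ≤ (b e).eval ((len e).eval x.length) := eval_mono _ hs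
    have h5 := Nat.pow_le_pow_left (h3.trans h4) 2
    rw [hcode, hQ]
    have aux : ∀ a b c d x e : ℕ, a ≤ 3 * (a + b + c + d + x + e + 2) := by intros; omega
    exact h5.trans (aux _ _ _ _ _ _)
  · intro e x s hs
    beta_reduce at hs ⊢
    rw [← hlen] at hs
    have h4 : (g e).1.p.eval s.length ≤ (g e).1.p.eval ((len e).eval x.length) := eval_mono _ hs
    rw [hcode, hQ]
    have aux : ∀ a b c d x e : ℕ, b ≤ 3 * (a + b + c + d + x + e + 2) := by intros; omega
    exact h4.trans (aux _ _ _ _ _ _)
  · intro e x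
    beta_reduce
    rw [← hlen, hcode, hQ]
    have aux : ∀ a b c d x e : ℕ, c + d ≤ 3 * (a + b + c + d + x + e + 2) := by intros; omega
    exact aux _ _ _ _ _ _

end Pool.Agent.H543R2.EQ
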