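import Pool.Agent.H543R2.EQ.DefsE
import Pool.Agent.H620R2.Gauge.Upper

/-! Task E2 of the project EQP (helper543): the oracle `PhiC`. -/

namespace Pool.Agent.H543R2.EQ

open Pool.Agent.NPC Pool.Agent.H620R2.Gauge Finset H568R2 Pool.Agent.H676 Pool.Agent.H622R2

namespace E2

theorem run_congr (M : Alg) (s : List Bool) {A A' : Oracle}
    (hq : ∀ a q : List Bool, a.length ≤ M.p.eval s.length → M.D (pairBits s a) = false :: q →
      A q = A' q) :
    ∀ (n : ℕ) (a : List Bool), a.length + n ≤ M.p.eval s.length → M.run A s n a = M.run A' s n a := by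
  intro n
  induction n with
  | zero => intro a _; rfl
  | succ n ih =>
    intro a ha
    rcases hD : M.D (pairBits s a) with _ | ⟨b, q⟩
    · simp only [Alg.run, hD]
    · cases b with
      | true => simp only [Alg.run, hD]
      | false =>
        simp only [Alg.run, hD]
        rw [hq a q (by omega) hD]
        apply ih
        rw [List.length_append, List.length_singleton]
        omega

theorem QO_congr (c : Cod) (e : ℕ) (x : List Bool) {A A' : Oracle}
    (h : ∀ z : List Bool, z.length < (code c.R e x).length → A z = A' z) :
    ∀ (k : ℕ) (b : Bool) (y : List Bool),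
      y.length + k * (2 * (c.P e).eval x.length + 1) ≤
        x.length + c.k e * (2 * (c.P e).eval x.length + 1) →
      (QO A (c.M e) ((c.P e).eval x.length) k b y ↔
        QO A' (c.M e) ((c.P e).eval x.length) k b y) := by
  intro k
  induction k with
  | zero =>
    intro b y hy
    have h1 : (c.M e).out A y = (c.M e).out A' y := by
      unfold Alg.out
      apply run_congr
      · intro a q ha hD
        apply h
        have h2 := c.short e x y a (by omega) ha
        rw [hD, List.length_cons] at h2
        have h3 : q.length + 1 ≤ (q.length + 1) ^ 2 := Nat.le_self_pow (by norm_num) _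
        omega
      · simp
    simp only [QO, h1]
  | succ k ih =>
    intro b y hy
    have hlen : ∀ w : List Bool, w.length ≤ (c.P e).eval x.length →
        (pairBits w y).length + k * (2 * (c.P e).eval x.length + 1) ≤
          x.length + c.k e * (2 * (c.P e).eval x.length + 1) := by
      intro w hw
      rw [length_pairBits]
      have : (k + 1) * (2 * (c.P e).eval x.length + 1) =
        k * (2 * (c.P e).eval x.length + 1) + (2 * (c.P e).eval x.length + 1) := by ring
      omega
    cases b with
    | true =>
      simp only [QO]
      exact exists_congr fun w => and_congr_right fun hw => ih false _ (hlen w hw)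
    | false =>
      simp only [QO]
      exact forall_congr' fun w => forall_congr' fun hw => ih true _ (hlen w hw)

theorem QO_iff {A : Oracle} {M : Alg} {V : List Bool → List Bool}
    (hM : ∀ y, M.out A y = some (V y)) (m : ℕ) : ∀ (k : ℕ) (b : Bool) (y : List Bool),
      QO A M m k b y ↔ Quant m V k b y := by
  intro k
  induction k with
  | zero =>
    intro b y
    simp only [QO, Quant, hM, Option.some.injEq]
  | succ k ih =>
    intro b y
    cases b with
    | true => simp only [QO, Quant, ih]
    | false => simp only [QO, Quant, ih]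

end E2

open E2

theorem PhiC_code (c : Cod) (B : Oracle) (e : ℕ) (x : List Bool) :
    PhiC c B (code c.R e x) = true ↔
      QO (PhiC c B) (c.M e) ((c.P e).eval x.length) (c.k e) true x := by
  unfold PhiC
  exact CC.Phi_code c.R _ B (fun e A A' x h => QO_congr c e x h (c.k e) true x le_rfl) e x

theorem PhiC_not (c : Cod) (B : Oracle) (y : List Bool) (h : ∀ e x, y ≠ code c.R e x) :
    PhiC c B y = B y := by
  unfold PhiC
  exact CC.Phi_not c.R _ B y h

theorem PhiC_mod (c : Cod) (B : Oracle) (y : List Bool) (h : y.length % 3 = 2) :
    PhiC c B y = B y := by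
  apply PhiC_not
  rintro e x rfl
  have := c.mod3 e x
  omega

/-- the answers to questions of length at most `m` depend only on the strings of length at most
`m` -/
theorem PhiC_local (c : Cod) {B B' : Oracle} (m : ℕ) (h : ∀ y : List Bool, y.length ≤ m → B y = B' y)
    (y : List Bool) (hy : y.length ≤ m) : PhiC c B y = PhiC c B' y := by
  induction hn : y.length using Nat.strong_induction_on generalizing y with
  | _ n ih =>
    by_cases hc : ∃ e x, y = code c.R e x
    · obtain ⟨e, x, rfl⟩ := hc
      rw [Bool.eq_iff_iff, PhiC_code, PhiC_code]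
      apply QO_congr c e x _ (c.k e) true x le_rfl
      intro z hz
      exact ih z.length (by omega) z (by omega) rfl
    · have hc' : ∀ e x, y ≠ code c.R e x := fun e x hx => hc ⟨e, x, hx⟩
      rw [PhiC_not c B y hc', PhiC_not c B' y hc', h y hy]

theorem isPH_iff_code (c : Cod) (B : Oracle) {L : Set (List Bool)} (h : IsPH (PhiC c B) L) :
    ∃ e, ∀ x, x ∈ L ↔ PhiC c B (code c.R e x) = true := by
  obtain ⟨V, p, k, ⟨M, hM⟩, hL⟩ := h
  obtain ⟨e, h1, h2, h3⟩ := c.surj M p k
  refine ⟨e, fun x => ?_⟩
  rw [PhiC_code, h1, h2, h3, QO_iff hM]
  exact hL x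

theorem isP_of_isPH (c : Cod) (B : Oracle) {L : Set (List Bool)} (h : IsPH (PhiC c B) L) :
    IsP (PhiC c B) L := by
  obtain ⟨e, he⟩ := isPH_iff_code c B h
  exact isP_of_reduces ⟨fun x => code c.R e x, polyTime_of_poly_list (CC.poly_code c.R e), he⟩

end Pool.Agent.H543R2.EQ
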