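import Pool.Agent.H543R2.EQ.DefsE
import Pool.Agent.H620R2.Gauge.Dt

/-! Composition of decision trees; monotonicity of `bad`. -/

namespace Pool.Agent.H543R2.EQ

open Pool.Agent.NPC Pool.Agent.H620R2.Gauge Finset H568R2 Pool.Agent.H676

section

variable {I : Type*} [Fintype I] [DecidableEq I]

theorem DTr_bind {t k : ℕ} {g : (I → Bool) → Bool} (hg : DTr t g)
    {f : Bool → (I → Bool) → Bool} (hf : ∀ b, DTr k (f b)) :
    DTr (t + k) (fun y => f (g y) y) := by
  induction t generalizing g f with
  | zero =>
    obtain ⟨c, hc⟩ := hg
    have h : (fun y => f (g y) y) = f c := by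
      funext y
      rw [hc y]
    rw [h]
    exact (hf c).mono (by omega)
  | succ t ih =>
    rcases hg with ⟨c, hc⟩ | ⟨i, hi⟩
    · have h : (fun y => f (g y) y) = f c := by
        funext y
        rw [hc y]
      rw [h]
      exact (hf c).mono (by omega)
    · have h1 : t + 1 + k = (t + k) + 1 := by omega
      rw [h1]
      exact Or.inr ⟨i, fun b => ih (hi b) (f := fun c x => f c (Function.update x i b))
        (fun c => DTr_update (hf c) i b)⟩

theorem dtr_run' (M : Alg) (O : (I → Bool) → Oracle) (t : ℕ) (s : List Bool)
    (hO : ∀ a q : List Bool, a.length < M.p.eval s.length → M.D (pairBits s a) = false :: q →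
      DTr t (fun y => O y q)) :
    DTr (M.p.eval s.length * t) (fun y => decide (M.out (O y) s = some [true])) := by
  have key : ∀ (n : ℕ) (acc : List Bool), acc.length + n ≤ M.p.eval s.length →
      DTr (n * t) (fun y => decide (M.run (O y) s n acc = some [true])) := by
    intro n
    induction n with
    | zero =>
      intro acc _
      exact DTr.const ⟨false, fun a => by simp [Alg.run]⟩
    | succ n ih =>
      intro acc hacc
      rcases hq : M.D (pairBits s acc) with _ | ⟨c, q⟩
      · exact DTr.const ⟨false, fun a => by simp [Alg.run, hq]⟩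
      · cases c with
        | true => exact DTr.const ⟨decide (q = [true]), fun a => by simp [Alg.run, hq]⟩
        | false =>
          have h1 := DTr_bind (hO acc q (by omega) hq)
            (f := fun b y => decide (M.run (O y) s n (acc ++ [b]) = some [true]))
            (fun b => ih (acc ++ [b]) (by simp; omega))
          have h2 : (n + 1) * t = t + n * t := by ring
          rw [h2]
          have h3 : (fun y => decide (M.run (O y) s (n + 1) acc = some [true])) =
              fun y => decide (M.run (O y) s n (acc ++ [O y q]) = some [true]) := by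
            funext y
            simp only [Alg.run, hq]
          rw [h3]
          exact h1
  exact key _ [] (by simp)

theorem bad_mono {t : ℕ} {q p : ℝ} (h0 : 0 < q) (h1 : q ≤ p) (h2 : p ≤ 1)
    (f : (I → Bool) → Bool) : bad t q f ≤ bad t p f := by
  classical
  have hp : 0 < p := lt_of_lt_of_le h0 h1
  have hqp : p * (q / p) = q := by field_simp
  unfold bad
  rw [← hqp, wq_cmp]
  refine Ex_mono (wq_nonneg hp.le h2) (fun ρ => ?_)
  by_cases h : DTr t (rs f ρ)
  · have h3 : (fun τ : Restr I => if ¬ DTr t (rs f (cmp ρ τ)) then (1 : ℝ) else 0) =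
        fun _ => 0 := by
      funext τ
      rw [if_neg]
      rw [not_not, rs_cmp]
      exact h.rs
    rw [h3, Ex_const (wq_sum _)]
    simp [h]
  · rw [if_pos h]
    calc Ex (wq (q / p)) (fun τ => if ¬ DTr t (rs f (cmp ρ τ)) then (1 : ℝ) else 0)
        ≤ Ex (wq (q / p)) (fun _ => 1) :=
          Ex_mono (wq_nonneg (div_nonneg h0.le hp.le) ((div_le_one hp).mpr h1)) (fun τ => by
            split_ifs <;> norm_num)
      _ = 1 := Ex_const (wq_sum _) 1

end

end Pool.Agent.H543R2.EQ
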