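import Pool.Agent.H543R2.EQ.E2
import Pool.Agent.H543R2.EQ.U

/-!
# Diagonalisation against all the coded algorithms (task E7, with `core` and `good_all` as
hypotheses)
-/

namespace Pool.Agent.H543R2.EQ

open Pool.Agent.NPC Pool.Agent.H620R2.Gauge Finset H568R2 Pool.Agent.H676

theorem E7_not_both {n : ℕ} {y : J n → Bool} (h : NoI n y) : ¬ YesI n y := by
  intro h'
  unfold NoI at h
  unfold YesI at h'
  rw [h] at h'
  norm_num at h'

/-- the length of the diagonal question -/
noncomputable def E7len (c : Cod) (e : ℕ) : Polynomial ℕ :=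
  Polynomial.C (e + 2) + c.R e + Polynomial.X

theorem E7len_eval (c : Cod) (e n : ℕ) :
    (code c.R e (List.replicate n false)).length = (E7len c e).eval n := by
  unfold code E7len
  simp only [List.length_append, List.length_replicate, List.length_cons, Polynomial.eval_add,
    Polynomial.eval_C, Polynomial.eval_X]
  omega

/-- two families that agree on all sizes `n` with `3 n + 2 ≤ m` give the same answers to questions
of length at most `m` -/
theorem E7_agree (c : Cod) (Y Y' : (n : ℕ) → J n → Bool) (m : ℕ)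
    (h : ∀ n, 3 * n + 2 ≤ m → Y n = Y' n) (z : List Bool) (hz : z.length ≤ m) :
    PhiC c (orcY Y) z = PhiC c (orcY Y') z := by
  refine PhiC_local c m (fun s hs => ?_) z hz
  unfold orcY
  by_cases h3 : s.length % 3 = 2
  · rw [if_pos h3, if_pos h3, h ((s.length - 2) / 3) (by omega)]
  · rw [if_neg h3, if_neg h3]

theorem exists_familyE_of
    (core : ∃ n₀ : ℕ, ∀ n ≥ n₀, ∀ (f : (J n → Bool) → Bool) (t : ℕ) (p : ℝ),
      0 < p → p ≤ 1 → ((t : ℝ) + 1) / p ≤ 2 ^ ((n : ℝ) / 8) → GoodF t p ((1 / 2) ^ (8 * n)) f →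
      ∃ y, (YesI n y ∧ f y = false) ∨ (NoI n y ∧ f y = true))
    (c : Cod)
    (good : ∀ D : Polynomial ℕ, ∃ n₀ : ℕ, ∀ n ≥ n₀,
      ∃ (t : ℕ) (p : ℝ), 0 < p ∧ p ≤ 1 ∧ ((t : ℝ) + 1) / p ≤ 2 ^ ((n : ℝ) / 8) ∧
        ∀ (Y : (n : ℕ) → J n → Bool) (z : List Bool), z.length ≤ D.eval n →
          GoodF t p ((1 / 2) ^ (8 * n)) (ansE c Y n z)) :
    ∃ Y : (n : ℕ) → J n → Bool,
      (∀ n, YesI n (Y n) ∨ NoI n (Y n)) ∧
      ∀ e, ∃ n, ¬ (PhiC c (orcY Y) (code c.R e (List.replicate n false)) = true ↔
        YesI n (Y n)) := by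
  classical
  obtain ⟨n₀, hcore⟩ := core
  have key : ∀ e : ℕ, ∃ N : ℕ, ∀ n ≥ N, ∀ Y : (n : ℕ) → J n → Bool, ∃ y : J n → Bool,
      (YesI n y ∧ ansE c Y n (code c.R e (List.replicate n false)) y = false) ∨
        (NoI n y ∧ ansE c Y n (code c.R e (List.replicate n false)) y = true) := by
    intro e
    obtain ⟨n₁, h1⟩ := good (E7len c e)
    refine ⟨max n₀ n₁, fun n hn Y => ?_⟩
    obtain ⟨t, p, hp, hp1, htp, hg⟩ := h1 n ((le_max_right _ _).trans hn)
    exact hcore n ((le_max_left _ _).trans hn) _ t p hp hp1 htp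
      (hg Y _ (E7len_eval c e n).le)
  choose N hN using key
  -- the sizes
  let ν : ℕ → ℕ := fun k => Nat.rec (N 0) (fun k r => N (k + 1) + r + 1 + (E7len c k).eval r) k
  have hν0 : ν 0 = N 0 := rfl
  have hν1 : ∀ k, ν (k + 1) = N (k + 1) + ν k + 1 + (E7len c k).eval (ν k) := fun k => rfl
  have hνN : ∀ k, N k ≤ ν k := by
    intro k
    cases k with
    | zero => exact hν0.ge
    | succ k => rw [hν1]; omega
  have hνlt : ∀ k, ν k < ν (k + 1) := fun k => by rw [hν1]; omega
  have hνm : StrictMono ν := strictMono_nat_of_lt_succ hνlt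
  -- the instances
  choose g hg using fun (k : ℕ) (Y : (n : ℕ) → J n → Bool) => hN k (ν k) (hνN k) Y
  let Ys : ℕ → ((n : ℕ) → J n → Bool) := fun k =>
    Nat.rec dflt (fun k Y => Function.update Y (ν k) (g k Y)) k
  have hY0 : Ys 0 = dflt := rfl
  have hY1 : ∀ k, Ys (k + 1) = Function.update (Ys k) (ν k) (g k (Ys k)) := fun k => rfl
  have hstab : ∀ k m n : ℕ, k ≤ m → n < ν k → Ys m n = Ys k n := by
    intro k m n hkm hn
    induction m, hkm using Nat.le_induction with
    | base => rfl
    | succ m hkm ih =>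
      rw [hY1, Function.update_of_ne, ih]
      have := hνm.monotone hkm
      omega
  have hval : ∀ k n, YesI n (Ys k n) ∨ NoI n (Ys k n) := by
    intro k
    induction k with
    | zero => intro n; rw [hY0]; exact Or.inr (dflt_no n)
    | succ k ih =>
      intro n
      rw [hY1]
      rcases eq_or_ne n (ν k) with h | h
      · subst h
        rw [Function.update_self]
        rcases hg k (Ys k) with h | h
        · exact Or.inl h.1
        · exact Or.inr h.1
      · rw [Function.update_of_ne h]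
        exact ih n
  set Y : (n : ℕ) → J n → Bool := fun n => Ys (n + 1) n with hYdef
  have hYk : ∀ k n, n < ν (k + 1) → Y n = Ys (k + 1) n := by
    intro k n hn
    rcases le_total k n with h | h
    · exact hstab (k + 1) (n + 1) n (by omega) hn
    · refine (hstab (n + 1) (k + 1) n (by omega) ?_).symm
      have := hνm.id_le (n + 1)
      simp only [id] at this
      omega
  refine ⟨Y, fun n => hval (n + 1) n, fun e => ⟨ν e, ?_⟩⟩
  have hlen := E7len_eval c e (ν e)
  have h1 : PhiC c (orcY Y) (code c.R e (List.replicate (ν e) false)) =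
      ansE c (Ys e) (ν e) (code c.R e (List.replicate (ν e) false)) (g e (Ys e)) := by
    unfold ansE
    rw [← hY1]
    refine E7_agree c _ _ (code c.R e (List.replicate (ν e) false)).length (fun n hn => ?_) _ le_rfl
    apply hYk
    rw [hlen] at hn
    rw [hν1]
    omega
  have h2 : Y (ν e) = g e (Ys e) := by
    rw [hYk e (ν e) (hνlt e), hY1, Function.update_self]
  rw [h1, h2]
  rcases hg e (Ys e) with h | h
  · rw [h.2]
    intro hiff
    exact absurd (hiff.2 h.1) (by simp)
  · rw [h.2]
    intro hiff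
    exact E7_not_both h.1 (hiff.1 rfl)

end Pool.Agent.H543R2.EQ
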