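import Pool.Agent.H543R2.EQ.Defs

/-! Restricting a function to a part of the variables. -/

namespace Pool.Agent.H543R2.EQ

open Pool.Agent.NPC Pool.Agent.H620R2.Gauge Finset H568R2 Pool.Agent.H676

section K1

theorem dtr_sub {K H : Type*} [Fintype K] [DecidableEq K] [Fintype H] [DecidableEq H] {t : ℕ}
    {f : (K ⊕ H → Bool) → Bool} (h : DTr t f) (a : K → Bool) :
    DTr t (fun h : H → Bool => f (Sum.elim a h)) := by
  induction t generalizing f with
  | zero =>
    obtain ⟨c, hc⟩ := h
    exact ⟨c, fun x => hc _⟩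
  | succ t ih =>
    rcases h with ⟨c, hc⟩ | ⟨i, hi⟩
    · exact Or.inl ⟨c, fun x => hc _⟩
    · rcases i with k | j
      · have h1 := ih (hi (a k))
        have h2 : (fun h : H → Bool => f (Function.update (Sum.elim a h) (Sum.inl k) (a k))) =
            fun h => f (Sum.elim a h) := by
          funext h
          congr 1
          exact Function.update_eq_self (Sum.inl k) (Sum.elim a h)
        rw [h2] at h1
        exact h1.succ
      · refine Or.inr ⟨j, fun b => ?_⟩
        have h1 := ih (hi b)
        have h2 : (fun h : H → Bool => f (Function.update (Sum.elim a h) (Sum.inr j) b)) =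
            fun h => f (Sum.elim a (Function.update h j b)) := by
          funext h
          rw [Sum.update_elim_inr]
        rw [h2] at h1
        exact h1

theorem K1_Ex {K H : Type*} [Fintype K] [DecidableEq K] [Fintype H] [DecidableEq H] (q : ℝ)
    (F : Restr H → ℝ) :
    Ex (wq q) (fun ρ : Restr (K ⊕ H) => F (fun j => ρ (Sum.inr j))) = Ex (wq q) F := by
  unfold Ex
  rw [Fintype.sum_equiv (Equiv.sumArrowEquivProdArrow K H (Option Bool))
    (fun ω : K ⊕ H → Option Bool => (∏ i, wq q (ω i)) * F (fun j => ω (Sum.inr j)))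
    (fun x => ((∏ i, wq q (x.1 i)) * ∏ i, wq q (x.2 i)) * F x.2) ?_]
  · rw [Fintype.sum_prod_type_right]
    apply Finset.sum_congr rfl
    intro y _
    have h1 : ∑ x : K → Option Bool, ((∏ i, wq q (x i)) * ∏ i, wq q (y i)) * F y =
        (∑ x : K → Option Bool, (∏ i, wq q (x i)) * (1 : ℝ)) * ((∏ i, wq q (y i)) * F y) := by
      rw [Finset.sum_mul]
      apply Finset.sum_congr rfl
      intro x _
      ring
    rw [h1]
    have h2 : ∑ x : K → Option Bool, (∏ i, wq q (x i)) * (1 : ℝ) = 1 := Ex_const (wq_sum q) 1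
    rw [h2, one_mul]
  · intro ω
    rw [Fintype.prod_sum_type]
    rfl

theorem good_part {K H : Type*} [Fintype K] [DecidableEq K] [Fintype H] [DecidableEq H] {t : ℕ}
    {p η : ℝ} (hp1 : p ≤ 1) {f : (K ⊕ H → Bool) → Bool} (hG : GoodF t p η f) (a : K → Bool) :
    GoodF t p η (fun h : H → Bool => f (Sum.elim a h)) := by
  classical
  intro σ q hq hqp
  refine le_trans ?_ (hG (Sum.elim (fun k => some (a k)) σ) q hq hqp)
  unfold bad
  rw [← K1_Ex (K := K) q]
  apply Ex_mono (fun b => wq_nonneg hq.le (le_trans hqp hp1) b)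
  intro ρ
  have key : DTr t (rs (rs f (Sum.elim (fun k => some (a k)) σ)) ρ) →
      DTr t (rs (rs (fun h : H → Bool => f (Sum.elim a h)) σ) (fun j => ρ (Sum.inr j))) := by
    intro h
    have h1 := dtr_sub h a
    have h2 : (fun h : H → Bool => rs (rs f (Sum.elim (fun k => some (a k)) σ)) ρ (Sum.elim a h)) =
        rs (rs (fun h : H → Bool => f (Sum.elim a h)) σ) (fun j => ρ (Sum.inr j)) := by
      funext h
      simp only [rs]
      congr 1
      funext i
      rcases i with k | j
      · simp [ov]
      · simp [ov]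
    rw [h2] at h1
    exact h1
  by_cases h2 : DTr t (rs (rs f (Sum.elim (fun k => some (a k)) σ)) ρ)
  · rw [if_neg (not_not.2 (key h2)), if_neg (not_not.2 h2)]
  · rw [if_pos h2]
    split_ifs
    · exact zero_le_one
    · exact le_refl _

end K1

end Pool.Agent.H543R2.EQ
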