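import Pool.Agent.H543R2.EQ.Defs
import Pool.Agent.H620R2.Gauge.W
import Pool.Agent.H620R2.Gauge.Dt

/-! Task O1: algorithms of the polynomial hierarchy are good functions. -/

namespace Pool.Agent.H543R2.EQ

open Pool.Agent.NPC Pool.Agent.H620R2.Gauge Finset H568R2 Pool.Agent.H676

/-- a question reads at most one position of the instance -/
theorem strVal_one (n : ℕ) (q : List Bool) :
    ∃ i : J n, ∀ b : Bool, ∃ c : Bool, ∀ y : J n → Bool, strVal n (Function.update y i b) q = c := by
  have i0 : J n := Sum.inl (Sum.inl (fun _ => false, fun _ => false))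
  rcases q with _ | ⟨c, _ | ⟨e, l⟩⟩
  · exact ⟨i0, fun b => ⟨false, fun y => rfl⟩⟩
  · exact ⟨i0, fun b => ⟨false, fun y => rfl⟩⟩
  · cases c <;> cases e
    · exact ⟨Sum.inl (Sum.inl (fun i => l.getD i false, fun i => l.getD (n + i) false)),
        fun b => ⟨b, fun y => by simp [strVal]⟩⟩
    · exact ⟨Sum.inl (Sum.inr (fun i => l.getD i false, fun i => l.getD (n + i) false)),
        fun b => ⟨b, fun y => by simp [strVal]⟩⟩
    · exact ⟨Sum.inr ((fun i => l.getD i false, fun i => l.getD (n + i) false),
        fun i => l.getD (2 * n + i) false), fun b => ⟨b, fun y => by simp [strVal]⟩⟩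
    · exact ⟨i0, fun b => ⟨false, fun y => by simp [strVal]⟩⟩

theorem orcY_one (Y : (n : ℕ) → J n → Bool) (n : ℕ) (q : List Bool) :
    ∃ i : J n, ∀ b : Bool, ∃ c : Bool, ∀ y : J n → Bool,
      orcY (Function.update Y n (Function.update y i b)) q = c := by
  by_cases h3 : q.length % 3 = 2
  · by_cases hn : (q.length - 2) / 3 = n
    · subst hn
      obtain ⟨i, hi⟩ := strVal_one ((q.length - 2) / 3) q
      refine ⟨i, fun b => ?_⟩
      obtain ⟨c, hc⟩ := hi b
      refine ⟨c, fun y => ?_⟩
      simp only [orcY, h3, if_true, Function.update_self]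
      exact hc y
    · refine ⟨Sum.inl (Sum.inl (fun _ => false, fun _ => false)), fun b =>
        ⟨strVal ((q.length - 2) / 3) (Y ((q.length - 2) / 3)) q, fun y => ?_⟩⟩
      simp only [orcY, h3, if_true]
      rw [Function.update_of_ne hn]
  · exact ⟨Sum.inl (Sum.inl (fun _ => false, fun _ => false)), fun b =>
      ⟨false, fun y => by simp only [orcY, h3, if_false]⟩⟩

theorem dtr_runY (M : Alg) (Y : (n : ℕ) → J n → Bool) (n : ℕ) (x : List Bool) :
    ∀ (r : ℕ) (acc : List Bool),
    DTr r (fun y : J n → Bool =>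
      decide (M.run (orcY (Function.update Y n y)) x r acc = some [true])) := by
  intro r
  induction r with
  | zero =>
    intro acc
    exact ⟨false, fun a => by simp [Alg.run]⟩
  | succ r ih =>
    intro acc
    rcases hq : M.D (pairBits x acc) with _ | ⟨c, q⟩
    · exact DTr.const ⟨false, fun a => by simp [Alg.run, hq]⟩
    · cases c with
      | true => exact DTr.const ⟨decide (q = [true]), fun a => by simp [Alg.run, hq]⟩
      | false =>
        obtain ⟨i, hi⟩ := orcY_one Y n q
        refine Or.inr ⟨i, fun b => ?_⟩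
        obtain ⟨c, hc⟩ := hi b
        have h1 := DTr_update (ih (acc ++ [c])) i b
        have h2 : (fun y : J n → Bool => decide (M.run (orcY (Function.update Y n
            (Function.update y i b))) x (r + 1) acc = some [true])) =
            fun y => decide (M.run (orcY (Function.update Y n
            (Function.update y i b))) x r (acc ++ [c]) = some [true]) := by
          funext y
          simp only [Alg.run, hq, hc y]
        rw [h2]
        exact h1

theorem dtr_leafY (M : Alg) (Y : (n : ℕ) → J n → Bool) (n : ℕ) (s : List Bool) :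
    DTr (M.p.eval s.length) (leafY M Y n s) := dtr_runY M Y n s _ []

theorem qf_rs {I : Type*} (m : ℕ) (F : List Bool → (I → Bool) → Bool) (σ : Restr I) (k : ℕ)
    (b : Bool) (y : List Bool) :
    rs (QF m F k b y) σ = QF m (fun s => rs (F s) σ) k b y := by
  induction k generalizing b y with
  | zero => cases b <;> rfl
  | succ k ih =>
    cases b with
    | true =>
      funext x
      have h1 : ∀ w, QF m F k false (pairBits w y) (ov σ x) =
          QF m (fun s => rs (F s) σ) k false (pairBits w y) x := fun w =>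
        congrFun (ih false (pairBits w y)) x
      have h2 : (∃ w : List Bool, w.length ≤ m ∧ QF m F k false (pairBits w y) (ov σ x) = true) =
          (∃ w : List Bool, w.length ≤ m ∧
            QF m (fun s => rs (F s) σ) k false (pairBits w y) x = true) := by
        apply propext
        constructor
        · rintro ⟨w, hw, hx⟩
          exact ⟨w, hw, by rw [← h1]; exact hx⟩
        · rintro ⟨w, hw, hx⟩
          exact ⟨w, hw, by rw [h1]; exact hx⟩
      simp only [rs, QF]
      congr 1
    | false =>
      funext x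
      have h1 : ∀ w, QF m F k true (pairBits w y) (ov σ x) =
          QF m (fun s => rs (F s) σ) k true (pairBits w y) x := fun w =>
        congrFun (ih true (pairBits w y)) x
      have h2 : (∀ w : List Bool, w.length ≤ m → QF m F k true (pairBits w y) (ov σ x) = true) =
          (∀ w : List Bool, w.length ≤ m →
            QF m (fun s => rs (F s) σ) k true (pairBits w y) x = true) := by
        apply propext
        constructor
        · intro h w hw
          rw [← h1]; exact h w hw
        · intro h w hw
          rw [h1]; exact h w hw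
      simp only [rs, QF]
      congr 1

lemma o1_eval_mono (p : Polynomial ℕ) {a b : ℕ} (h : a ≤ b) : p.eval a ≤ p.eval b := by
  rw [Polynomial.eval_eq_sum_range, Polynomial.eval_eq_sum_range]
  exact Finset.sum_le_sum fun i _ => Nat.mul_le_mul_left _ (Nat.pow_le_pow_left h i)

lemma o1_poly_exp (R : Polynomial ℕ) (r : ℝ) (hr : 1 < r) :
    (fun n : ℕ => ((R.eval n : ℕ) : ℝ)) =o[Filter.atTop] fun n : ℕ => r ^ n := by
  induction R using Polynomial.induction_on' with
  | add p q hp hq =>
    simp only [Polynomial.eval_add, Nat.cast_add]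
    exact hp.add hq
  | monomial k a =>
    simp only [Polynomial.eval_monomial, Nat.cast_mul, Nat.cast_pow]
    exact (isLittleO_pow_const_const_pow_of_one_lt k hr).const_mul_left _

lemma o1_poly_le (R : Polynomial ℕ) : ∃ n₀ : ℕ, ∀ n ≥ n₀, ((R.eval n : ℕ) : ℝ) ≤ 2 ^ ((n : ℝ) / 8) := by
  have h1 : (1 : ℝ) < 2 ^ ((1 : ℝ) / 8) := Real.one_lt_rpow (by norm_num) (by norm_num)
  have h2 := (o1_poly_exp R _ h1).bound (show (0 : ℝ) < 1 by norm_num)
  obtain ⟨n₀, hn₀⟩ := Filter.eventually_atTop.1 h2
  refine ⟨n₀, fun n hn => ?_⟩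
  have h3 := hn₀ n hn
  rw [one_mul, Real.norm_of_nonneg (Nat.cast_nonneg _), Real.norm_of_nonneg (by positivity)] at h3
  refine h3.trans (le_of_eq ?_)
  rw [← Real.rpow_natCast, ← Real.rpow_mul (by norm_num)]
  congr 1
  ring

theorem ph_good (M : Alg) (P : Polynomial ℕ) (k : ℕ) : ∃ n₀ : ℕ, ∀ n ≥ n₀,
    ∃ (t : ℕ) (p : ℝ), 0 < p ∧ p ≤ 1 ∧ ((t : ℝ) + 1) / p ≤ 2 ^ ((n : ℝ) / 8) ∧
      ∀ Y : (n : ℕ) → J n → Bool, GoodF t p ((1 / 2) ^ (8 * n))
        (QF (P.eval n) (leafY M Y n) k true (List.replicate n false)) := by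
  classical
  let DD : Polynomial ℕ := Polynomial.X + Polynomial.C k * (2 * P + 1)
  let T : Polynomial ℕ := M.p.comp DD + DD + 8 * Polynomial.X + Polynomial.C (k + 3)
  obtain ⟨n₀, hn₀⟩ := o1_poly_le ((T + 1) * (24 * T) ^ k)
  refine ⟨n₀, fun n hn => ?_⟩
  set m := P.eval n with hm
  set D := n + k * (2 * m + 1) with hD
  have hDD : DD.eval n = D := by
    simp [DD, hD, hm]
  set t := T.eval n with ht
  have hT : t = M.p.eval D + D + 8 * n + (k + 3) := by
    simp [ht, T, hDD, Polynomial.eval_comp]
  have ht1 : 1 ≤ t := by omega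
  have htr : (1 : ℝ) ≤ t := by exact_mod_cast ht1
  have htpos : (0 : ℝ) < t := by linarith
  set q0 : ℝ := 1 / (24 * t) with hq0
  have hq0pos : 0 < q0 := by rw [hq0]; positivity
  have hq0le : q0 ≤ 1 / 3 := by
    rw [hq0]
    apply div_le_div_of_nonneg_left (by norm_num) (by norm_num)
    linarith
  refine ⟨t, q0 ^ k, pow_pos hq0pos k, pow_le_one₀ hq0pos.le (by linarith), ?_, ?_⟩
  · have h1 := hn₀ n hn
    refine le_trans (le_of_eq ?_) h1
    have h2 : (((T + 1) * (24 * T) ^ k).eval n : ℕ) = (t + 1) * (24 * t) ^ k := by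
      simp [ht]
    rw [h2, hq0]
    push_cast
    rw [div_pow, one_pow]
    field_simp
  · intro Y σ q hq hqp
    have hleaf : ∀ y : List Bool, y.length ≤ D → DTr t (rs (leafY M Y n y) σ) := by
      intro y hy
      refine DTr.mono (dtr_leafY M Y n y).rs ?_
      have := o1_eval_mono M.p hy
      omega
    rcases Nat.eq_zero_or_pos k with hk | hk
    · -- no quantifier
      unfold bad
      have hgood : ∀ ρ : Restr (J n),
          DTr t (rs (rs (QF m (leafY M Y n) k true (List.replicate n false)) σ) ρ) := by
        intro ρ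
        subst hk
        exact (hleaf (List.replicate n false) (by simp [hD])).rs
      have hfun : (fun ρ : Restr (J n) => if ¬ DTr t (rs (rs (QF m (leafY M Y n) k true
          (List.replicate n false)) σ) ρ) then (1 : ℝ) else 0) = fun _ => 0 := by
        funext ρ
        rw [if_neg (not_not.2 (hgood ρ))]
      rw [hfun]
      unfold Ex
      simp
    · set q1 : ℝ := q ^ ((1 : ℝ) / k) with hq1
      have hk' : (k : ℝ) ≠ 0 := by positivity
      have hq1k : q1 ^ k = q := by
        rw [hq1, ← Real.rpow_natCast, ← Real.rpow_mul hq.le, one_div, inv_mul_cancel₀ hk',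
          Real.rpow_one]
      have hq1pos : 0 ≤ q1 := Real.rpow_nonneg hq.le _
      have hq1le : q1 ≤ q0 := by
        rw [← hq1k] at hqp
        exact le_of_pow_le_pow_left₀ (by omega) hq0pos.le hqp
      have hsw := switch_alt (I := J n) ht1 hq1pos (hq1le.trans hq0le) m
        (fun s => rs (leafY M Y n s) σ) k n hleaf
      rw [hq1k] at hsw
      have hle : bad t q (rs (QF m (leafY M Y n) k true (List.replicate n false)) σ) ≤
          Ex (wq q) (fun ρ : Restr (J n) =>
            if ¬ ∀ y : List Bool, y.length ≤ n → ∀ b,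
              DTr t (rs (QF m (fun s => rs (leafY M Y n s) σ) k b y) ρ) then (1 : ℝ) else 0) := by
        unfold bad
        have hq1' : q ≤ 1 := by
          refine hqp.trans (pow_le_one₀ hq0pos.le (by linarith))
        refine Ex_mono (wq_nonneg hq.le hq1') ?_
        intro ρ
        by_cases hG : ∀ y : List Bool, y.length ≤ n → ∀ b,
              DTr t (rs (QF m (fun s => rs (leafY M Y n s) σ) k b y) ρ)
        · have h1 := hG (List.replicate n false) (by simp) true
          rw [← qf_rs] at h1
          rw [if_neg (not_not.2 h1), if_neg (not_not.2 hG)]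
        · rw [if_pos hG]
          split_ifs <;> norm_num
      refine hle.trans (hsw.trans ?_)
      have h2 : 12 * (t : ℝ) * q1 ≤ 1 / 2 := by
        calc 12 * (t : ℝ) * q1 ≤ 12 * t * q0 := by gcongr
          _ = 1 / 2 := by rw [hq0]; field_simp; norm_num
      have h3 : (12 * (t : ℝ) * q1) ^ (t + 1) ≤ (1 / 2) ^ (t + 1) :=
        pow_le_pow_left₀ (by positivity) h2 _
      have h4 : (k : ℝ) ≤ 2 ^ k := by exact_mod_cast Nat.lt_two_pow_self.le
      calc (k : ℝ) * 2 ^ (n + k * (2 * m + 1) + 2) * (12 * t * q1) ^ (t + 1)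
          ≤ 2 ^ k * 2 ^ (D + 2) * (1 / 2) ^ (t + 1) := by
            gcongr
        _ = 2 ^ (k + (D + 2)) * (1 / 2) ^ (t + 1) := by rw [← pow_add]
        _ ≤ 2 ^ (k + (D + 2)) * (1 / 2) ^ ((k + (D + 2)) + 8 * n) := by
            apply mul_le_mul_of_nonneg_left _ (by positivity)
            apply pow_le_pow_of_le_one (by norm_num) (by norm_num)
            omega
        _ = (1 / 2) ^ (8 * n) := by
            rw [pow_add (1 / 2 : ℝ) (k + (D + 2)), ← mul_assoc, ← mul_pow]
            norm_num

end Pool.Agent.H543R2.EQ
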