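import Pool.Agent.H543R2.EQ.Defs
import Pool.Agent.H620R2.Gauge.A1

/-!
# Diagonalisation against the polynomial hierarchy (task O2, with the other tasks as hypotheses)
-/

namespace Pool.Agent.H543R2.EQ

open Pool.Agent.NPC Pool.Agent.H620R2.Gauge Finset H568R2 Pool.Agent.H676

namespace O2

/-- families of instances -/
abbrev Fam : Type := (n : ℕ) → J n → Bool

theorem len_pairBits (x a : List Bool) :
    (pairBits x a).length = 2 * x.length + a.length + 1 := by
  have h : (x.flatMap (fun b => [true, b])).length = 2 * x.length := by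
    induction x with
    | nil => rfl
    | cons b x ih => simp at ih ⊢; omega
  unfold pairBits
  rw [List.length_append, h, List.length_cons]
  omega

theorem quant_iff {I : Type*} {m : ℕ} {F : List Bool → (I → Bool) → Bool}
    {V : List Bool → List Bool} (a : I → Bool) (ℓ : ℕ)
    (hV : ∀ y : List Bool, y.length ≤ ℓ → (V y = [true] ↔ F y a = true)) :
    ∀ (k : ℕ) (b : Bool) (y : List Bool), y.length + k * (2 * m + 1) ≤ ℓ →
      (Quant m V k b y ↔ QF m F k b y a = true) := by
  intro k
  induction k with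
  | zero =>
    intro b y hy
    simp only [Quant, QF]
    exact hV y (by omega)
  | succ k ih =>
    intro b y hy
    have hlen : ∀ w : List Bool, w.length ≤ m → (pairBits w y).length + k * (2 * m + 1) ≤ ℓ := by
      intro w hw
      rw [len_pairBits]
      have : (k + 1) * (2 * m + 1) = k * (2 * m + 1) + (2 * m + 1) := by ring
      omega
    cases b with
    | true =>
      simp only [Quant, QF, decide_eq_true_eq]
      exact exists_congr fun w => and_congr_right fun hw => ih false _ (hlen w hw)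
    | false =>
      simp only [Quant, QF, decide_eq_true_eq]
      exact forall_congr' fun w => forall_congr' fun hw => ih true _ (hlen w hw)

theorem orcY_congr {Y Y' : Fam} {m : ℕ} (h : ∀ j ≤ m, Y j = Y' j) (s : List Bool)
    (hs : s.length ≤ m) : orcY Y s = orcY Y' s := by
  unfold orcY
  split_ifs with h1
  · rw [h _ (by omega)]
  · rfl

theorem out_loc (M : Alg) : ∃ qb : Polynomial ℕ, ∀ (A A' : Oracle) (x : List Bool),
    (∀ q : List Bool, q.length ≤ qb.eval x.length → A' q = A q) → M.out A' x = M.out A x := by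
  obtain ⟨qb, hqb⟩ := M.out_local
  refine ⟨qb, fun A A' x h => ?_⟩
  obtain ⟨Q, -, hQ, hA⟩ := hqb A x
  exact hA A' fun q hq => h q (hQ q hq)

theorem yes_no {n : ℕ} {y : J n → Bool} (h1 : YesI n y) (h2 : NoI n y) : False := by
  unfold YesI at h1
  unfold NoI at h2
  rw [h2] at h1
  norm_num at h1

theorem countable_theta : Countable (Alg × Polynomial ℕ × ℕ) := by
  have h2 : Countable (Polynomial ℕ) := by
    have : Function.Injective (fun p : Polynomial ℕ => (p.toFinsupp.coeff : ℕ →₀ ℕ)) := by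
      intro p q h
      ext n
      exact DFunLike.congr_fun h n
    exact this.countable
  infer_instance

/-- `y` shows that the parameters are wrong -/
def Wrong (θ : Alg × Polynomial ℕ × ℕ) (n : ℕ) (Y : Fam) (y : J n → Bool) : Prop :=
  (YesI n y ∧ QF (θ.2.1.eval n) (leafY θ.1 Y n) θ.2.2 true (List.replicate n false) y = false) ∨
  (NoI n y ∧ QF (θ.2.1.eval n) (leafY θ.1 Y n) θ.2.2 true (List.replicate n false) y = true)

theorem family (hd : ∀ n, NoI n (dflt n))
    (H : ∀ θ : Alg × Polynomial ℕ × ℕ, ∃ N : ℕ, ∀ n ≥ N, ∀ Y : Fam, ∃ y, Wrong θ n Y y) :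
    ∃ Y : Fam, (∀ n, YesI n (Y n) ∨ NoI n (Y n)) ∧ ¬ IsPH (orcY Y) (langY Y) := by
  rcases isEmpty_or_nonempty (Alg × Polynomial ℕ × ℕ) with hE | hE
  · refine ⟨dflt, fun n => Or.inr (hd n), ?_⟩
    rintro ⟨V, p, k, ⟨M, -⟩, -⟩
    exact hE.false (M, p, k)
  haveI := countable_theta
  obtain ⟨e, he⟩ := exists_surjective_nat (Alg × Polynomial ℕ × ℕ)
  choose N hN using H
  choose qb hqb using out_loc
  -- the length of the questions
  set L : (Alg × Polynomial ℕ × ℕ) → ℕ → ℕ := fun θ n =>
    (qb θ.1).eval (n + θ.2.2 * (2 * θ.2.1.eval n + 1)) with hL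
  -- the sizes
  obtain ⟨nn, hnn0, hnn⟩ : ∃ nn : ℕ → ℕ, nn 0 = N (e 0) ∧ ∀ s, nn (s + 1) =
      max (N (e (s + 1))) (max (nn s) (L (e s) (nn s)) + 1) :=
    ⟨fun s => Nat.rec (N (e 0)) (fun s r => max (N (e (s + 1))) (max r (L (e s) r) + 1)) s,
      rfl, fun s => rfl⟩
  have hge : ∀ s, N (e s) ≤ nn s := by
    intro s
    rcases s with _ | s
    · exact hnn0.ge
    · rw [hnn]; exact le_max_left _ _
  have hlt : ∀ s, nn s < nn (s + 1) := by
    intro s
    rw [hnn]
    exact lt_of_lt_of_le (Nat.lt_succ_of_le (le_max_left _ _)) (le_max_right _ _)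
  have hLt : ∀ s, L (e s) (nn s) < nn (s + 1) := by
    intro s
    rw [hnn]
    exact lt_of_lt_of_le (Nat.lt_succ_of_le (le_max_right _ _)) (le_max_right _ _)
  have hmono : StrictMono nn := strictMono_nat_of_lt_succ hlt
  have hid : ∀ s, s ≤ nn s := fun s => hmono.id_le s
  -- the families
  choose ch hch using fun s (Y : Fam) => hN (e s) (nn s) (hge s) Y
  obtain ⟨Z, hZ0, hZ⟩ : ∃ Z : ℕ → Fam, Z 0 = dflt ∧ ∀ s, Z (s + 1) =
      Function.update (Z s) (nn s) (ch s (Z s)) :=
    ⟨fun s => Nat.rec (motive := fun _ => Fam) dflt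
      (fun s r => Function.update r (nn s) (ch s r)) s, rfl, fun s => rfl⟩
  have hZstep : ∀ s j, j ≠ nn s → Z (s + 1) j = Z s j := by
    intro s j hj
    rw [hZ s, Function.update_of_ne hj]
  have hZt : ∀ s t j, s ≤ t → j < nn s → Z t j = Z s j := by
    intro s t j hst hj
    induction t, hst using Nat.le_induction with
    | base => rfl
    | succ t hst ih =>
      rw [hZstep t j (by have := hmono.monotone hst; omega), ih]
  have hZval : ∀ s n, YesI n (Z s n) ∨ NoI n (Z s n) := by
    intro s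
    induction s with
    | zero => intro n; rw [hZ0]; exact Or.inr (hd n)
    | succ s ih =>
      intro n
      by_cases hn : n = nn s
      · subst hn
        rw [hZ s, Function.update_self]
        rcases hch s (Z s) with h | h
        · exact Or.inl h.1
        · exact Or.inr h.1
      · rw [hZstep s n hn]; exact ih n
  set Y : Fam := fun j => Z (j + 1) j with hY
  have hYZ : ∀ s j, j < nn s → Y j = Z s j := by
    intro s j hj
    have h1 : Z (max s (j + 1)) j = Z s j := hZt s _ j (le_max_left _ _) hj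
    have h2 : Z (max s (j + 1)) j = Z (j + 1) j :=
      hZt (j + 1) _ j (le_max_right _ _) (by have := hid (j + 1); omega)
    rw [hY, ← h1, h2]
  refine ⟨Y, fun n => hZval (n + 1) n, ?_⟩
  rintro ⟨V, p, k, ⟨M, hM⟩, hV⟩
  obtain ⟨s, hs⟩ := he (M, p, k)
  have hw := hch s (Z s)
  have hZs : Z (s + 1) (nn s) = ch s (Z s) := by rw [hZ s, Function.update_self]
  have hYn : Y (nn s) = ch s (Z s) := by rw [hYZ (s + 1) (nn s) (hlt s), hZs]
  -- the values of the leaves
  have hleaf : ∀ x : List Bool, x.length ≤ nn s + k * (2 * p.eval (nn s) + 1) →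
      (V x = [true] ↔ leafY M (Z s) (nn s) x (ch s (Z s)) = true) := by
    intro x hx
    unfold leafY
    rw [decide_eq_true_eq, ← hZ s]
    have h1 : M.out (orcY (Z (s + 1))) x = M.out (orcY Y) x := by
      refine hqb M (orcY Y) (orcY (Z (s + 1))) x fun q hq => ?_
      refine orcY_congr (m := nn (s + 1) - 1) (fun j hj => (hYZ (s + 1) j ?_).symm) q ?_
      · have := hlt s; omega
      · have h2 := hLt s
        rw [hs] at h2
        have h3 : (qb M).eval x.length ≤ L (M, p, k) (nn s) := by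
          rw [hL]
          exact eval_mono _ hx
        omega
    rw [h1, hM x, Option.some_inj]
  have hq := quant_iff (m := p.eval (nn s)) (ch s (Z s)) _ hleaf k true
    (List.replicate (nn s) false) (by rw [List.length_replicate])
  have hlen : ∀ m, m = nn s → (YesI m (Y m) ↔ YesI (nn s) (Y (nn s))) := by
    rintro m rfl; rfl
  have hx := hV (List.replicate (nn s) false)
  have hx' : (YesI (nn s) (ch s (Z s)) ↔
      QF (p.eval (nn s)) (leafY M (Z s) (nn s)) k true (List.replicate (nn s) false)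
        (ch s (Z s)) = true) := by
    rw [← hq, ← hYn, ← hlen _ (List.length_replicate (n := nn s) (a := false))]
    have h5 : (List.replicate (nn s) false ∈ langY Y) ↔
      YesI (List.replicate (nn s) false).length (Y (List.replicate (nn s) false).length) := Iff.rfl
    rw [← h5, hx, List.length_replicate]
  unfold Wrong at hw
  rw [hs] at hw
  rcases hw with ⟨h1, h2⟩ | ⟨h1, h2⟩
  · have h3 := hx'.1 h1
    rw [h2] at h3
    exact absurd h3 (by simp)
  · exact yes_no (hx'.2 h2) h1

end O2

/-- task O2 with the other tasks as hypotheses -/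
theorem exists_family_of (hd : ∀ n, NoI n (dflt n))
    (core : ∃ n₀ : ℕ, ∀ n ≥ n₀, ∀ (f : (J n → Bool) → Bool) (t : ℕ) (p : ℝ),
      0 < p → p ≤ 1 → ((t : ℝ) + 1) / p ≤ 2 ^ ((n : ℝ) / 8) → GoodF t p ((1 / 2) ^ (8 * n)) f →
      ∃ y, (YesI n y ∧ f y = false) ∨ (NoI n y ∧ f y = true))
    (ph_good : ∀ (M : Alg) (P : Polynomial ℕ) (k : ℕ), ∃ n₀ : ℕ, ∀ n ≥ n₀,
      ∃ (t : ℕ) (p : ℝ), 0 < p ∧ p ≤ 1 ∧ ((t : ℝ) + 1) / p ≤ 2 ^ ((n : ℝ) / 8) ∧
        ∀ Y : (n : ℕ) → J n → Bool, GoodF t p ((1 / 2) ^ (8 * n))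
          (QF (P.eval n) (leafY M Y n) k true (List.replicate n false))) :
    ∃ Y : (n : ℕ) → J n → Bool,
      (∀ n, YesI n (Y n) ∨ NoI n (Y n)) ∧ ¬ IsPH (orcY Y) (langY Y) := by
  refine O2.family hd ?_
  rintro ⟨M, P, k⟩
  obtain ⟨n1, h1⟩ := core
  obtain ⟨n2, h2⟩ := ph_good M P k
  refine ⟨max n1 n2, fun n hn Y => ?_⟩
  obtain ⟨t, p, hp, hp1, htp, hG⟩ := h2 n (le_trans (le_max_right _ _) hn)
  exact h1 n (le_trans (le_max_left _ _) hn) _ t p hp hp1 htp (hG Y)

end Pool.Agent.H543R2.EQ
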