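import Pool.Agent.H543R2.EQ.Defs

/-!
# Task Q1: linear algebra of quantum circuits
-/

set_option autoImplicit false

namespace Pool.Agent.H543R2.EQ

open Pool.Agent.NPC Pool.Agent.H620R2.Gauge Finset H568R2 Pool.Agent.H676

namespace Q1aux

variable {m : ℕ}

theorem rd_update (s : Fin m → Bool) {k : ℕ} (h : k < m) (b : Bool) (i : ℕ) (hi : i ≠ k) :
    rd (Function.update s ⟨k, h⟩ b) i = rd s i := by
  unfold rd
  by_cases him : i < m
  · rw [dif_pos him, dif_pos him, Function.update_of_ne]
    intro e
    exact hi (congrArg Fin.val e)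
  · rw [dif_neg him, dif_neg him]

theorem flipIf_flipIf (c : (Fin m → Bool) → Bool) (k : ℕ) (s : Fin m → Bool) :
    flipIf c k (flipIf c k s) = s := by
  unfold flipIf
  by_cases h : k < m
  · simp only [dif_pos h, Function.update_self, Function.update_idem]
    have h1 : (s ⟨k, h⟩ ^^ c (Function.update s ⟨k, h⟩ false) ^^
        c (Function.update s ⟨k, h⟩ false)) = s ⟨k, h⟩ := by
      cases s ⟨k, h⟩ <;> cases c (Function.update s ⟨k, h⟩ false) <;> rfl
    rw [h1, Function.update_eq_self]
  · simp only [dif_neg h]

theorem rd_flipIf (c : (Fin m → Bool) → Bool) (k : ℕ) (s : Fin m → Bool) (i : ℕ) (hi : i ≠ k) :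
    rd (flipIf c k s) i = rd s i := by
  unfold flipIf
  by_cases h : k < m
  · rw [dif_pos h, rd_update _ _ _ _ hi]
  · rw [dif_neg h]

/-- the condition of a gate -/
def cond (A : Oracle) (o : Bool) (q : List ℕ) (s : Fin m → Bool) : Bool :=
  if o then A (q.map (rd s)) else q.all (rd s)

theorem gateAct_inr (A : Oracle) (o : Bool) (q : List ℕ) (k : ℕ) (ψ : (Fin m → Bool) → ℝ)
    (s : Fin m → Bool) :
    gateAct A (Sum.inr (o, q, k)) ψ s = ψ (flipIf (cond A o q) k s) := by
  cases o <;> rfl

theorem gateAct_inl (A : Oracle) {i : ℕ} (h : i < m) (ψ : (Fin m → Bool) → ℝ)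
    (s : Fin m → Bool) :
    gateAct A (Sum.inl i) ψ s = (ψ (Function.update s ⟨i, h⟩ false) +
          (if s ⟨i, h⟩ then -1 else 1) * ψ (Function.update s ⟨i, h⟩ true)) / Real.sqrt 2 := by
  show (if h : i < m then _ else _) = _
  rw [dif_pos h]

theorem gateAct_inl' (A : Oracle) {i : ℕ} (h : ¬ i < m) (ψ : (Fin m → Bool) → ℝ)
    (s : Fin m → Bool) :
    gateAct A (Sum.inl i) ψ s = ψ s := by
  show (if h : i < m then _ else _) = _
  rw [dif_neg h]

theorem sqrt2 : Real.sqrt 2 * Real.sqrt 2 = 2 := Real.mul_self_sqrt (by norm_num)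

theorem sqrt2_ne : Real.sqrt 2 ≠ 0 := by positivity

theorem gateAct_gateAct (A : Oracle) (g : Gate) (ψ : (Fin m → Bool) → ℝ) :
    gateAct A g (gateAct A g ψ) = ψ := by
  funext s
  rcases g with i | ⟨o, q, k⟩
  · by_cases h : i < m
    · rw [gateAct_inl A h, gateAct_inl A h, gateAct_inl A h]
      simp only [Function.update_self, Function.update_idem]
      have h2 := sqrt2
      have h3 := sqrt2_ne
      have h4 : s = Function.update s ⟨i, h⟩ (s ⟨i, h⟩) := (Function.update_eq_self _ _).symm
      cases hs : s ⟨i, h⟩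
      · rw [hs] at h4
        simp only [Bool.false_eq_true, if_false, if_true]
        rw [← h4]
        field_simp
        linear_combination (-ψ s) * h2
      · rw [hs] at h4
        simp only [Bool.false_eq_true, if_false, if_true]
        rw [← h4]
        field_simp
        linear_combination (-ψ s) * h2
    · rw [gateAct_inl' A h, gateAct_inl' A h]
  · rw [gateAct_inr, gateAct_inr, flipIf_flipIf]

theorem gateAct_lin (A : Oracle) (g : Gate) (a b : ℝ) (φ ψ : (Fin m → Bool) → ℝ) :
    gateAct A g (fun s => a * φ s + b * ψ s) =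
      fun s => a * gateAct A g φ s + b * gateAct A g ψ s := by
  funext s
  rcases g with i | ⟨o, q, k⟩
  · by_cases h : i < m
    · rw [gateAct_inl A h, gateAct_inl A h, gateAct_inl A h]
      ring
    · rw [gateAct_inl' A h, gateAct_inl' A h, gateAct_inl' A h]
  · rw [gateAct_inr, gateAct_inr, gateAct_inr]

theorem sum_flip (i : Fin m) (f : (Fin m → Bool) → ℝ) :
    ∑ s, f (Function.update s i (!s i)) = ∑ s, f s := by
  apply Finset.sum_nbij' (fun s => Function.update s i (!s i)) (fun s => Function.update s i (!s i))
  · simp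
  · simp
  · intro s _
    simp
  · intro s _
    simp
  · intro s _
    rfl

theorem sum_two (i : Fin m) (f : (Fin m → Bool) → ℝ) :
    ∑ s, (f (Function.update s i false) + f (Function.update s i true)) = 2 * ∑ s, f s := by
  have h : ∀ s : Fin m → Bool, f (Function.update s i false) + f (Function.update s i true) =
      f s + f (Function.update s i (!s i)) := by
    intro s
    have h4 : Function.update s i (s i) = s := Function.update_eq_self _ _
    cases hs : s i
    · rw [hs] at h4
      rw [h4]
      rfl
    · rw [hs] at h4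
      rw [h4, add_comm]
      rfl
  rw [Finset.sum_congr rfl (fun s _ => h s), Finset.sum_add_distrib, sum_flip]
  ring

theorem sum_flipIf (c : (Fin m → Bool) → Bool) (k : ℕ) (f : (Fin m → Bool) → ℝ) :
    ∑ s, f (flipIf c k s) = ∑ s, f s := by
  apply Finset.sum_nbij' (fun s => flipIf c k s) (fun s => flipIf c k s)
  · simp
  · simp
  · intro s _
    exact flipIf_flipIf c k s
  · intro s _
    exact flipIf_flipIf c k s
  · intro s _
    rfl

theorem ip_gateAct (A : Oracle) (g : Gate) (φ ψ : (Fin m → Bool) → ℝ) :
    ip (gateAct A g φ) ψ = ip φ (gateAct A g ψ) := by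
  rcases g with i | ⟨o, q, k⟩
  · by_cases h : i < m
    · have h3 : (2 : ℝ) ≠ 0 := by norm_num
      apply mul_left_cancel₀ h3
      unfold ip
      rw [← sum_two ⟨i, h⟩, ← sum_two ⟨i, h⟩]
      apply Finset.sum_congr rfl
      intro s _
      simp only [gateAct_inl A h, Function.update_self, Function.update_idem]
      simp only [Bool.false_eq_true, if_false, if_true]
      ring
    · unfold ip
      simp only [gateAct_inl' A h]
  · unfold ip
    simp only [gateAct_inr]
    rw [← sum_flipIf (cond A o q) k]
    apply Finset.sum_congr rfl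
    intro s _
    rw [flipIf_flipIf]

theorem cond_update (A : Oracle) (o : Bool) {q : List ℕ} (s : Fin m → Bool) {k : ℕ} (h : k < m)
    (b : Bool) (hk : k ∉ q) : cond A o q (Function.update s ⟨k, h⟩ b) = cond A o q s := by
  have h1 : q.map (rd (Function.update s ⟨k, h⟩ b)) = q.map (rd s) := by
    apply List.map_congr_left
    intro i hi
    apply rd_update
    intro e
    exact hk (e ▸ hi)
  have h2 : q.all (rd (Function.update s ⟨k, h⟩ b)) = q.all (rd s) := by
    have e1 : ∀ t : Fin m → Bool, q.all (rd t) = (q.map (rd t)).all id := by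
      intro t
      simp [List.all_map]
    rw [e1, e1, h1]
  unfold cond
  rw [h1, h2]

/-- flipping the qubit `i` -/
def fl (i : ℕ) (s : Fin m → Bool) : Fin m → Bool :=
  if h : i < m then Function.update s ⟨i, h⟩ (!s ⟨i, h⟩) else s

theorem flipIf_nil (A : Oracle) (i : ℕ) (s : Fin m → Bool) :
    flipIf (cond A false []) i s = fl i s := by
  unfold flipIf fl cond
  by_cases h : i < m
  · rw [dif_pos h, dif_pos h]
    simp
  · rw [dif_neg h, dif_neg h]

theorem gateAct_Xg (A : Oracle) (i : ℕ) (ψ : (Fin m → Bool) → ℝ) (s : Fin m → Bool) :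
    gateAct A (Xg i) ψ s = ψ (fl i s) := by
  unfold Xg
  rw [gateAct_inr, flipIf_nil]

theorem gateAct_X_comm (A : Oracle) {g : Gate} {i : ℕ} (hi : i ∉ gq g)
    (ψ : (Fin m → Bool) → ℝ) :
    gateAct A g (gateAct A (Xg i) ψ) = gateAct A (Xg i) (gateAct A g ψ) := by
  funext s
  by_cases him : i < m
  swap
  · have hf : ∀ s : Fin m → Bool, fl i s = s := fun s => by unfold fl; rw [dif_neg him]
    have : gateAct A (Xg i) ψ = ψ := by
      funext t
      rw [gateAct_Xg, hf]
    rw [this, gateAct_Xg, hf]
  have hf : ∀ s : Fin m → Bool, fl i s = Function.update s ⟨i, him⟩ (!s ⟨i, him⟩) := fun s => by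
    unfold fl; rw [dif_pos him]
  rcases g with j | ⟨o, q, k⟩
  · have hij : i ≠ j := fun e => hi (by simp [gq, e])
    by_cases h : j < m
    · have hne : (⟨j, h⟩ : Fin m) ≠ ⟨i, him⟩ := fun e => hij (congrArg Fin.val e).symm
      rw [gateAct_inl A h, gateAct_Xg, gateAct_Xg, gateAct_Xg, gateAct_inl A h]
      simp only [hf, Function.update_of_ne hne, Function.update_of_ne hne.symm,
        Function.update_comm hne]
    · rw [gateAct_inl' A h, gateAct_Xg, gateAct_Xg, gateAct_inl' A h]
  · have hik : i ≠ k := fun e => hi (by simp [gq, e])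
    have hiq : i ∉ q := fun e => hi (by simp [gq, e])
    rw [gateAct_inr, gateAct_Xg, gateAct_Xg, gateAct_inr]
    congr 1
    rw [hf, hf]
    unfold flipIf
    by_cases h : k < m
    · have hne : (⟨k, h⟩ : Fin m) ≠ ⟨i, him⟩ := fun e => hik (congrArg Fin.val e).symm
      rw [dif_pos h, dif_pos h, Function.update_of_ne hne.symm, Function.update_of_ne hne,
        Function.update_comm hne.symm, Function.update_comm hne.symm]
      rw [cond_update A o _ him _ hiq]
    · rw [dif_neg h, dif_neg h]

theorem gateAct_supp (A : Oracle) {g : Gate} {i : ℕ} (hi : i ∉ gq g) {b : Bool}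
    {ψ : (Fin m → Bool) → ℝ} (h : ∀ s, ψ s ≠ 0 → rd s i = b) :
    ∀ s, gateAct A g ψ s ≠ 0 → rd s i = b := by
  intro s hs
  rcases g with j | ⟨o, q, k⟩
  · have hij : i ≠ j := fun e => hi (by simp [gq, e])
    by_cases hj : j < m
    · rw [gateAct_inl A hj] at hs
      by_contra hne
      have h0 : ∀ c, ψ (Function.update s ⟨j, hj⟩ c) = 0 := by
        intro c
        by_contra h1
        apply hne
        rw [← rd_update s hj c i hij]
        exact h _ h1
      rw [h0, h0] at hs
      simp at hs
    · rw [gateAct_inl' A hj] at hs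
      exact h s hs
  · have hik : i ≠ k := fun e => hi (by simp [gq, e])
    rw [gateAct_inr] at hs
    rw [← rd_flipIf (cond A o q) k s i hik]
    exact h _ hs

end Q1aux

open Q1aux

section Quantum

variable (A : Oracle) {m : ℕ}

theorem circAct_append (C D : List Gate) (ψ : (Fin m → Bool) → ℝ) :
    circAct A (C ++ D) ψ = circAct A D (circAct A C ψ) := by
  induction C generalizing ψ with
  | nil => rfl
  | cons g l ih => exact ih _

theorem circAct_lin (C : List Gate) (a b : ℝ) (φ ψ : (Fin m → Bool) → ℝ) :
    circAct A C (fun s => a * φ s + b * ψ s) =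
      fun s => a * circAct A C φ s + b * circAct A C ψ s := by
  induction C generalizing φ ψ with
  | nil => rfl
  | cons g l ih =>
    show circAct A l (gateAct A g _) = _
    rw [gateAct_lin, ih]
    rfl

theorem circAct_sum {ι : Type*} (F : Finset ι) (C : List Gate)
    (ψ : ι → (Fin m → Bool) → ℝ) :
    circAct A C (fun s => ∑ i ∈ F, ψ i s) = fun s => ∑ i ∈ F, circAct A C (ψ i) s := by
  classical
  induction F using Finset.induction_on with
  | empty =>
    simp only [Finset.sum_empty]
    have h := circAct_lin A C 0 0 (fun _ : Fin m → Bool => (0 : ℝ)) (fun _ => 0)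
    simpa using h
  | insert a F ha ih =>
    simp only [Finset.sum_insert ha]
    have h := circAct_lin A C 1 1 (ψ a) (fun s => ∑ i ∈ F, ψ i s)
    simp only [one_mul] at h
    rw [h, ih]

theorem ip_circAct (C : List Gate) (φ ψ : (Fin m → Bool) → ℝ) :
    ip (circAct A C φ) ψ = ip φ (circAct A C.reverse ψ) := by
  induction C generalizing φ with
  | nil => rfl
  | cons g l ih =>
    show ip (circAct A l (gateAct A g φ)) ψ = _
    rw [ih, ip_gateAct, List.reverse_cons, circAct_append]
    rfl

theorem circAct_cancel (C : List Gate) (ψ : (Fin m → Bool) → ℝ) :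
    circAct A C.reverse (circAct A C ψ) = ψ := by
  induction C generalizing ψ with
  | nil => rfl
  | cons g l ih =>
    rw [List.reverse_cons, circAct_append]
    show gateAct A g (circAct A l.reverse (circAct A l (gateAct A g ψ))) = ψ
    rw [ih, gateAct_gateAct]

theorem circAct_cancel' (C : List Gate) (ψ : (Fin m → Bool) → ℝ) :
    circAct A C (circAct A C.reverse ψ) = ψ := by
  have h := circAct_cancel A C.reverse ψ
  rwa [List.reverse_reverse] at h

theorem circAct_X_comm {C : List Gate} {i : ℕ} (hi : ∀ g ∈ C, i ∉ gq g)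
    (ψ : (Fin m → Bool) → ℝ) :
    circAct A C (gateAct A (Xg i) ψ) = gateAct A (Xg i) (circAct A C ψ) := by
  induction C generalizing ψ with
  | nil => rfl
  | cons g l ih =>
    show circAct A l (gateAct A g (gateAct A (Xg i) ψ)) =
      gateAct A (Xg i) (circAct A l (gateAct A g ψ))
    rw [gateAct_X_comm A (hi g List.mem_cons_self), ih (fun g' hg' => hi g' (List.mem_cons_of_mem _ hg'))]

theorem circAct_supp {C : List Gate} {i : ℕ} (hi : ∀ g ∈ C, i ∉ gq g) {b : Bool}
    {ψ : (Fin m → Bool) → ℝ} (h : ∀ s, ψ s ≠ 0 → rd s i = b) :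
    ∀ s, circAct A C ψ s ≠ 0 → rd s i = b := by
  induction C generalizing ψ with
  | nil => exact h
  | cons g l ih =>
    exact ih (fun g' hg' => hi g' (List.mem_cons_of_mem _ hg'))
      (gateAct_supp A (hi g List.mem_cons_self) h)

theorem gateAct_X {k : ℕ} (hk : k < m) (ψ : (Fin m → Bool) → ℝ) (s : Fin m → Bool) :
    gateAct A (Xg k) ψ s = ψ (Function.update s ⟨k, hk⟩ (!s ⟨k, hk⟩)) := by
  rw [gateAct_Xg]
  unfold fl
  rw [dif_pos hk]

/-- Hadamard gates on distinct qubits, applied to the zero state -/
theorem had_init {l : List ℕ} (hl : l.Nodup) (hm : ∀ i ∈ l, i < m) (s : Fin m → Bool) :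
    circAct A (l.map Hg) (initSt m) s =
      if (∀ i : Fin m, (i : ℕ) ∉ l → s i = false) then 1 / Real.sqrt 2 ^ l.length else 0 := by
  induction l using List.reverseRecOn generalizing s with
  | nil =>
    show initSt m s = _
    unfold initSt
    have h : (s = fun _ => false) ↔ ∀ i : Fin m, (i : ℕ) ∉ ([] : List ℕ) → s i = false := by
      constructor
      · intro h i _
        rw [h]
      · intro h
        funext i
        exact h i (by simp)
    by_cases h1 : s = fun _ => false
    · rw [if_pos h1, if_pos (h.1 h1)]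
      simp
    · rw [if_neg h1, if_neg (fun h2 => h1 (h.2 h2))]
  | append_singleton l a ih =>
    have hl' := List.nodup_append.1 hl
    have hal : a ∉ l := fun h => hl'.2.2 a h a (by simp) rfl
    have ham : a < m := hm a (by simp)
    have ih' := ih hl'.1 (fun i hi => hm i (by simp [hi]))
    rw [List.map_append, circAct_append]
    show gateAct A (Sum.inl a) (circAct A (l.map Hg) (initSt m)) s = _
    rw [gateAct_inl A ham, ih', ih']
    have h1 : ¬ ∀ i : Fin m, (i : ℕ) ∉ l → Function.update s ⟨a, ham⟩ true i = false := by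
      intro h
      have := h ⟨a, ham⟩ hal
      rw [Function.update_self] at this
      exact Bool.noConfusion this
    have h2 : (∀ i : Fin m, (i : ℕ) ∉ l → Function.update s ⟨a, ham⟩ false i = false) ↔
        ∀ i : Fin m, (i : ℕ) ∉ l ++ [a] → s i = false := by
      constructor
      · intro h i hi
        have hia : i ≠ ⟨a, ham⟩ := by
          intro e
          apply hi
          rw [e]
          simp
        have := h i (fun h' => hi (by simp [h']))
        rwa [Function.update_of_ne hia] at this
      · intro h i hi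
        by_cases hia : i = ⟨a, ham⟩
        · rw [hia, Function.update_self]
        · rw [Function.update_of_ne hia]
          apply h i
          intro h'
          rcases List.mem_append.1 h' with h' | h'
          · exact hi h'
          · apply hia
            apply Fin.ext
            simpa using h'
    rw [if_neg h1, mul_zero, add_zero]
    by_cases h3 : ∀ i : Fin m, (i : ℕ) ∉ l ++ [a] → s i = false
    · rw [if_pos (h2.2 h3), if_pos h3, List.length_append, List.length_singleton, pow_succ]
      rw [div_div]
    · rw [if_neg (fun h => h3 (h2.1 h)), if_neg h3, zero_div]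

end Quantum

end Pool.Agent.H543R2.EQ
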