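import Pool.Agent.H543R2.EQ.Defs

/-!
# Task Q2: phase gates
-/

namespace Pool.Agent.H543R2.EQ

open Pool.Agent.NPC Pool.Agent.H620R2.Gauge Finset H568R2 Pool.Agent.H676

section Quantum

variable (A : Oracle) {m : ℕ}

theorem q2_append (C D : List Gate) (ψ : (Fin m → Bool) → ℝ) :
    circAct A (C ++ D) ψ = circAct A D (circAct A C ψ) := by
  induction C generalizing ψ with
  | nil => rfl
  | cons g C ih => exact ih (gateAct A g ψ)

/-- the condition of a controlled gate -/
def q2cnd (o : Bool) (q : List ℕ) (s : Fin m → Bool) : Bool :=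
  if o then A (q.map (rd s)) else q.all (rd s)

theorem q2_F {k : ℕ} (hk : k < m) (o : Bool) (q : List ℕ) (ψ : (Fin m → Bool) → ℝ)
    (s : Fin m → Bool) :
    gateAct A (Sum.inr (o, q, k)) ψ s = ψ (Function.update s ⟨k, hk⟩
      (s ⟨k, hk⟩ ^^ q2cnd A o q (Function.update s ⟨k, hk⟩ false))) := by
  cases o <;> simp [gateAct, flipIf, hk, q2cnd]

theorem q2_X {k : ℕ} (hk : k < m) (ψ : (Fin m → Bool) → ℝ) (s : Fin m → Bool) :
    gateAct A (Xg k) ψ s = ψ (Function.update s ⟨k, hk⟩ (!s ⟨k, hk⟩)) := by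
  rw [Xg, q2_F A hk]
  simp [q2cnd]

theorem q2_H {k : ℕ} (hk : k < m) (ψ : (Fin m → Bool) → ℝ) (s : Fin m → Bool) :
    gateAct A (Hg k) ψ s = (ψ (Function.update s ⟨k, hk⟩ false) +
      (if s ⟨k, hk⟩ then -1 else 1) * ψ (Function.update s ⟨k, hk⟩ true)) / Real.sqrt 2 := by
  simp [gateAct, Hg, hk]

theorem q2_rd {s : Fin m → Bool} {i : ℕ} (hi : i < m) : rd s i = s ⟨i, hi⟩ := by
  simp [rd, hi]

theorem q2_rd_update {s : Fin m → Bool} {i k : ℕ} (hk : k < m) (h : i ≠ k) (b : Bool) :
    rd (Function.update s ⟨k, hk⟩ b) i = rd s i := by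
  unfold rd
  split_ifs with hi
  · rw [Function.update_of_ne]
    intro he
    exact h (congrArg Fin.val he)
  · rfl

theorem ph_act (o : Bool) {q : List ℕ} (hq : 1 ∉ q) (hm : 1 < m) {ψ : (Fin m → Bool) → ℝ}
    (hψ : ∀ s, ψ s ≠ 0 → rd s 1 = false) (s : Fin m → Bool) :
    circAct A (ph o q) ψ s =
      (if (if o then A (q.map (rd s)) else q.all (rd s)) then -1 else 1) * ψ s := by
  have h1 : ∀ s : Fin m → Bool, s ⟨1, hm⟩ = true → ψ s = 0 := by
    intro s hs
    by_contra hne
    have := hψ s hne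
    rw [q2_rd hm, hs] at this
    exact Bool.noConfusion this
  have h2 : Real.sqrt 2 * Real.sqrt 2 = 2 := Real.mul_self_sqrt (by norm_num)
  have h2' : Real.sqrt 2 ^ 2 = 2 := by rw [sq, h2]
  have h3 : Real.sqrt 2 ≠ 0 := by positivity
  have hz : ψ (Function.update s ⟨1, hm⟩ true) = 0 := h1 _ (by simp)
  simp only [ph, circAct]
  rw [q2_X A hm, q2_H A hm]
  simp only [Function.update_idem, Function.update_self]
  simp only [q2_F A hm, Function.update_idem, Function.update_self]
  simp only [q2_H A hm, Function.update_idem, Function.update_self]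
  simp only [q2_X A hm, Function.update_idem, Function.update_self]
  simp only [Bool.not_false, Bool.not_true, hz, Bool.false_xor, Bool.true_xor]
  cases hs : s ⟨1, hm⟩ with
  | false =>
    have hs0 : Function.update s ⟨1, hm⟩ false = s := by
      rw [← hs, Function.update_eq_self]
    rw [hs0]
    have hc : (if o then A (q.map (rd s)) else q.all (rd s)) = q2cnd A o q s := rfl
    rw [hc]
    cases q2cnd A o q s
    · simp only [Bool.not_false, Bool.false_eq_true, if_true, if_false]
      field_simp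
      rw [h2']
      ring
    · simp only [Bool.not_true, Bool.not_false, Bool.false_eq_true, if_true, if_false]
      field_simp
      rw [h2']
      ring
  | true =>
    have hs1 : ψ s = 0 := h1 s hs
    rw [hs1, mul_zero]
    cases q2cnd A o q (Function.update s ⟨1, hm⟩ false)
    · simp only [Bool.not_false, Bool.not_true, Bool.false_eq_true, if_true, if_false]
      field_simp
      ring
    · simp only [Bool.not_false, Bool.not_true, Bool.false_eq_true, if_true, if_false]
      field_simp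
      ring

/-- flip the qubits in `W` -/
def q2fl (W : List ℕ) (s : Fin m → Bool) : Fin m → Bool :=
  fun i => if (i : ℕ) ∈ W then !s i else s i

theorem q2fl_fl (W : List ℕ) (s : Fin m → Bool) : q2fl W (q2fl W s) = s := by
  funext i
  unfold q2fl
  split_ifs <;> simp

theorem q2_Xs {W : List ℕ} (hW : W.Nodup) (hWm : ∀ i ∈ W, i < m) (ψ : (Fin m → Bool) → ℝ)
    (s : Fin m → Bool) : circAct A (W.map Xg) ψ s = ψ (q2fl W s) := by
  induction W generalizing ψ s with
  | nil =>
    have h0 : q2fl [] s = s := by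
      funext i
      simp [q2fl]
    rw [h0]
    rfl
  | cons k W ih =>
    rw [List.map_cons, circAct, ih (List.nodup_cons.1 hW).2
      (fun i hi => hWm i (List.mem_cons_of_mem _ hi))]
    have hk : k < m := hWm k List.mem_cons_self
    have hkW : k ∉ W := (List.nodup_cons.1 hW).1
    rw [q2_X A hk]
    congr 1
    funext i
    by_cases hi : i = ⟨k, hk⟩
    · subst hi
      simp [q2fl, hkW]
    · rw [Function.update_of_ne hi]
      have : (i : ℕ) ≠ k := fun h => hi (Fin.ext h)
      simp [q2fl, this]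

theorem q2_rd_fl_of_not_mem {W : List ℕ} {i : ℕ} (h : i ∉ W) (s : Fin m → Bool) :
    rd (q2fl W s) i = rd s i := by
  unfold rd
  split_ifs with hi
  · simp [q2fl, h]
  · rfl

theorem q2_rd_fl_of_mem {W : List ℕ} {i : ℕ} (h : i ∈ W) (hi : i < m) (s : Fin m → Bool) :
    rd (q2fl W s) i = !rd s i := by
  simp [rd, hi, q2fl, h]

theorem rfl0_act {W E : List ℕ} (hW : W.Nodup) (hWm : ∀ i ∈ W, i < m) (hWE : ∀ i ∈ W, i ∉ E)
    (h1 : 1 ∉ W) (h1' : 1 ∉ E) (hm : 1 < m) {ψ : (Fin m → Bool) → ℝ}
    (hψ : ∀ s, ψ s ≠ 0 → rd s 1 = false) (s : Fin m → Bool) :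
    circAct A (rfl0 W E) ψ s =
      (if (∀ i ∈ W, rd s i = false) ∧ (∀ i ∈ E, rd s i = true) then -1 else 1) * ψ s := by
  rw [rfl0, q2_append, q2_append, q2_Xs A hW hWm]
  have hfun : circAct A (W.map Xg) ψ = fun s => ψ (q2fl W s) := by
    funext s
    exact q2_Xs A hW hWm ψ s
  rw [hfun]
  have hsupp : ∀ s : Fin m → Bool, (fun s => ψ (q2fl W s)) s ≠ 0 → rd s 1 = false := by
    intro s hs
    have := hψ _ hs
    rwa [q2_rd_fl_of_not_mem h1] at this
  have h1WE : 1 ∉ W ++ E := by
    rw [List.mem_append]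
    tauto
  rw [ph_act A false h1WE hm hsupp, q2fl_fl]
  congr 1
  have hiff : ((if false = true then A ((W ++ E).map (rd (q2fl W s))) else
      (W ++ E).all (rd (q2fl W s))) = true) ↔
      ((∀ i ∈ W, rd s i = false) ∧ (∀ i ∈ E, rd s i = true)) := by
    rw [if_neg Bool.false_ne_true, List.all_eq_true]
    constructor
    · intro h
      constructor
      · intro i hi
        have := h i (List.mem_append_left _ hi)
        rw [q2_rd_fl_of_mem hi (hWm i hi)] at this
        simpa using this
      · intro i hi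
        have := h i (List.mem_append_right _ hi)
        rwa [q2_rd_fl_of_not_mem (fun hw => hWE i hw hi)] at this
    · rintro ⟨ha, hb⟩ i hi
      rcases List.mem_append.1 hi with hi | hi
      · rw [q2_rd_fl_of_mem hi (hWm i hi), ha i hi]
        rfl
      · rw [q2_rd_fl_of_not_mem (fun hw => hWE i hw hi)]
        exact hb i hi
  exact if_congr hiff rfl rfl

theorem acts_append {W : List ℕ} {C D : List Gate} (hC : Acts A m W C) (hD : Acts A m W D) :
    Acts A m W (C ++ D) := by
  refine ⟨?_, ?_, ?_⟩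
  · intro g hg
    rcases List.mem_append.1 hg with hg | hg
    · exact hC.1 g hg
    · exact hD.1 g hg
  · intro ψ hψ
    rw [q2_append]
    exact hD.2.1 _ (hC.2.1 ψ hψ)
  · intro ψ hψ
    rw [List.reverse_append, q2_append]
    exact hC.2.2 _ (hD.2.2 ψ hψ)

theorem acts_reverse {W : List ℕ} {C : List Gate} (hC : Acts A m W C) :
    Acts A m W C.reverse := by
  refine ⟨?_, hC.2.2, ?_⟩
  · intro g hg
    exact hC.1 g (List.mem_reverse.1 hg)
  · rw [List.reverse_reverse]
    exact hC.2.1

theorem acts_mono {W W' : List ℕ} {C : List Gate} (hC : Acts A m W C) (h : ∀ i ∈ W, i ∈ W') :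
    Acts A m W' C :=
  ⟨fun g hg i hi => (hC.1 g hg i hi).imp (h i) id, hC.2.1, hC.2.2⟩

theorem q2_gate_supp {g : Gate} {i : ℕ} (hi : i ∉ gq g) {b : Bool}
    {ψ : (Fin m → Bool) → ℝ} (h : ∀ s, ψ s ≠ 0 → rd s i = b) :
    ∀ s, gateAct A g ψ s ≠ 0 → rd s i = b := by
  intro s hs
  rcases g with k | ⟨o, q, k⟩
  · have hik : i ≠ k := by
      intro he
      apply hi
      simp [gq, he]
    by_cases hk : k < m
    · have hs' : gateAct A (Hg k) ψ s ≠ 0 := hs
      rw [q2_H A hk] at hs'
      by_cases h0 : ψ (Function.update s ⟨k, hk⟩ false) = 0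
      · by_cases h1 : ψ (Function.update s ⟨k, hk⟩ true) = 0
        · exfalso
          apply hs'
          rw [h0, h1]
          simp
        · have := h _ h1
          rwa [q2_rd_update hk hik] at this
      · have := h _ h0
        rwa [q2_rd_update hk hik] at this
    · have hs' : ψ s ≠ 0 := by
        simpa [gateAct, hk] using hs
      exact h s hs'
  · have hik : i ≠ k := by
      intro he
      apply hi
      simp [gq, he]
    by_cases hk : k < m
    · rw [q2_F A hk] at hs
      have := h _ hs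
      rwa [q2_rd_update hk hik] at this
    · have hs' : ψ s ≠ 0 := by
        cases o <;> simpa [gateAct, flipIf, hk] using hs
      exact h s hs'

theorem q2_supp {C : List Gate} {i : ℕ} (hi : ∀ g ∈ C, i ∉ gq g) {b : Bool}
    {ψ : (Fin m → Bool) → ℝ} (h : ∀ s, ψ s ≠ 0 → rd s i = b) :
    ∀ s, circAct A C ψ s ≠ 0 → rd s i = b := by
  induction C generalizing ψ with
  | nil => exact h
  | cons g C ih =>
    exact ih (fun g' hg' => hi g' (List.mem_cons_of_mem _ hg'))
      (q2_gate_supp A (hi g List.mem_cons_self) h)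

theorem acts_of_not_mem {W : List ℕ} {C : List Gate} (hC : ∀ g ∈ C, ∀ i ∈ gq g, i ∈ W)
    (h1 : 1 ∉ W) : Acts A m W C := by
  refine ⟨fun g hg i hi => Or.inl (hC g hg i hi), ?_, ?_⟩
  · intro ψ hψ
    exact q2_supp A (fun g hg h => h1 (hC g hg 1 h)) hψ
  · intro ψ hψ
    exact q2_supp A (fun g hg h => h1 (hC g (List.mem_reverse.1 hg) 1 h)) hψ

theorem acts_ph (o : Bool) {W q : List ℕ} (hq : ∀ i ∈ q, i ∈ W) (h1 : 1 ∉ W) (hm : 1 < m) :
    Acts A m W (ph o q) := by
  have hq1 : 1 ∉ q := fun h => h1 (hq 1 h)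
  have key : ∀ ψ : (Fin m → Bool) → ℝ, (∀ s, ψ s ≠ 0 → rd s 1 = false) →
      ∀ s, circAct A (ph o q) ψ s ≠ 0 → rd s 1 = false := by
    intro ψ hψ s hs
    rw [ph_act A o hq1 hm hψ] at hs
    exact hψ s (right_ne_zero_of_mul hs)
  refine ⟨?_, key, key⟩
  intro g hg i hi
  simp only [ph, List.mem_cons, List.not_mem_nil, or_false] at hg
  rcases hg with rfl | rfl | rfl | rfl | rfl
  · simp only [gq, Xg, List.mem_singleton] at hi
    exact Or.inr hi
  · simp only [gq, Hg, List.mem_singleton] at hi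
    exact Or.inr hi
  · simp only [gq, List.mem_cons] at hi
    rcases hi with hi | hi
    · exact Or.inr hi
    · exact Or.inl (hq i hi)
  · simp only [gq, Hg, List.mem_singleton] at hi
    exact Or.inr hi
  · simp only [gq, Xg, List.mem_singleton] at hi
    exact Or.inr hi

theorem acts_rfl0 {W E W' : List ℕ} (hW : ∀ i ∈ W, i ∈ W') (hE : ∀ i ∈ E, i ∈ W')
    (h1 : 1 ∉ W') (hm : 1 < m) : Acts A m W' (rfl0 W E) := by
  have hX : Acts A m W' (W.map Xg) := by
    refine acts_of_not_mem A ?_ h1
    intro g hg i hi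
    obtain ⟨k, hk, rfl⟩ := List.mem_map.1 hg
    simp only [gq, Xg, List.mem_singleton] at hi
    rw [hi]
    exact hW k hk
  have hP : Acts A m W' (ph false (W ++ E)) := by
    refine acts_ph A false ?_ h1 hm
    intro i hi
    rcases List.mem_append.1 hi with hi | hi
    · exact hW i hi
    · exact hE i hi
  exact acts_append A (acts_append A hX hP) hX

end Quantum

end Pool.Agent.H543R2.EQ
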