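import Pool.Agent.H543R2.EQ.Defs
import Pool.Agent.H543R2.EQ.Q1
import Pool.Agent.H543R2.EQ.Q2

/-!
# The exact Grover iteration and the acceptance probability
-/

namespace Pool.Agent.H543R2.EQ

open Pool.Agent.NPC Pool.Agent.H620R2.Gauge Finset H568R2 Pool.Agent.H676

section Quantum

variable (A : Oracle) {m : ℕ}

theorem acts_grov {W : List ℕ} {C : List Gate} (hC : Acts A m W C) (h1 : 1 ∉ W) (hm : 1 < m) :
    Acts A m W (grov W C) := by
  have hr : Acts A m W (rfl0 W []) := acts_rfl0 A (fun i hi => hi) (by simp) h1 hm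
  unfold grov
  exact acts_append A (acts_append A (acts_append A (acts_append A hC hr) (acts_reverse A hC)) hr)
    hC

/-- the qubits outside `W` are `0` -/
def Q3Sup (W : List ℕ) (ψ : (Fin m → Bool) → ℝ) : Prop :=
  ∀ i, i ∉ W → ∀ s, ψ s ≠ 0 → rd s i = false

theorem q3_sup_init (W : List ℕ) : Q3Sup W (initSt m) := by
  intro i _ s hs
  unfold initSt at hs
  by_cases h : s = fun _ => false
  · subst h
    unfold rd
    split_ifs <;> rfl
  · exact absurd (if_neg h) hs

theorem q3_sup_lin {W : List ℕ} {φ ψ : (Fin m → Bool) → ℝ} (hφ : Q3Sup W φ) (hψ : Q3Sup W ψ)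
    (a b : ℝ) : Q3Sup W (fun s => a * φ s + b * ψ s) := by
  intro i hi s hs
  by_cases h1 : φ s = 0
  · by_cases h2 : ψ s = 0
    · exact absurd (by simp [h1, h2]) hs
    · exact hψ i hi s h2
  · exact hφ i hi s h1

theorem q3_sup_circ {W : List ℕ} {C : List Gate} (hC : ∀ g ∈ C, ∀ i ∈ gq g, i ∈ W ∨ i = 1)
    (h : ∀ ψ : (Fin m → Bool) → ℝ, (∀ s, ψ s ≠ 0 → rd s 1 = false) →
      ∀ s, circAct A C ψ s ≠ 0 → rd s 1 = false)
    (h1 : 1 ∉ W) {ψ : (Fin m → Bool) → ℝ} (hψ : Q3Sup W ψ) : Q3Sup W (circAct A C ψ) := by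
  intro i hi
  by_cases hi1 : i = 1
  · subst hi1
    exact h ψ (hψ 1 h1)
  · refine circAct_supp A ?_ (hψ i hi)
    intro g hg hgi
    rcases hC g hg i hgi with h' | h'
    · exact hi h'
    · exact hi1 h'

theorem q3_eq_zero {W : List ℕ} {s : Fin m → Bool} (h1 : ∀ i ∈ W, rd s i = false)
    (h2 : ∀ i, i ∉ W → rd s i = false) : s = fun _ => false := by
  funext i
  have h : rd s i = false := by
    by_cases hi : (i : ℕ) ∈ W
    · exact h1 i hi
    · exact h2 i hi
  unfold rd at h
  simpa using h

theorem q3_rd_zero (i : ℕ) : rd (fun _ : Fin m => false) i = false := by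
  unfold rd
  split_ifs <;> rfl

theorem q3_rfl {W : List ℕ} (hW : W.Nodup) (hWm : ∀ i ∈ W, i < m) (h1 : 1 ∉ W) (hm : 1 < m)
    {ψ : (Fin m → Bool) → ℝ} (hψ : Q3Sup W ψ) :
    circAct A (rfl0 W []) ψ =
      fun s => 1 * ψ s + (-2 * ψ (fun _ => false)) * initSt m s := by
  funext s
  rw [rfl0_act A hW hWm (by simp) h1 (by simp) hm (hψ 1 h1)]
  by_cases hs : s = fun _ => false
  · subst hs
    rw [if_pos ⟨fun i _ => q3_rd_zero i, by simp⟩]
    simp only [initSt, if_true]
    ring
  · simp only [initSt, if_neg hs]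
    by_cases h0 : ψ s = 0
    · simp [h0]
    · rw [if_neg]
      · ring
      · rintro ⟨h, -⟩
        exact hs (q3_eq_zero h (fun i hi => hψ i hi s h0))

theorem q3_ip_init (φ : (Fin m → Bool) → ℝ) : ip (initSt m) φ = φ (fun _ => false) := by
  unfold ip initSt
  simp

theorem q3_rev {C : List Gate} :
    circAct A C.reverse (initSt m) (fun _ => false) = amp A m C := by
  have h := ip_circAct A C (initSt m) (initSt m)
  rw [q3_ip_init] at h
  rw [← h]
  unfold ip initSt amp
  simp
  rfl

theorem grov_amp {W : List ℕ} {C : List Gate} (hC : Acts A m W C) (hW : W.Nodup)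
    (hWm : ∀ i ∈ W, i < m) (h1 : 1 ∉ W) (hm : 1 < m) :
    amp A m (grov W C) = 4 * amp A m C ^ 3 - 3 * amp A m C := by
  have hCr := acts_reverse A hC
  have s0 : Q3Sup W (initSt m) := q3_sup_init W
  have s1 : Q3Sup W (circAct A C (initSt m)) := q3_sup_circ A hC.1 hC.2.1 h1 s0
  have s2 : Q3Sup W (circAct A C.reverse (initSt m)) := q3_sup_circ A hCr.1 hCr.2.1 h1 s0
  set x := amp A m C with hx
  have e1 : circAct A (rfl0 W []) (circAct A C (initSt m)) =
      fun s => 1 * circAct A C (initSt m) s + (-2 * x) * initSt m s :=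
    q3_rfl A hW hWm h1 hm s1
  have e2 : circAct A C.reverse (circAct A (rfl0 W []) (circAct A C (initSt m))) =
      fun s => 1 * initSt m s + (-2 * x) * circAct A C.reverse (initSt m) s := by
    rw [e1, circAct_lin, circAct_cancel]
  have e3 : circAct A (rfl0 W [])
      (circAct A C.reverse (circAct A (rfl0 W []) (circAct A C (initSt m)))) =
      fun s => (4 * x ^ 2 - 1) * initSt m s + (-2 * x) * circAct A C.reverse (initSt m) s := by
    rw [e2, q3_rfl A hW hWm h1 hm (q3_sup_lin s0 s2 _ _), q3_rev A]
    funext s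
    simp only [initSt, if_true]
    rw [← hx]
    ring
  have e4 : circAct A (grov W C) (initSt m) =
      fun s => (4 * x ^ 2 - 1) * circAct A C (initSt m) s + (-2 * x) * initSt m s := by
    unfold grov
    rw [circAct_append, circAct_append, circAct_append, circAct_append, e3, circAct_lin,
      circAct_cancel']
  have e5 : amp A m (grov W C) = (4 * x ^ 2 - 1) * x + (-2 * x) * 1 := by
    unfold amp
    rw [e4]
    simp only [initSt, if_true]
    rfl
  rw [e5]
  ring

/-- flip the bits in `W` -/
def q3fl (W : List ℕ) (s : Fin m → Bool) : Fin m → Bool :=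
  fun i => if (i : ℕ) ∈ W then !s i else s i

theorem q3_flips {W : List ℕ} (hW : W.Nodup) (hWm : ∀ i ∈ W, i < m) (ψ : (Fin m → Bool) → ℝ)
    (s : Fin m → Bool) : circAct A (W.map Xg) ψ s = ψ (q3fl W s) := by
  induction W generalizing ψ with
  | nil =>
    have h : q3fl [] s = s := by
      funext i
      simp [q3fl]
    rw [h]
    rfl
  | cons k W ih =>
    have hk : k < m := hWm k (by simp)
    have hkW : k ∉ W := (List.nodup_cons.1 hW).1
    rw [List.map_cons]
    change circAct A (W.map Xg) (gateAct A (Xg k) ψ) s = _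
    rw [ih (List.nodup_cons.1 hW).2 (fun i hi => hWm i (by simp [hi])), gateAct_X A hk]
    apply congrArg ψ
    funext i
    by_cases hi : i = ⟨k, hk⟩
    · subst hi
      simp [q3fl, hkW]
    · have hi' : (i : ℕ) ≠ k := fun h => hi (Fin.ext h)
      simp [q3fl, Function.update_of_ne hi, hi']

theorem q3_fl_fl (W : List ℕ) (s : Fin m → Bool) : q3fl W (q3fl W s) = s := by
  funext i
  unfold q3fl
  by_cases h : (i : ℕ) ∈ W <;> simp [h]

theorem q3_cond {W : List ℕ} (hW : W.Nodup) (hWm : ∀ i ∈ W, i < m) (h0 : 0 ∉ W) (hm : 0 < m)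
    (ψ : (Fin m → Bool) → ℝ) (s : Fin m → Bool) :
    circAct A (W.map Xg ++ [Sum.inr (false, W, 0)] ++ W.map Xg) ψ s =
      if (∀ i ∈ W, rd s i = false) then ψ (Function.update s ⟨0, hm⟩ (!s ⟨0, hm⟩)) else ψ s := by
  rw [circAct_append, circAct_append, q3_flips A hW hWm]
  change gateAct A (Sum.inr (false, W, 0)) (circAct A (W.map Xg) ψ) (q3fl W s) = _
  simp only [gateAct]
  rw [q3_flips A hW hWm]
  have hall : ∀ t : Fin m → Bool, t = Function.update (q3fl W s) ⟨0, hm⟩ false →
      (W.all (rd t) = true ↔ ∀ i ∈ W, rd s i = false) := by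
    intro t ht
    rw [List.all_eq_true]
    refine forall_congr' fun i => forall_congr' fun hi => ?_
    have him := hWm i hi
    have hi0 : i ≠ 0 := fun h => h0 (h ▸ hi)
    have h2 : (⟨i, him⟩ : Fin m) ≠ ⟨0, hm⟩ := fun h => hi0 (congrArg Fin.val h)
    rw [ht]
    simp [rd, him, Function.update_of_ne h2, q3fl, hi]
  have hz : q3fl W s ⟨0, hm⟩ = s ⟨0, hm⟩ := by simp [q3fl, h0]
  by_cases h : ∀ i ∈ W, rd s i = false
  · rw [if_pos h]
    apply congrArg ψ
    have hc : W.all (rd (Function.update (q3fl W s) ⟨0, hm⟩ false)) = true := (hall _ rfl).2 h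
    simp only [flipIf, dif_pos hm, hc, hz]
    funext i
    by_cases hi : i = ⟨0, hm⟩
    · subst hi
      simp [q3fl, h0]
    · rw [Function.update_of_ne hi]
      unfold q3fl
      rw [Function.update_of_ne hi]
      by_cases hiW : (i : ℕ) ∈ W <;> simp [hiW]
  · rw [if_neg h]
    have hc : W.all (rd (Function.update (q3fl W s) ⟨0, hm⟩ false)) = false := by
      rw [← Bool.not_eq_true]
      exact fun hh => h ((hall _ rfl).1 hh)
    simp only [flipIf, dif_pos hm, hc, Bool.xor_false, Function.update_eq_self, q3_fl_fl]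

theorem q3_final {W : List ℕ} {C : List Gate} (u : List Unit) (hC : Acts A u.length W C)
    (hW : W.Nodup) (hWm : ∀ i ∈ W, i < u.length) (h1 : 1 ∉ W) (h0 : 0 ∉ W)
    (hm : 1 < u.length) :
    accProb A (u, C ++ (W.map Xg ++ [Sum.inr (false, W, 0)] ++ W.map Xg)) =
      amp A u.length C ^ 2 := by
  have hm0 : 0 < u.length := by omega
  have s1 : Q3Sup W (circAct A C (initSt u.length)) :=
    q3_sup_circ A hC.1 hC.2.1 h1 (q3_sup_init W)
  unfold accProb
  have hterm : ∀ s : Fin u.length → Bool,
      (if rd s 0 = true then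
        circAct A (C ++ (W.map Xg ++ [Sum.inr (false, W, 0)] ++ W.map Xg)) (initSt u.length) s ^ 2
        else 0) =
      if s = Function.update (fun _ => false) ⟨0, hm0⟩ true then amp A u.length C ^ 2 else 0 := by
    intro s
    rw [circAct_append, q3_cond A hW hWm h0 hm0]
    by_cases hs : s = Function.update (fun _ => false) ⟨0, hm0⟩ true
    · rw [if_pos hs]
      have hr : rd s 0 = true := by rw [hs]; simp [rd, hm0]
      have hz : ∀ i ∈ W, rd s i = false := by
        intro i hi
        have hi0 : i ≠ 0 := fun h => h0 (h ▸ hi)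
        have him := hWm i hi
        have h2 : (⟨i, him⟩ : Fin u.length) ≠ ⟨0, hm0⟩ := fun h => hi0 (congrArg Fin.val h)
        rw [hs]
        simp [rd, him, Function.update_of_ne h2]
      have hu : Function.update s ⟨0, hm0⟩ (!s ⟨0, hm0⟩) = fun _ => false := by
        rw [hs]
        funext i
        by_cases hi : i = ⟨0, hm0⟩
        · subst hi; simp
        · simp [Function.update_of_ne hi]
      rw [if_pos hr, if_pos hz, hu]
      rfl
    · rw [if_neg hs]
      by_cases hr : rd s 0 = true
      · rw [if_pos hr]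
        have hs0 : s ⟨0, hm0⟩ = true := by
          unfold rd at hr
          rwa [dif_pos hm0] at hr
        have hzero : ∀ t : Fin u.length → Bool, (∃ i, i ∉ W ∧ rd t i ≠ false) →
            circAct A C (initSt u.length) t = 0 := by
          rintro t ⟨i, hi, hti⟩
          by_contra hne
          exact hti (s1 i hi t hne)
        by_cases hz : ∀ i ∈ W, rd s i = false
        · rw [if_pos hz]
          have : circAct A C (initSt u.length)
              (Function.update s ⟨0, hm0⟩ (!s ⟨0, hm0⟩)) = 0 := by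
            by_contra hne
            apply hs
            have hall := fun i hi => s1 i hi _ hne
            funext j
            by_cases hj : j = ⟨0, hm0⟩
            · subst hj; simp [hs0]
            · rw [Function.update_of_ne hj]
              by_cases hjW : (j : ℕ) ∈ W
              · have := hz j hjW
                unfold rd at this
                simpa using this
              · have := hall j hjW
                unfold rd at this
                rw [dif_pos j.2] at this
                rw [← this]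
                exact (Function.update_of_ne hj _ _).symm
          rw [this]
          norm_num
        · rw [if_neg hz, hzero s ⟨0, h0, by simp [hr]⟩]
          norm_num
      · rw [if_neg hr]
  simp only [hterm]
  simp

theorem final_acc {W : List ℕ} {C : List Gate} (hC : Acts A m W C) (hW : W.Nodup)
    (hWm : ∀ i ∈ W, i < m) (h1 : 1 ∉ W) (h0 : 0 ∉ W) (hm : 1 < m) :
    accProb A (List.replicate m (), C ++ (W.map Xg ++ [Sum.inr (false, W, 0)] ++ W.map Xg)) =
      amp A m C ^ 2 := by
  generalize hu : List.replicate m () = u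
  have hlen : u.length = m := by rw [← hu]; simp
  subst hlen
  exact q3_final A u hC hW hWm h1 h0 hm

end Quantum

end Pool.Agent.H543R2.EQ
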