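import Pool.Agent.H543R2.EQ.Defs
import Pool.Agent.H543R2.EQ.Q1
import Pool.Agent.H543R2.EQ.Q2
import Pool.Agent.H543R2.EQ.U

/-! The basic circuit computes the value of the instance. -/

namespace Pool.Agent.H543R2.EQ.Q5

open Pool.Agent.NPC Pool.Agent.H620R2.Gauge Finset H568R2 Pool.Agent.H676

section Had

variable (A : Oracle) {m : ℕ}

/-- the sign of the product of two bits -/
def sq (a b : Bool) : ℝ := if a && b then -1 else 1

/-- the entries of a Hadamard matrix or of the identity -/
noncomputable def hk (p : Bool) (a b : Bool) : ℝ :=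
  if p then sq a b / Real.sqrt 2 else if a = b then 1 else 0

theorem had_gate {j : ℕ} (hj : j < m) (ψ : (Fin m → Bool) → ℝ) (s : Fin m → Bool) :
    gateAct A (Hg j) ψ s = ∑ t, (∏ i : Fin m, hk (decide ((i : ℕ) = j)) (s i) (t i)) * ψ t := by
  have h1 : ∀ b : Bool, (∏ i : Fin m, hk (decide ((i : ℕ) = j)) (s i)
      (Function.update s ⟨j, hj⟩ b i)) = sq (s ⟨j, hj⟩) b / Real.sqrt 2 := by
    intro b
    rw [Finset.prod_eq_single (⟨j, hj⟩ : Fin m)]
    · simp [hk]
    · intro i _ hi
      have hi' : (i : ℕ) ≠ j := fun h => hi (Fin.ext h)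
      simp [hk, hi', Function.update_of_ne hi]
    · intro h; exact absurd (Finset.mem_univ _) h
  have h2 : ∑ b : Bool, (sq (s ⟨j, hj⟩) b / Real.sqrt 2) * ψ (Function.update s ⟨j, hj⟩ b) =
      ∑ t, (∏ i : Fin m, hk (decide ((i : ℕ) = j)) (s i) (t i)) * ψ t := by
    refine Fintype.sum_of_injective (fun b => Function.update s ⟨j, hj⟩ b)
      (Function.update_injective s ⟨j, hj⟩) _ _ ?_ ?_
    · intro t ht
      have : ∃ i : Fin m, i ≠ ⟨j, hj⟩ ∧ s i ≠ t i := by
        by_contra hcon
        push Not at hcon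
        apply ht
        refine ⟨t ⟨j, hj⟩, ?_⟩
        funext i
        by_cases hi : i = ⟨j, hj⟩
        · subst hi; simp
        · simp [Function.update_of_ne hi, hcon i hi]
      obtain ⟨i, hi, hst⟩ := this
      have hi' : (i : ℕ) ≠ j := fun h => hi (Fin.ext h)
      rw [Finset.prod_eq_zero (Finset.mem_univ i), zero_mul]
      simp [hk, hi', hst]
    · intro b
      rw [h1]
  rw [← h2]
  show (if h : j < m then
        (ψ (Function.update s ⟨j, h⟩ false) +
          (if s ⟨j, h⟩ then -1 else 1) * ψ (Function.update s ⟨j, h⟩ true)) / Real.sqrt 2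
      else ψ s) = _
  rw [dif_pos hj]
  rw [Fintype.sum_bool]
  simp only [sq, Bool.and_true, Bool.and_false]
  cases s ⟨j, hj⟩ <;> simp <;> ring

theorem had_list {l : List ℕ} (hl : l.Nodup) (hm : ∀ i ∈ l, i < m)
    (ψ : (Fin m → Bool) → ℝ) (s : Fin m → Bool) :
    circAct A (l.map Hg) ψ s = ∑ t, (∏ i : Fin m, hk (decide ((i : ℕ) ∈ l)) (s i) (t i)) * ψ t := by
  induction l generalizing ψ s with
  | nil =>
    show ψ s = _
    rw [Finset.sum_eq_single s]
    · simp [hk]
    · intro t _ ht
      have : ∃ i, s i ≠ t i := by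
        by_contra hcon
        push Not at hcon
        exact ht (funext fun i => (hcon i).symm)
      obtain ⟨i, hi⟩ := this
      rw [Finset.prod_eq_zero (Finset.mem_univ i), zero_mul]
      simp [hk, hi]
    · intro h; exact absurd (Finset.mem_univ _) h
  | cons a l ih =>
    show circAct A (l.map Hg) (gateAct A (Hg a) ψ) s = _
    have hal : a ∉ l := (List.nodup_cons.1 hl).1
    have ham : a < m := hm a (by simp)
    rw [ih (List.nodup_cons.1 hl).2 (fun i hi => hm i (by simp [hi]))]
    have h1 : ∀ t : Fin m → Bool, (∏ i : Fin m, hk (decide ((i : ℕ) ∈ l)) (s i) (t i)) *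
        gateAct A (Hg a) ψ t = ∑ u, (∏ i : Fin m, hk (decide ((i : ℕ) ∈ l)) (s i) (t i) *
          hk (decide ((i : ℕ) = a)) (t i) (u i)) * ψ u := by
      intro t
      rw [had_gate A ham, Finset.mul_sum]
      refine Finset.sum_congr rfl fun u _ => ?_
      rw [Finset.prod_mul_distrib, mul_assoc]
    simp_rw [h1]
    rw [Finset.sum_comm]
    refine Finset.sum_congr rfl fun u _ => ?_
    rw [← Finset.sum_mul]
    congr 1
    rw [← Fintype.prod_sum (f := fun (i : Fin m) (b : Bool) =>
      hk (decide ((i : ℕ) ∈ l)) (s i) b * hk (decide ((i : ℕ) = a)) b (u i))]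
    refine Finset.prod_congr rfl fun i _ => ?_
    rw [Fintype.sum_bool]
    by_cases hia : (i : ℕ) = a
    · simp only [hk, hia, hal, List.mem_cons, true_or, decide_true, decide_false, if_true]
      cases s i <;> simp
    · simp only [hk, hia, List.mem_cons, false_or, decide_false]
      cases u i <;> simp

end Had

section St

variable (n : ℕ)

/-- the bits of the register -/
def reg (x : X n) (r : Fin n → Bool) (j : ℕ) : Bool :=
  if h : j < n then x.1 ⟨j, h⟩ else if h : j - n < n then x.2 ⟨j - n, h⟩
    else if h : j - 2 * n < n then r ⟨j - 2 * n, h⟩ else false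

/-- the bits of a basis state -/
def sv (c e : Bool) (x : X n) (r : Fin n → Bool) (j : ℕ) : Bool :=
  if j = 2 then c else if j = 3 then e else if 25 ≤ j then reg n x r (j - 25) else false

/-- a basis state -/
def st (c e : Bool) (x : X n) (r : Fin n → Bool) : Fin (25 + 3 * n) → Bool :=
  fun i => sv n c e x r i

variable {n}

theorem reg_zero (x : X n) (r : Fin n → Bool) {j : ℕ} (h : 3 * n ≤ j) : reg n x r j = false := by
  unfold reg
  rw [dif_neg (by omega), dif_neg (by omega), dif_neg (by omega)]

theorem reg_1 (x : X n) (r : Fin n → Bool) (i : Fin n) : reg n x r i = x.1 i := by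
  unfold reg
  rw [dif_pos i.2]

theorem reg_2 (x : X n) (r : Fin n → Bool) (i : Fin n) : reg n x r (n + i) = x.2 i := by
  unfold reg
  have := i.2
  rw [dif_neg (by omega), dif_pos (by omega)]
  exact congrArg x.2 (Fin.ext (Nat.add_sub_cancel_left ..))

theorem reg_3 (x : X n) (r : Fin n → Bool) (i : Fin n) : reg n x r (2 * n + i) = r i := by
  unfold reg
  have := i.2
  rw [dif_neg (by omega), dif_neg (by omega), dif_pos (by omega)]
  exact congrArg r (Fin.ext (Nat.add_sub_cancel_left ..))

theorem rd_st (c e : Bool) (x : X n) (r : Fin n → Bool) (j : ℕ) :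
    rd (st n c e x r) j = sv n c e x r j := by
  unfold rd
  split_ifs with h
  · rfl
  · unfold sv
    rw [if_neg (by omega), if_neg (by omega), if_pos (by omega), reg_zero _ _ (by omega)]

theorem sv_2 (c e : Bool) (x : X n) (r : Fin n → Bool) : sv n c e x r 2 = c := by simp [sv]

theorem sv_3 (c e : Bool) (x : X n) (r : Fin n → Bool) : sv n c e x r 3 = e := by simp [sv]

theorem sv_1 (c e : Bool) (x : X n) (r : Fin n → Bool) : sv n c e x r 1 = false := by simp [sv]

theorem sv_25 (c e : Bool) (x : X n) (r : Fin n → Bool) (j : ℕ) :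
    sv n c e x r (25 + j) = reg n x r j := by
  unfold sv
  rw [if_neg (by omega), if_neg (by omega), if_pos (by omega), Nat.add_sub_cancel_left]

/-- the answer of the oracle for a basis state -/
theorem orc_st (y : J n → Bool) (c e : Bool) (x : X n) (r : Fin n → Bool) :
    strVal n y ((qs n).map (rd (st n c e x r))) =
      (if c then (if e then false else y (Sum.inr (x, r)))
       else if e then y (Sum.inl (Sum.inr x)) else y (Sum.inl (Sum.inl x))) := by
  have h1 : (qs n).map (rd (st n c e x r)) =
      c :: e :: (List.range (3 * n)).map (reg n x r) := by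
    unfold qs
    rw [List.map_append, List.range'_eq_map_range, List.map_map]
    simp only [List.map_cons, List.map_nil, rd_st, sv_2, sv_3, List.cons_append, List.nil_append]
    congr 2
    refine List.map_congr_left fun j _ => ?_
    simp only [Function.comp_apply, rd_st]
    exact sv_25 c e x r j
  have h2 : ∀ j, ((List.range (3 * n)).map (reg n x r)).getD j false = reg n x r j := by
    intro j
    rw [List.getD_eq_getElem?_getD]
    by_cases hj : j < 3 * n
    · rw [List.getElem?_map, List.getElem?_range hj]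
      rfl
    · rw [List.getElem?_eq_none (by simpa using hj), reg_zero _ _ (by omega)]
      rfl
  rw [h1]
  unfold strVal
  simp only [h2, reg_1, reg_2, reg_3]

/-! ### The middle part -/

theorem reg_inj {x x' : X n} {r r' : Fin n → Bool} (h : ∀ j, reg n x r j = reg n x' r' j) :
    x = x' ∧ r = r' := by
  refine ⟨Prod.ext (funext fun i => ?_) (funext fun i => ?_), funext fun i => ?_⟩
  · rw [← reg_1 x r, ← reg_1 x' r', h]
  · rw [← reg_2 x r, ← reg_2 x' r', h]
  · rw [← reg_3 x r, ← reg_3 x' r', h]

theorem st_inj {c e c' e' : Bool} {x x' : X n} {r r' : Fin n → Bool}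
    (h : st n c e x r = st n c' e' x' r') : c = c' ∧ e = e' ∧ x = x' ∧ r = r' := by
  have h1 : ∀ j, sv n c e x r j = sv n c' e' x' r' j := fun j => by rw [← rd_st, ← rd_st, h]
  refine ⟨?_, ?_, reg_inj fun j => ?_⟩
  · rw [← sv_2 c e x r, ← sv_2 c' e' x' r', h1]
  · rw [← sv_3 c e x r, ← sv_3 c' e' x' r', h1]
  · rw [← sv_25 c e x r, ← sv_25 c' e' x' r', h1]

/-- a state which is `0` outside the used qubits -/
theorem exists_st (t : Fin (25 + 3 * n) → Bool)
    (h : ∀ i : Fin (25 + 3 * n), (i : ℕ) ≠ 2 → (i : ℕ) ≠ 3 → (i : ℕ) < 25 → t i = false) :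
    ∃ c e x r, st n c e x r = t := by
  refine ⟨rd t 2, rd t 3, (fun i => rd t (25 + i), fun i => rd t (25 + (n + i))),
    fun i => rd t (25 + (2 * n + i)), ?_⟩
  funext i
  have hi := i.2
  have hrd : ∀ j, j = (i : ℕ) → rd t j = t i := by
    intro j hj
    subst hj
    unfold rd
    rw [dif_pos hi]
  unfold st sv
  by_cases h2 : (i : ℕ) = 2
  · rw [if_pos h2]; exact hrd 2 h2.symm
  by_cases h3 : (i : ℕ) = 3
  · rw [if_neg h2, if_pos h3]; exact hrd 3 h3.symm
  by_cases h25 : 25 ≤ (i : ℕ)
  · rw [if_neg h2, if_neg h3, if_pos h25]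
    unfold reg
    by_cases ha : (i : ℕ) - 25 < n
    · rw [dif_pos ha]; exact hrd _ (by simp only; omega)
    by_cases hb : (i : ℕ) - 25 - n < n
    · rw [dif_neg ha, dif_pos hb]; exact hrd _ (by simp only; omega)
    by_cases hc : (i : ℕ) - 25 - 2 * n < n
    · rw [dif_neg ha, dif_neg hb, dif_pos hc]; exact hrd _ (by simp only; omega)
    · omega
  · rw [if_neg h2, if_neg h3, if_neg h25, h i h2 h3 (by omega)]

theorem prod_reg (f : ℕ → ℝ) (hf : ∀ j, j < 25 → f j = 1) :
    ∏ i : Fin (25 + 3 * n), f i = (∏ i : Fin n, f (25 + i) * f (25 + (n + i))) *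
      ∏ i : Fin n, f (25 + (2 * n + i)) := by
  rw [← Finset.prod_range f, Finset.prod_range_add,
    Finset.prod_eq_one (fun j hj => hf j (Finset.mem_range.1 hj)), one_mul,
    show 3 * n = n + n + n by ring, Finset.prod_range_add, Finset.prod_range_add,
    ← Finset.prod_mul_distrib, Finset.prod_range, Finset.prod_range]
  simp only [add_assoc, two_mul]

/-- the entries of the Hadamard transform -/
noncomputable def hx (x k : X n) : ℝ :=
  (∏ i, (sq (x.1 i) (k.1 i) * sq (x.2 i) (k.2 i))) / 2 ^ n

theorem had_reg (A : Oracle) (ψ : (Fin (25 + 3 * n) → Bool) → ℝ) (c e : Bool) (x : X n)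
    (r : Fin n → Bool) :
    circAct A ((List.range' 25 (2 * n)).map Hg) ψ (st n c e x r) =
      ∑ k : X n, hx x k * ψ (st n c e k r) := by
  rw [had_list (m := 25 + 3 * n) A (l := List.range' 25 (2 * n)) List.nodup_range' (fun i hi => by
    rw [List.mem_range'_1] at hi
    omega)]
  symm
  refine Fintype.sum_of_injective (fun k : X n => st n c e k r)
    (fun k k' h => (st_inj h).2.2.1) _ _ ?_ ?_
  · intro t ht
    have : ∃ i : Fin (25 + 3 * n), (i : ℕ) ∉ List.range' 25 (2 * n) ∧ st n c e x r i ≠ t i := by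
      by_contra hcon
      push Not at hcon
      apply ht
      obtain ⟨c', e', x', r', h'⟩ := exists_st t (fun i h2 h3 h25 => by
        rw [← hcon i (by rw [List.mem_range'_1]; omega)]
        show sv n c e x r i = false
        unfold sv
        rw [if_neg h2, if_neg h3, if_neg (by omega)])
      have hrd : ∀ j, j ∉ List.range' 25 (2 * n) → sv n c e x r j = sv n c' e' x' r' j := by
        intro j hj
        rw [← rd_st, ← rd_st, h']
        unfold rd
        split_ifs with hjm
        · exact hcon ⟨j, hjm⟩ hj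
        · rfl
      have hc : c = c' := by
        rw [← sv_2 c e x r, ← sv_2 c' e' x' r', hrd 2 (by rw [List.mem_range'_1]; omega)]
      have he : e = e' := by
        rw [← sv_3 c e x r, ← sv_3 c' e' x' r', hrd 3 (by rw [List.mem_range'_1]; omega)]
      have hr : r = r' := by
        funext i
        rw [← reg_3 x r, ← reg_3 x' r', ← sv_25 c e, ← sv_25 c' e',
          hrd _ (by rw [List.mem_range'_1]; omega)]
      exact ⟨x', by rw [hc, he, hr]; exact h'⟩
    obtain ⟨i, hi, hst⟩ := this
    rw [Finset.prod_eq_zero (Finset.mem_univ i), zero_mul]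
    simp only [hk, hi, decide_false, hst, if_false, Bool.false_eq_true]
  · intro k
    congr 1
    have h1 : ∏ i : Fin (25 + 3 * n), hk (decide ((i : ℕ) ∈ List.range' 25 (2 * n)))
        (st n c e x r i) (st n c e k r i) = ∏ i : Fin (25 + 3 * n),
        (fun j : ℕ => hk (decide (j ∈ List.range' 25 (2 * n)))
        (sv n c e x r j) (sv n c e k r j)) i := rfl
    rw [h1, prod_reg (fun j : ℕ => hk (decide (j ∈ List.range' 25 (2 * n)))
        (sv n c e x r j) (sv n c e k r j))]
    · have h2 : ∀ i : Fin n, (25 + (i : ℕ)) ∈ List.range' 25 (2 * n) := fun i => by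
        rw [List.mem_range'_1]; omega
      have h3 : ∀ i : Fin n, (25 + (n + (i : ℕ))) ∈ List.range' 25 (2 * n) := fun i => by
        rw [List.mem_range'_1]; omega
      have h4 : ∀ i : Fin n, (25 + (2 * n + (i : ℕ))) ∉ List.range' 25 (2 * n) := fun i => by
        rw [List.mem_range'_1]; omega
      simp only [sv_25, h2, h3, h4, reg_1, reg_2, reg_3, hk, decide_true, decide_false, if_true,
        Bool.false_eq_true, if_false, Finset.prod_const_one, mul_one]
      have h5 : ∀ i : Fin n, sq (x.1 i) (k.1 i) / Real.sqrt 2 * (sq (x.2 i) (k.2 i) / Real.sqrt 2) =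
          (sq (x.1 i) (k.1 i) * sq (x.2 i) (k.2 i)) / 2 := by
        intro i
        rw [div_mul_div_comm, Real.mul_self_sqrt (by norm_num)]
      simp only [h5, hx]
      rw [Finset.prod_div_distrib, Finset.prod_const, Finset.card_univ, Fintype.card_fin]
    · intro j hj
      have h2 : j ∉ List.range' 25 (2 * n) := by rw [List.mem_range'_1]; omega
      have h3 : sv n c e x r j = sv n c e k r j := by
        unfold sv
        rw [if_neg (show ¬ 25 ≤ j by omega), if_neg (show ¬ 25 ≤ j by omega)]
      simp only [h2, decide_false, hk, h3, if_true, Bool.false_eq_true, if_false]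

/-- the controlled phases -/
theorem cz_list (A : Oracle) (L : List ℕ) {ψ : (Fin (25 + 3 * n) → Bool) → ℝ}
    (hψ : ∀ s, ψ s ≠ 0 → rd s 1 = false) (s : Fin (25 + 3 * n) → Bool) :
    circAct A (L.flatMap (fun i => ph false [25 + i, 25 + n + i])) ψ s =
      (L.map (fun i => sq (rd s (25 + i)) (rd s (25 + n + i)))).prod * ψ s := by
  induction L generalizing ψ s with
  | nil => simp [circAct]
  | cons a L ih =>
    rw [List.flatMap_cons, circAct_append]
    have h1 : ∀ s, circAct A (ph false [25 + a, 25 + n + a]) ψ s =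
        sq (rd s (25 + a)) (rd s (25 + n + a)) * ψ s := by
      intro s
      rw [ph_act A false (by simp; omega) (by omega) hψ]
      simp [sq]
    rw [ih (fun s hs => hψ s (by
      rw [h1] at hs
      exact right_ne_zero_of_mul hs)), h1, List.map_cons, List.prod_cons]
    ring

theorem list_prod_range (f : ℕ → ℝ) (n : ℕ) : ((List.range n).map f).prod = ∏ i : Fin n, f i := by
  rw [← Finset.prod_range f]
  rfl

theorem prod_two (f : Fin n → Bool → Bool → ℝ) :
    ∑ k : X n, ∏ i, f i (k.1 i) (k.2 i) = ∏ i, ∑ a, ∑ b, f i a b := by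
  rw [Fintype.sum_prod_type, Fintype.prod_sum]
  refine Finset.sum_congr rfl fun k1 _ => ?_
  rw [Fintype.prod_sum]

theorem sum_sq (a b a' b' : Bool) :
    ∑ k, ∑ l, (sq a k * sq b l) * sq k l * (sq k a' * sq l b') =
      2 * (if (a ^^ a') && (b ^^ b') then -1 else 1) := by
  simp only [Fintype.sum_bool, sq]
  cases a <;> cases b <;> cases a' <;> cases b' <;> norm_num

/-- the middle part of the circuit is the matrix `U` -/
theorem mid (A : Oracle) {ψ : (Fin (25 + 3 * n) → Bool) → ℝ}
    (hψ : ∀ s, ψ s ≠ 0 → rd s 1 = false) (c e : Bool) (x : X n) (r : Fin n → Bool) :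
    circAct A ((List.range' 25 (2 * n)).map Hg ++
      (List.range n).flatMap (fun i => ph false [25 + i, 25 + n + i]) ++
      (List.range' 25 (2 * n)).map Hg) ψ (st n c e x r) =
      ∑ x' : X n, U n x x' * ψ (st n c e x' r) := by
  have h1 : ∀ s, circAct A ((List.range' 25 (2 * n)).map Hg) ψ s ≠ 0 → rd s 1 = false := by
    refine circAct_supp A (fun g hg => ?_) hψ
    rw [List.mem_map] at hg
    obtain ⟨a, ha, rfl⟩ := hg
    rw [List.mem_range'_1] at ha
    simp [gq, Hg]
    omega
  rw [circAct_append, circAct_append, had_reg]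
  have h2 : ∀ k : X n, circAct A ((List.range n).flatMap (fun i => ph false [25 + i, 25 + n + i]))
      (circAct A ((List.range' 25 (2 * n)).map Hg) ψ) (st n c e k r) =
      (∏ i : Fin n, sq (k.1 i) (k.2 i)) * ∑ x' : X n, hx k x' * ψ (st n c e x' r) := by
    intro k
    rw [cz_list A _ h1, had_reg, list_prod_range]
    congr 1
    refine Finset.prod_congr rfl fun i _ => ?_
    rw [rd_st, rd_st, sv_25, reg_1, add_assoc, sv_25, reg_2]
  simp_rw [h2, Finset.mul_sum]
  rw [Finset.sum_comm]
  refine Finset.sum_congr rfl fun x' _ => ?_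
  have h3 : ∀ k : X n, hx x k * ((∏ i : Fin n, sq (k.1 i) (k.2 i)) * (hx k x' *
      ψ (st n c e x' r))) = (∏ i : Fin n, (sq (x.1 i) (k.1 i) * sq (x.2 i) (k.2 i)) *
      sq (k.1 i) (k.2 i) * (sq (k.1 i) (x'.1 i) * sq (k.2 i) (x'.2 i))) *
      (ψ (st n c e x' r) / 4 ^ n) := by
    intro k
    unfold hx
    rw [show (4 : ℝ) ^ n = 2 ^ n * 2 ^ n by rw [← mul_pow]; norm_num]
    simp only [Finset.prod_mul_distrib]
    field_simp
  simp_rw [h3]
  rw [← Finset.sum_mul, prod_two (fun i a b => (sq (x.1 i) a * sq (x.2 i) b) * sq a b *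
    (sq a (x'.1 i) * sq b (x'.2 i)))]
  simp_rw [sum_sq]
  rw [Finset.prod_mul_distrib, Finset.prod_const, Finset.card_univ, Fintype.card_fin]
  unfold U
  rw [show (4 : ℝ) ^ n = 2 ^ n * 2 ^ n by rw [← mul_pow]; norm_num]
  field_simp

theorem nodup_l : (2 :: List.range' 25 (3 * n)).Nodup :=
  List.nodup_cons.2 ⟨by rw [List.mem_range'_1]; omega, List.nodup_range'⟩

theorem lt_l : ∀ i ∈ (2 :: List.range' 25 (3 * n)), i < 25 + 3 * n := by
  intro i hi
  rw [List.mem_cons, List.mem_range'_1] at hi
  omega

/-- the state after the first layer -/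
theorem first (A : Oracle) (s : Fin (25 + 3 * n) → Bool) :
    circAct A ((2 :: List.range' 25 (3 * n)).map Hg) (initSt (25 + 3 * n)) s =
      if (∀ i : Fin (25 + 3 * n), (i : ℕ) ∉ (2 :: List.range' 25 (3 * n)) → s i = false)
      then 1 / Real.sqrt 2 ^ (3 * n + 1) else 0 := by
  rw [had_init A nodup_l lt_l, List.length_cons, List.length_range']

theorem last (A : Oracle) (s : Fin (25 + 3 * n) → Bool) :
    circAct A ((2 :: List.range' 25 (3 * n)).map Hg).reverse (initSt (25 + 3 * n)) s =
      if (∀ i : Fin (25 + 3 * n), (i : ℕ) ∉ (2 :: List.range' 25 (3 * n)) → s i = false)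
      then 1 / Real.sqrt 2 ^ (3 * n + 1) else 0 := by
  rw [← List.map_reverse, had_init A (List.nodup_reverse.2 nodup_l)
    (fun i hi => lt_l i (List.mem_reverse.1 hi)), List.length_reverse, List.length_cons,
    List.length_range']
  simp only [List.mem_reverse]

theorem st_off (c : Bool) (x : X n) (r : Fin n → Bool) :
    ∀ i : Fin (25 + 3 * n), (i : ℕ) ∉ (2 :: List.range' 25 (3 * n)) →
      st n c false x r i = false := by
  intro i hi
  rw [List.mem_cons, List.mem_range'_1] at hi
  show sv n c false x r i = false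
  unfold sv
  rw [if_neg (by omega)]
  by_cases h3 : (i : ℕ) = 3
  · rw [if_pos h3]
  · rw [if_neg h3, if_neg (by have := i.2; omega)]

theorem flip_st (c e : Bool) (x : X n) (r : Fin n → Bool) (h : 3 < 25 + 3 * n) :
    Function.update (st n c e x r) ⟨3, h⟩ (!st n c e x r ⟨3, h⟩) = st n c (!e) x r := by
  funext i
  by_cases hi : i = ⟨3, h⟩
  · subst hi
    rw [Function.update_self]
    show (!sv n c e x r 3) = sv n c (!e) x r 3
    rw [sv_3, sv_3]
  · rw [Function.update_of_ne hi]
    show sv n c e x r i = sv n c (!e) x r i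
    have h3 : (i : ℕ) ≠ 3 := fun h' => hi (Fin.ext h')
    unfold sv
    rw [if_neg h3, if_neg h3]

theorem supp_X {A : Oracle} {ψ : (Fin (25 + 3 * n) → Bool) → ℝ}
    (hψ : ∀ s, ψ s ≠ 0 → rd s 1 = false) : ∀ s, gateAct A (Xg 3) ψ s ≠ 0 → rd s 1 = false :=
  circAct_supp A (C := [Xg 3]) (fun g hg => by
    rw [List.mem_singleton] at hg
    subst hg
    simp [gq, Xg]) hψ

theorem acts_had {A : Oracle} {l : List ℕ} (hl : ∀ i ∈ l, i ∈ qs n) :
    Acts A (25 + 3 * n) (qs n) (l.map Hg) := by
  refine acts_of_not_mem A (fun g hg i hi => ?_) (by simp [qs, List.mem_range'_1])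
  rw [List.mem_map] at hg
  obtain ⟨a, ha, rfl⟩ := hg
  rw [show gq (Hg a) = [a] from rfl, List.mem_singleton] at hi
  subst hi
  exact hl _ ha

theorem acts_cz {A : Oracle} : ∀ {L : List ℕ}, (∀ i ∈ L, i < n) → Acts A (25 + 3 * n) (qs n)
    (L.flatMap (fun i => ph false [25 + i, 25 + n + i]))
  | [], _ => acts_of_not_mem A (fun g hg => by simp at hg) (by simp [qs, List.mem_range'_1])
  | a :: L, h => by
    rw [List.flatMap_cons]
    refine acts_append A (acts_ph A false (fun i hi => ?_) (by simp [qs, List.mem_range'_1])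
      (by omega)) (acts_cz (fun i hi => h i (by simp [hi])))
    have ha := h a (by simp)
    simp only [List.mem_cons, List.not_mem_nil, or_false] at hi
    simp only [qs, List.mem_append, List.mem_range'_1]
    omega

end St

theorem symm_U (n : ℕ) (x y : X n) : U n x y = U n y x := by
  unfold U
  congr 1
  refine Finset.prod_congr rfl fun i _ => ?_
  rw [Bool.xor_comm (x.1 i), Bool.xor_comm (x.2 i)]

theorem part1 (n : ℕ) (g : X n × (Fin n → Bool) → ℝ) :
    ∑ q : X n × (Fin n → Bool), ∑ x' : X n, U n q.1 x' * g (x', q.2) = ∑ q, g q := by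
  rw [Fintype.sum_prod_type_right, Fintype.sum_prod_type_right (f := g)]
  refine Finset.sum_congr rfl fun r _ => ?_
  rw [Finset.sum_comm]
  refine Finset.sum_congr rfl fun x' _ => ?_
  show ∑ x, U n x x' * g (x', r) = g (x', r)
  rw [← Finset.sum_mul]
  simp_rw [fun x => symm_U n x x']
  rw [U_row, one_mul]

theorem part2 (n : ℕ) (a b : X n → ℝ) :
    ∑ q : X n × (Fin n → Bool), b q.1 * ∑ x' : X n, U n q.1 x' * a x' =
      2 ^ n * ∑ x, ∑ x', a x * U n x x' * b x' := by
  rw [Fintype.sum_prod_type]
  simp only [Finset.sum_const, Finset.card_univ, Fintype.card_fun, Fintype.card_bool,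
    Fintype.card_fin, nsmul_eq_mul, Nat.cast_pow, Nat.cast_ofNat]
  rw [← Finset.mul_sum]
  congr 1
  simp_rw [Finset.mul_sum]
  rw [Finset.sum_comm]
  refine Finset.sum_congr rfl fun x _ => Finset.sum_congr rfl fun x' _ => ?_
  rw [symm_U n x' x]
  ring

end Pool.Agent.H543R2.EQ.Q5

namespace Pool.Agent.H543R2.EQ

open Pool.Agent.NPC Pool.Agent.H620R2.Gauge Finset H568R2 Pool.Agent.H676 Q5

theorem acts_base (A : Oracle) (n : ℕ) : Acts A (25 + 3 * n) (qs n) (base n) := by
  have h1 : 1 ∉ qs n := by simp [qs, List.mem_range'_1]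
  have hF : Acts A (25 + 3 * n) (qs n) ((2 :: List.range' 25 (3 * n)).map Hg) := by
    refine acts_had fun i hi => ?_
    simp only [qs, List.mem_append, List.mem_range'_1, List.mem_cons, List.not_mem_nil,
      or_false] at hi ⊢
    tauto
  have hH : Acts A (25 + 3 * n) (qs n) ((List.range' 25 (2 * n)).map Hg) := by
    refine acts_had fun i hi => ?_
    simp only [qs, List.mem_append, List.mem_range'_1, List.mem_cons, List.not_mem_nil,
      or_false] at hi ⊢
    omega
  have hP : Acts A (25 + 3 * n) (qs n) (ph true (qs n)) :=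
    acts_ph A true (fun i hi => hi) h1 (by omega)
  have hX : Acts A (25 + 3 * n) (qs n) [Xg 3] := by
    refine acts_of_not_mem A (fun g hg i hi => ?_) h1
    rw [List.mem_singleton] at hg
    subst hg
    rw [show gq (Xg 3) = [3] from rfl, List.mem_singleton] at hi
    subst hi
    simp [qs]
  have hC := acts_cz (n := n) (A := A) (L := List.range n) (fun i hi => List.mem_range.1 hi)
  unfold base
  exact acts_append A (acts_append A (acts_append A (acts_append A (acts_append A (acts_append A
    (acts_append A (acts_append A hF hP) hH) hC) hH) hX) hP) hX) hF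

theorem base_amp (A : Oracle) (n : ℕ) (y : J n → Bool)
    (hA : ∀ s : List Bool, s.length = 3 * n + 2 → A s = strVal n y s) :
    amp A (25 + 3 * n) (base n) = val n y := by
  have h1 : 1 ∉ qs n := by simp [qs, List.mem_range'_1]
  have hlen : ∀ s : Fin (25 + 3 * n) → Bool, ((qs n).map (rd s)).length = 3 * n + 2 := by
    intro s
    rw [List.length_map]
    unfold qs
    rw [List.length_append, List.length_range', List.length_cons, List.length_cons,
      List.length_nil]
    omega
  have h3 : 3 < 25 + 3 * n := by omega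
  set κ : ℝ := 1 / Real.sqrt 2 ^ (3 * n + 1) with hκ
  set F : List Gate := (2 :: List.range' 25 (3 * n)).map Hg with hF
  set M : List Gate := (List.range' 25 (2 * n)).map Hg ++
      (List.range n).flatMap (fun i => ph false [25 + i, 25 + n + i]) ++
      (List.range' 25 (2 * n)).map Hg with hM
  have hb : base n = F ++ ph true (qs n) ++ M ++ [Xg 3] ++ ph true (qs n) ++ [Xg 3] ++ F := by
    rw [hF, hM]
    unfold base
    simp only [List.append_assoc]
  set e0 := initSt (25 + 3 * n) with he0
  set u := circAct A F e0 with hu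
  have hu1 : ∀ s, u s ≠ 0 → rd s 1 = false := by
    intro s hs
    rw [hu, he0, hF, first] at hs
    have hs' := fun h => hs (if_neg h)
    by_contra hcon
    apply hs'
    intro h
    apply hcon
    unfold rd
    rw [dif_pos (by omega)]
    exact h ⟨1, by omega⟩ (by rw [List.mem_cons, List.mem_range'_1]; simp only; omega)
  set v := circAct A (ph true (qs n)) u with hv
  have hv' : ∀ s, v s = sg (A ((qs n).map (rd s))) * u s := by
    intro s
    rw [hv, ph_act A true h1 (by omega) hu1]
    rfl
  have hv1 : ∀ s, v s ≠ 0 → rd s 1 = false := by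
    intro s hs
    rw [hv'] at hs
    exact hu1 s (right_ne_zero_of_mul hs)
  set w := circAct A M v with hw
  have hw1 : ∀ s, w s ≠ 0 → rd s 1 = false := by
    have hH : Acts A (25 + 3 * n) (qs n) ((List.range' 25 (2 * n)).map Hg) := by
      refine acts_had fun i hi => ?_
      simp only [qs, List.mem_append, List.mem_range'_1, List.mem_cons, List.not_mem_nil,
        or_false] at hi ⊢
      omega
    have hC := acts_cz (n := n) (A := A) (L := List.range n) (fun i hi => List.mem_range.1 hi)
    exact (acts_append A (acts_append A hH hC) hH).2.1 v hv1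
  set w' := gateAct A (Xg 3) w with hw'
  have hw1' : ∀ s, w' s ≠ 0 → rd s 1 = false := supp_X hw1
  set z := gateAct A (Xg 3) (circAct A (ph true (qs n)) w') with hz
  have hamp : amp A (25 + 3 * n) (base n) = ip (circAct A F.reverse e0) z := by
    rw [ip_circAct, List.reverse_reverse]
    unfold amp ip
    rw [Finset.sum_eq_single (fun _ => false)]
    · rw [he0]
      simp only [initSt, if_true, one_mul]
      rw [hb]
      simp only [circAct_append]
      rfl
    · intro s _ hs
      rw [he0]
      simp [initSt, hs]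
    · intro h; exact absurd (Finset.mem_univ _) h
  have hzst : ∀ c x r, z (st n c false x r) = sg (A ((qs n).map (rd (st n c true x r)))) *
      ∑ x' : X n, U n x x' * (sg (A ((qs n).map (rd (st n c false x' r)))) * κ) := by
    intro c x r
    rw [hz, gateAct_X A h3, flip_st, ph_act A true h1 (by omega) hw1', hw', gateAct_X A h3, flip_st,
      hw, hM, mid A hv1]
    congr 1
    simp only [Bool.not_true, Bool.not_false]
    refine Finset.sum_congr rfl fun x' _ => ?_
    rw [hv', hu, he0, hF, first, if_pos (st_off c x' r)]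
  rw [hamp]
  unfold ip
  have hsum : ∑ q : Bool × X n × (Fin n → Bool), κ * z (st n q.1 false q.2.1 q.2.2) =
      ∑ s, circAct A F.reverse e0 s * z s := by
    refine Fintype.sum_of_injective (fun q : Bool × X n × (Fin n → Bool) =>
      st n q.1 false q.2.1 q.2.2) ?_ _ _ ?_ ?_
    · rintro ⟨c, x, r⟩ ⟨c', x', r'⟩ h
      obtain ⟨ha, -, hc, hd⟩ := st_inj h
      simp only at ha hc hd
      rw [ha, hc, hd]
    · intro s hs
      rw [hF, he0, last]
      rw [if_neg, zero_mul]
      intro h
      apply hs
      obtain ⟨c, e, x, r, hst⟩ := exists_st s (fun i h2 h3 h25 =>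
        h i (by rw [List.mem_cons, List.mem_range'_1]; omega))
      have he : e = false := by
        rw [← sv_3 c e x r, ← rd_st, hst]
        unfold rd
        rw [dif_pos h3]
        exact h ⟨3, h3⟩ (by rw [List.mem_cons, List.mem_range'_1]; simp only; omega)
      subst he
      exact ⟨(c, x, r), hst⟩
    · rintro ⟨c, x, r⟩
      rw [hF, he0, last, if_pos (st_off c x r)]
  rw [← hsum]
  simp_rw [hzst, fun s => hA _ (hlen s), orc_st]
  rw [Fintype.sum_prod_type, Fintype.sum_bool]
  have hκ2 : κ * κ = 1 / 2 ^ (3 * n + 1) := by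
    rw [hκ, div_mul_div_comm, ← mul_pow, Real.mul_self_sqrt (by norm_num), one_mul]
  have ht : ∑ q : X n × (Fin n → Bool), κ * (sg (if true then (if true then false else
      y (Sum.inr (q.1, q.2))) else if true then y (Sum.inl (Sum.inr q.1)) else
      y (Sum.inl (Sum.inl q.1))) * ∑ x' : X n, U n q.1 x' * (sg (if true then (if false then false
      else y (Sum.inr (x', q.2))) else if false then y (Sum.inl (Sum.inr x')) else
      y (Sum.inl (Sum.inl x'))) * κ)) = κ * κ * ∑ q, sg (y (Sum.inr q)) := by
    rw [← part1 n (fun q => sg (y (Sum.inr q))), Finset.mul_sum]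
    refine Finset.sum_congr rfl fun q _ => ?_
    simp only [if_true, Bool.false_eq_true, if_false, sg]
    rw [Finset.mul_sum, Finset.mul_sum, Finset.mul_sum]
    refine Finset.sum_congr rfl fun x' _ => ?_
    ring
  have hf : ∑ q : X n × (Fin n → Bool), κ * (sg (if false then (if true then false else
      y (Sum.inr (q.1, q.2))) else if true then y (Sum.inl (Sum.inr q.1)) else
      y (Sum.inl (Sum.inl q.1))) * ∑ x' : X n, U n q.1 x' * (sg (if false then (if false then false
      else y (Sum.inr (x', q.2))) else if false then y (Sum.inl (Sum.inr x')) else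
      y (Sum.inl (Sum.inl x'))) * κ)) = κ * κ * (2 ^ n * ∑ x, ∑ x', sg (y (Sum.inl (Sum.inl x))) *
      U n x x' * sg (y (Sum.inl (Sum.inr x')))) := by
    rw [← part2 n (fun x => sg (y (Sum.inl (Sum.inl x)))) (fun x => sg (y (Sum.inl (Sum.inr x)))),
      Finset.mul_sum]
    refine Finset.sum_congr rfl fun q _ => ?_
    simp only [if_true, Bool.false_eq_true, if_false]
    rw [Finset.mul_sum, Finset.mul_sum, Finset.mul_sum, Finset.mul_sum]
    refine Finset.sum_congr rfl fun x' _ => ?_
    ring
  simp only [if_true, if_false, Bool.false_eq_true] at ht hf ⊢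
  rw [ht, hf, hκ2]
  unfold val Psi sgv
  have h8 : (8 : ℝ) ^ n = 2 ^ n * (2 ^ n * 2 ^ n) := by rw [← mul_pow, ← mul_pow]; norm_num
  have h4 : (4 : ℝ) ^ n = 2 ^ n * 2 ^ n := by rw [← mul_pow]; norm_num
  have h2 : (2 : ℝ) ^ (3 * n + 1) = 2 ^ n * (2 ^ n * 2 ^ n) * 2 := by ring
  rw [h8, h4, h2]
  field_simp
  ring

end Pool.Agent.H543R2.EQ
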