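import Pool.Agent.H543R2.EQ.Defs
import Pool.Agent.H671R2.Search

/-!
# Task Q6: the circuits are computable in polynomial time
-/

namespace Pool.Agent.H543R2.EQ

open Pool.Agent.NPC Pool.Agent.H620R2.Gauge

section

variable {α : Type} [TEnc α]

theorem poly_XgQ {k : α → ℕ} (hk : Poly k) : Poly (fun a => Xg (k a)) := by
  unfold Xg
  fun_prop

theorem poly_HgQ {k : α → ℕ} (hk : Poly k) : Poly (fun a => Hg (k a)) := by
  unfold Hg
  fun_prop

attribute [local fun_prop] poly_XgQ poly_HgQ

theorem poly_phQ (o : Bool) {q : α → List ℕ} (hq : Poly q) : Poly (fun a => ph o (q a)) := by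
  unfold ph
  fun_prop

attribute [local fun_prop] poly_phQ

theorem poly_rfl0Q {W E : α → List ℕ} (hW : Poly W) (hE : Poly E) :
    Poly (fun a => rfl0 (W a) (E a)) := by
  unfold rfl0
  fun_prop

attribute [local fun_prop] poly_rfl0Q

theorem poly_grovQ {W : α → List ℕ} {C : α → List Gate} (hW : Poly W) (hC : Poly C) :
    Poly (fun a => grov (W a) (C a)) := by
  unfold grov
  fun_prop

theorem poly_dblQ {W : α → List ℕ} {C : α → List Gate} (b1 b2 : ℕ) (B : List ℕ) (s t z : ℕ)
    (hW : Poly W) (hC : Poly C) :
    Poly (fun a => dbl (W a) b1 b2 B s t z (C a)) := by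
  unfold dbl
  fun_prop

attribute [local fun_prop] poly_grovQ poly_dblQ

/-- the lists `start, start + 1, …` -/
theorem poly_range'Q (s c : ℕ) {l : α → List Bool} (hl : Poly l) :
    Poly (fun a => List.range' s (c * (l a).length)) := by
  have h : Poly (fun a => (List.range (c * (l a).length)).map (fun i => s + i)) :=
    NPC.Poly.map ((UPoly.const c).mul (UPoly.length hl)).range (by fun_prop)
  exact h.congr fun a => by rw [List.range'_eq_map_range]

end

theorem circ_poly : PolyTime (fun x : List Bool => bits (circ x.length)) := by
  have r1 : Poly (fun x : List Bool => List.range' 25 (3 * x.length)) :=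
    poly_range'Q 25 3 NPC.Poly.id
  have r2 : Poly (fun x : List Bool => List.range' 25 (2 * x.length)) :=
    poly_range'Q 25 2 NPC.Poly.id
  have r3 : Poly (fun x : List Bool => List.range x.length) := (UPoly.length NPC.Poly.id).range
  have r4 : Poly (fun x : List Bool => List.replicate (25 + 3 * x.length) ()) := by
    have h : Poly (fun x : List Bool => List.replicate 25 () ++
        (List.range' 25 (3 * x.length)).map (fun _ => ())) := by fun_prop
    exact h.congr fun x => by
      rw [List.map_const', List.length_range', List.replicate_append_replicate]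
  have hqs : Poly (fun x : List Bool => qs x.length) := by
    unfold qs
    fun_prop
  have hbase : Poly (fun x : List Bool => base x.length) := by
    have hph : ∀ b : Bool, Poly (fun x : List Bool => ph b (qs x.length)) := fun b =>
      poly_phQ b hqs
    have hf : Poly (fun x : List Bool =>
        (List.range x.length).flatMap (fun i => ph false [25 + i, 25 + x.length + i])) := by
      refine NPC.Poly.flatMap r3 (poly_phQ false ?_)
      fun_prop
    have hX : Poly (fun x : List Bool => (List.range' 25 (2 * x.length)).map Hg) :=
      NPC.Poly.map r2 (poly_HgQ (NPC.Poly.snd NPC.Poly.id))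
    have hX' : Poly (fun x : List Bool => (2 :: List.range' 25 (3 * x.length)).map Hg) :=
      NPC.Poly.map (NPC.Poly.cons (NPC.Poly.const 2) r1) (poly_HgQ (NPC.Poly.snd NPC.Poly.id))
    unfold base
    exact ((((((((hX'.append (hph true)).append hX).append hf).append hX).append
      (NPC.Poly.const [Xg 3])).append (hph true)).append (NPC.Poly.const [Xg 3])).append hX')
  have hW1 : Poly (fun x : List Bool => W1 x.length) := by
    unfold W1
    fun_prop
  have hW2 : Poly (fun x : List Bool => W2 x.length) := by
    unfold W2
    fun_prop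
  have hW3 : Poly (fun x : List Bool => W3 x.length) := by
    unfold W3
    fun_prop
  have hC1 : Poly (fun x : List Bool => C1 x.length) := poly_dblQ _ _ _ _ _ _ hqs hbase
  have hC2 : Poly (fun x : List Bool => C2 x.length) := poly_dblQ _ _ _ _ _ _ hW1 hC1
  have hC3 : Poly (fun x : List Bool => C3 x.length) := poly_dblQ _ _ _ _ _ _ hW2 hC2
  have hm : Poly (fun x : List Bool => (W3 x.length).map Xg) :=
    NPC.Poly.map hW3 (poly_XgQ (NPC.Poly.snd NPC.Poly.id))
  have hg : Poly (fun x : List Bool => ([Sum.inr (false, W3 x.length, 0)] : List Gate)) := by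
    fun_prop
  have hcirc : Poly (fun x : List Bool => circ x.length) := by
    unfold circ
    exact NPC.Poly.pair r4 ((poly_grovQ hW3 hC3).append ((hm.append hg).append hm))
  exact H622R2.polyTime_of_poly_list (R671.poly_bits.comp hcirc)

end Pool.Agent.H543R2.EQ
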