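import Pool.Agent.H543R2.EQ.Defs
import Pool.Agent.H620R2.Gauge.Blk

/-! Stubs. Never import this file in a finished file. -/

namespace Pool.Agent.H543R2.EQ

open Pool.Agent.NPC Pool.Agent.H620R2.Gauge Finset H568R2 Pool.Agent.H676

section General

variable {I : Type*} [Fintype I] [DecidableEq I]

/-! ### Task A1 : file `A1.lean` (may import Defs) -/

theorem L2_dtr {t : ℕ} {f : (I → Bool) → Bool} (h : DTr t f) : L2 f ≤ (t : ℝ) ^ 2 := by sorry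

theorem L2_le_card (f : (I → Bool) → Bool) : L2 f ≤ (Fintype.card I : ℝ) ^ 2 := by sorry

theorem L2_restr {p : ℝ} (h0 : 0 ≤ p) (h1 : p ≤ 1) (f : (I → Bool) → Bool) :
    p ^ 2 * L2 f ≤ Ex (wq p) (fun ρ : Restr I => L2 (rs f ρ)) := by sorry

theorem level2 {t : ℕ} {p η : ℝ} (hp : 0 < p) (hp1 : p ≤ 1) {f : (I → Bool) → Bool}
    (hG : GoodF t p η f) (σ : Restr I) :
    L2 (rs f σ) ≤ ((t : ℝ) ^ 2 + η * (Fintype.card I : ℝ) ^ 2) / p ^ 2 := by sorry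

/-! ### Task A2 : file `A2.lean` -/

theorem pe_const (z : I → ℝ) (c : ℝ) : pe z (fun _ => c) = c := by sorry

theorem pe_add (z : I → ℝ) (g g' : (I → Bool) → ℝ) :
    pe z (fun y => g y + g' y) = pe z g + pe z g' := by sorry

theorem pe_smul (z : I → ℝ) (c : ℝ) (g : (I → Bool) → ℝ) :
    pe z (fun y => c * g y) = c * pe z g := by sorry

theorem pe_mono {z : I → ℝ} (hz : ∀ i, |z i| ≤ 1) {g g' : (I → Bool) → ℝ}
    (h : ∀ y, g y ≤ g' y) : pe z g ≤ pe z g' := by sorry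

theorem pe_zero (g : (I → Bool) → ℝ) : pe (fun _ => 0) g = av g := by sorry

theorem pe_fourier (w : I → ℝ) (g : (I → Bool) → ℝ) :
    pe w g = ∑ S : I → Bool, co g S * ∏ i, (if S i then w i else 1) := by sorry

theorem pe_split {K H : Type*} [Fintype K] [DecidableEq K] [Fintype H] [DecidableEq H]
    (z : K ⊕ H → ℝ) (hz : ∀ h, z (Sum.inr h) = 0) (g : (K ⊕ H → Bool) → ℝ) :
    pe z g = pe (fun k => z (Sum.inl k)) (fun a => av (fun h => g (Sum.elim a h))) := by sorry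

/-! ### Task A3 : file `A3.lean` (may import A2) -/

theorem one_step {Ω : Type*} [Fintype Ω] [Nonempty Ω] (f : (I → Bool) → Bool) {B : ℝ}
    (hB : ∀ σ : Restr I, L2 (rs f σ) ≤ B) (z : I → ℝ) (hz : ∀ i, |z i| ≤ 1) (w : Ω → I → ℝ)
    (hact : ∀ i, (∀ ω, w ω i = 0) ∨ |z i| ≤ 7 / 8) {a b : ℝ} (ha : 0 ≤ a) (hb : 0 ≤ b)
    (h1 : ∀ i, ∑ ω, w ω i = 0)
    (h2 : ∀ i j, i ≠ j → |∑ ω, w ω i * w ω j| ≤ a * Fintype.card Ω)
    (h3 : ∀ ω i, |w ω i| ≤ b) (hbI : 8 * b * Fintype.card I ≤ 1) :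
    |(∑ ω, pe (fun i => z i + w ω i) (br f)) / Fintype.card Ω - pe z (br f)| ≤
      64 * a * B + (8 * b * Fintype.card I) ^ 3 := by sorry

/-! ### Task A4 : file `A4.lean` -/

section Chain

variable {Ω : Type*} [Fintype Ω] [Nonempty Ω] {S : Type*} (w : Ω → (S → ℝ) → S → ℝ)

theorem chn_const (T : ℕ) (c : ℝ) (z : S → ℝ) : chn w T (fun _ => c) z = c := by sorry

theorem chn_lin (T : ℕ) (a b : ℝ) (G G' : (S → ℝ) → ℝ) (z : S → ℝ) :
    chn w T (fun z => a * G z + b * G' z) z = a * chn w T G z + b * chn w T G' z := by sorry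

theorem chn_mono_inv {P : (S → ℝ) → Prop} (hP : ∀ z, P z → ∀ ω, P (w ω z))
    {G G' : (S → ℝ) → ℝ} (h : ∀ z, P z → G z ≤ G' z) :
    ∀ (T : ℕ) (z : S → ℝ), P z → chn w T G z ≤ chn w T G' z := by sorry

theorem chn_close {P : (S → ℝ) → Prop} (hP : ∀ z, P z → ∀ ω, P (w ω z)) {F : (S → ℝ) → ℝ}
    {e : ℝ} (h : ∀ z, P z → |(∑ ω, F (w ω z)) / Fintype.card Ω - F z| ≤ e) :
    ∀ (T : ℕ) (z : S → ℝ), P z → |chn w T F z - F z| ≤ T * e := by sorry

end Chain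

/-! ### Task B1 : file `B1.lean` -/

theorem sl_step (g : (I → Bool) → Bool) {k : ℕ} (hk : k < Fintype.card I) :
    |sl (k + 1) (br g) - sl k (br g)| ≤ sl k (sens g) / ((Fintype.card I : ℝ) - k) := by sorry

theorem av_eq_sum_sl (g : (I → Bool) → ℝ) :
    av g = ∑ k ∈ range (Fintype.card I + 1),
      ((Fintype.card I).choose k : ℝ) / 2 ^ Fintype.card I * sl k g := by sorry

theorem sl_const {k : ℕ} (hk : k ≤ Fintype.card I) (c : ℝ) :
    sl k (fun _ : I → Bool => c) = c := by sorry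

theorem sl_mono {k : ℕ} {g g' : (I → Bool) → ℝ} (h : ∀ y, wt y = k → g y ≤ g' y) :
    sl k g ≤ sl k g' := by sorry

/-- Chebyshev for the binomial distribution -/
theorem binom_tail {τ : ℝ} (hτ : 0 < τ) {M : ℕ} (hM : 1 ≤ M) :
    ∑ k ∈ (range (M + 1)).filter (fun k : ℕ => τ * M < |(k : ℝ) - M / 2|),
      (M.choose k : ℝ) / 2 ^ M ≤ 1 / (4 * τ ^ 2 * M) := by sorry

/-! ### Task B2 : file `B2.lean` -/

theorem sens_le_dtr {t : ℕ} {g : (I → Bool) → Bool} (h : DTr t g) (y : I → Bool) :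
    sens g y ≤ t := by sorry

theorem sens_le {t : ℕ} {q : ℝ} (h0 : 0 ≤ q) (h1 : q ≤ 1) (g : (I → Bool) → Bool)
    (y : I → Bool) : q * sens g y ≤ t + Fintype.card I * PR t q g y := by sorry

/-! ### Task B3 : file `B3.lean` -/

theorem biased {t : ℕ} {p η : ℝ} (hp : 0 < p) (hp1 : p ≤ 1) {g : (I → Bool) → Bool}
    (hG : GoodF t p η g) {θ : ℝ} (h0 : 1 / 4 ≤ θ) (h1 : θ ≤ 3 / 4) :
    ∑ y : I → Bool, (∏ i, if y i then θ else 1 - θ) * PR t (p / 2) g y ≤ η := by sorry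

/-! ### Task B4 : file `B4.lean` -/

theorem binom_mode {M k : ℕ} (h0 : 0 < k) (h1 : k < M) :
    1 ≤ ((M : ℝ) + 1) * (M.choose k * (((k : ℝ) / M) ^ k * (1 - (k : ℝ) / M) ^ (M - k))) := by
  sorry

theorem sl_le_biased {k : ℕ} (h0 : 0 < k) (h1 : k < Fintype.card I) {F : (I → Bool) → ℝ}
    (hF : ∀ y, 0 ≤ F y) :
    sl k F ≤ ((Fintype.card I : ℝ) + 1) * ∑ y : I → Bool,
      (∏ i, if y i then ((k : ℝ) / Fintype.card I) else 1 - (k : ℝ) / Fintype.card I) * F y := by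
  sorry

/-! ### Task B5 : file `B5.lean` (may import B1 - B4) -/

theorem slices {t : ℕ} {p η : ℝ} (hp : 0 < p) (hp1 : p ≤ 1) (hη : 0 ≤ η)
    {g : (I → Bool) → Bool} (hG : GoodF t p η g) (hM : 1 ≤ Fintype.card I) {τ : ℝ} (hτ : 0 < τ)
    (hτ1 : τ ≤ 1 / 8) {k : ℕ} (hk : |(k : ℝ) - Fintype.card I / 2| ≤ τ * Fintype.card I) :
    |sl k (br g) - av (br g)| ≤
      16 * τ / p * (t + Fintype.card I * (Fintype.card I + 1) * η) +
        1 / (4 * τ ^ 2 * Fintype.card I) := by sorry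

/-! ### Task K1 : file `K1.lean` -/

theorem dtr_sub {K H : Type*} [Fintype K] [DecidableEq K] [Fintype H] [DecidableEq H] {t : ℕ}
    {f : (K ⊕ H → Bool) → Bool} (h : DTr t f) (a : K → Bool) :
    DTr t (fun h : H → Bool => f (Sum.elim a h)) := by sorry

theorem good_part {K H : Type*} [Fintype K] [DecidableEq K] [Fintype H] [DecidableEq H] {t : ℕ}
    {p η : ℝ} (hp1 : p ≤ 1) {f : (K ⊕ H → Bool) → Bool} (hG : GoodF t p η f) (a : K → Bool) :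
    GoodF t p η (fun h : H → Bool => f (Sum.elim a h)) := by sorry

end General

/-! ### Task U : file `U.lean` -/

theorem U_symm (n : ℕ) (x y : X n) : U n x y = U n y x := by sorry

theorem U_abs (n : ℕ) (x y : X n) : |U n x y| = 1 / 2 ^ n := by sorry

theorem U_sq (n : ℕ) (x y : X n) : U n x y * U n x y = 1 / 4 ^ n := by sorry

theorem U_row (n : ℕ) (x : X n) : ∑ y, U n x y = 1 := by sorry

theorem U_orth (n : ℕ) (x x' : X n) : ∑ y, U n x y * U n x' y = if x = x' then 1 else 0 := by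
  sorry

theorem psi_int (n : ℕ) (hn : 1 ≤ n) (y : J n → Bool) :
    ∃ m : ℤ, 8 ^ n * Psi n (sgv y) = 2 * m := by sorry

theorem dflt_no (n : ℕ) : NoI n (dflt n) := by sorry

/-! ### Task A5 : file `A5.lean` (may import A2, U) -/

theorem pe_var (n : ℕ) {z : J n → ℝ} (hz : ∀ i, |z i| ≤ 1) :
    pe z (fun y => (Psi n (sgv y) - Psi n z) ^ 2) ≤ 4 / 4 ^ n := by sorry

/-! ### Task A6 : file `A6.lean` (may import A4, U) -/

theorem inv_stp (n : ℕ) {δ : ℝ} (hδ : 0 ≤ δ) (h : δ * 2 ^ n ≤ 1 / 8) {z : J n → ℝ}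
    (hz : ∀ i, |z i| ≤ 1) (hP : Psi n z ≤ 1 / 8 + 3 * 4 ^ n * δ) (ω : X n → Bool) :
    (∀ i, |stp n δ ω z i| ≤ 1) ∧ Psi n (stp n δ ω z) ≤ 1 / 8 + 3 * 4 ^ n * δ := by sorry

theorem not_reached (n : ℕ) {δ : ℝ} (hδ : 0 ≤ δ) (h : δ * 2 ^ n ≤ 1 / 8) (T : ℕ) {z : J n → ℝ}
    (hz : ∀ i, |z i| ≤ 1) (hP : Psi n z ≤ 1 / 8 + 3 * 4 ^ n * δ) :
    T * δ ^ 2 * chn (stp n δ) T (fun z => if Psi n z < 1 / 8 then (1 : ℝ) else 0) z ≤
      1 / 8 + 3 * 4 ^ n * δ - Psi n z +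
        64 / 49 * ((∑ i, z (Sum.inl i) ^ 2) / 4 ^ n * (T * δ ^ 2) + (T * δ ^ 2) ^ 2) := by sorry

/-! ### Task A7 : file `A7.lean` (may import A2, A4, A5, A6) -/

theorem success (n : ℕ) {δ τ : ℝ} (T : ℕ) (hδ : 0 < δ) (h : δ * 2 ^ n ≤ 1 / 8)
    (hT : T * δ ^ 2 = 1 / 4) (hτ : 0 < τ) (hτ' : 3 * 4 ^ n * δ ≤ τ / 2) :
    1 - (1 / 2 + 12 * 4 ^ n * δ + 16 / 49) - 16 / (4 ^ n * τ ^ 2) ≤
      chn (stp n δ) T (fun z => pe z (fun y =>
        if |Psi n (sgv y) - 1 / 8| ≤ τ then (1 : ℝ) else 0)) (fun _ => 0) := by sorry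

/-! ### Task A8 : file `A8.lean` (may import A2, A3, A4, A6, U) -/

theorem close (n : ℕ) {δ B : ℝ} (T : ℕ) (hδ : 0 ≤ δ) (h : δ * 2 ^ n ≤ 1 / 8)
    (h8 : 8 * (δ * 2 ^ n) * Fintype.card (J n) ≤ 1) (f : (J n → Bool) → Bool)
    (hB : ∀ σ : Restr (J n), L2 (rs f σ) ≤ B) :
    |chn (stp n δ) T (fun z => pe z (br f)) (fun _ => 0) - pe (fun _ => 0) (br f)| ≤
      T * (64 * (δ ^ 2 / 2 ^ n) * B + (8 * (δ * 2 ^ n) * Fintype.card (J n)) ^ 3) := by sorry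

/-! ### Task K2 : file `K2.lean` (may import B1, B5, K1, U) -/

theorem half_yes {n t : ℕ} (hn : 2 ≤ n) {p η τ : ℝ} (hp : 0 < p) (hp1 : p ≤ 1) (hη : 0 ≤ η)
    (hτ : 0 < τ) (hτ1 : τ ≤ 1 / 8) {f : (J n → Bool) → Bool} (hG : GoodF t p η f)
    (hf : ∀ y, YesI n y → f y = true) (a : X n ⊕ X n → Bool)
    (ha : ∀ h, |Psi n (sgv (Sum.elim a h)) - 1 / 8| ≤ τ) :
    1 - eS n t p η τ ≤ av (fun h => br f (Sum.elim a h)) := by sorry

theorem half_no {n t : ℕ} (hn : 2 ≤ n) {p η τ : ℝ} (hp : 0 < p) (hp1 : p ≤ 1) (hη : 0 ≤ η)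
    (hτ : 0 < τ) (hτ1 : τ ≤ 1 / 8) {f : (J n → Bool) → Bool} (hG : GoodF t p η f)
    (hf : ∀ y, NoI n y → f y = false) (a : X n ⊕ X n → Bool)
    (ha : ∀ h, |Psi n (sgv (Sum.elim a h))| ≤ τ) :
    av (fun h => br f (Sum.elim a h)) ≤ eS n t p η τ := by sorry

/-! ### Task K3 : file `K3.lean` (may import everything above) -/

theorem core : ∃ n₀ : ℕ, ∀ n ≥ n₀, ∀ (f : (J n → Bool) → Bool) (t : ℕ) (p : ℝ),
    0 < p → p ≤ 1 → ((t : ℝ) + 1) / p ≤ 2 ^ ((n : ℝ) / 8) → GoodF t p ((1 / 2) ^ (8 * n)) f →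
    ∃ y, (YesI n y ∧ f y = false) ∨ (NoI n y ∧ f y = true) := by sorry

/-! ### Task O1 : file `O1.lean` -/

theorem dtr_leafY (M : Alg) (Y : (n : ℕ) → J n → Bool) (n : ℕ) (s : List Bool) :
    DTr (M.p.eval s.length) (leafY M Y n s) := by sorry

theorem qf_rs {I : Type*} (m : ℕ) (F : List Bool → (I → Bool) → Bool) (σ : Restr I) (k : ℕ)
    (b : Bool) (y : List Bool) :
    rs (QF m F k b y) σ = QF m (fun s => rs (F s) σ) k b y := by sorry

theorem ph_good (M : Alg) (P : Polynomial ℕ) (k : ℕ) : ∃ n₀ : ℕ, ∀ n ≥ n₀,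
    ∃ (t : ℕ) (p : ℝ), 0 < p ∧ p ≤ 1 ∧ ((t : ℝ) + 1) / p ≤ 2 ^ ((n : ℝ) / 8) ∧
      ∀ Y : (n : ℕ) → J n → Bool, GoodF t p ((1 / 2) ^ (8 * n))
        (QF (P.eval n) (leafY M Y n) k true (List.replicate n false)) := by sorry

/-! ### Task O2 : file `O2.lean` (may import K3, O1, U) -/

theorem exists_family : ∃ Y : (n : ℕ) → J n → Bool,
    (∀ n, YesI n (Y n) ∨ NoI n (Y n)) ∧ ¬ IsPH (orcY Y) (langY Y) := by sorry

/-! ### Task Q1 : file `Q1.lean` -/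

section Quantum

variable (A : Oracle) {m : ℕ}

theorem circAct_append (C D : List Gate) (ψ : (Fin m → Bool) → ℝ) :
    circAct A (C ++ D) ψ = circAct A D (circAct A C ψ) := by sorry

theorem circAct_lin (C : List Gate) (a b : ℝ) (φ ψ : (Fin m → Bool) → ℝ) :
    circAct A C (fun s => a * φ s + b * ψ s) =
      fun s => a * circAct A C φ s + b * circAct A C ψ s := by sorry

theorem circAct_sum {ι : Type*} (F : Finset ι) (C : List Gate)
    (ψ : ι → (Fin m → Bool) → ℝ) :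
    circAct A C (fun s => ∑ i ∈ F, ψ i s) = fun s => ∑ i ∈ F, circAct A C (ψ i) s := by sorry

theorem ip_circAct (C : List Gate) (φ ψ : (Fin m → Bool) → ℝ) :
    ip (circAct A C φ) ψ = ip φ (circAct A C.reverse ψ) := by sorry

theorem circAct_cancel (C : List Gate) (ψ : (Fin m → Bool) → ℝ) :
    circAct A C.reverse (circAct A C ψ) = ψ := by sorry

theorem circAct_cancel' (C : List Gate) (ψ : (Fin m → Bool) → ℝ) :
    circAct A C (circAct A C.reverse ψ) = ψ := by sorry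

theorem circAct_X_comm {C : List Gate} {i : ℕ} (hi : ∀ g ∈ C, i ∉ gq g)
    (ψ : (Fin m → Bool) → ℝ) :
    circAct A C (gateAct A (Xg i) ψ) = gateAct A (Xg i) (circAct A C ψ) := by sorry

theorem circAct_supp {C : List Gate} {i : ℕ} (hi : ∀ g ∈ C, i ∉ gq g) {b : Bool}
    {ψ : (Fin m → Bool) → ℝ} (h : ∀ s, ψ s ≠ 0 → rd s i = b) :
    ∀ s, circAct A C ψ s ≠ 0 → rd s i = b := by sorry

theorem gateAct_X {k : ℕ} (hk : k < m) (ψ : (Fin m → Bool) → ℝ) (s : Fin m → Bool) :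
    gateAct A (Xg k) ψ s = ψ (Function.update s ⟨k, hk⟩ (!s ⟨k, hk⟩)) := by sorry

/-- Hadamard gates on distinct qubits, applied to the zero state -/
theorem had_init {l : List ℕ} (hl : l.Nodup) (hm : ∀ i ∈ l, i < m) (s : Fin m → Bool) :
    circAct A (l.map Hg) (initSt m) s =
      if (∀ i : Fin m, (i : ℕ) ∉ l → s i = false) then 1 / Real.sqrt 2 ^ l.length else 0 := by
  sorry

/-! ### Task Q2 : file `Q2.lean` (may import Q1) -/

theorem ph_act (o : Bool) {q : List ℕ} (hq : 1 ∉ q) (hm : 1 < m) {ψ : (Fin m → Bool) → ℝ}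
    (hψ : ∀ s, ψ s ≠ 0 → rd s 1 = false) (s : Fin m → Bool) :
    circAct A (ph o q) ψ s =
      (if (if o then A (q.map (rd s)) else q.all (rd s)) then -1 else 1) * ψ s := by sorry

theorem rfl0_act {W E : List ℕ} (hW : W.Nodup) (hWm : ∀ i ∈ W, i < m) (hWE : ∀ i ∈ W, i ∉ E)
    (h1 : 1 ∉ W) (h1' : 1 ∉ E) (hm : 1 < m) {ψ : (Fin m → Bool) → ℝ}
    (hψ : ∀ s, ψ s ≠ 0 → rd s 1 = false) (s : Fin m → Bool) :
    circAct A (rfl0 W E) ψ s =
      (if (∀ i ∈ W, rd s i = false) ∧ (∀ i ∈ E, rd s i = true) then -1 else 1) * ψ s := by sorry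

theorem acts_append {W : List ℕ} {C D : List Gate} (hC : Acts A m W C) (hD : Acts A m W D) :
    Acts A m W (C ++ D) := by sorry

theorem acts_reverse {W : List ℕ} {C : List Gate} (hC : Acts A m W C) :
    Acts A m W C.reverse := by sorry

theorem acts_mono {W W' : List ℕ} {C : List Gate} (hC : Acts A m W C) (h : ∀ i ∈ W, i ∈ W') :
    Acts A m W' C := by sorry

theorem acts_of_not_mem {W : List ℕ} {C : List Gate} (hC : ∀ g ∈ C, ∀ i ∈ gq g, i ∈ W)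
    (h1 : 1 ∉ W) : Acts A m W C := by sorry

theorem acts_ph (o : Bool) {W q : List ℕ} (hq : ∀ i ∈ q, i ∈ W) (h1 : 1 ∉ W) (hm : 1 < m) :
    Acts A m W (ph o q) := by sorry

theorem acts_rfl0 {W E W' : List ℕ} (hW : ∀ i ∈ W, i ∈ W') (hE : ∀ i ∈ E, i ∈ W')
    (h1 : 1 ∉ W') (hm : 1 < m) : Acts A m W' (rfl0 W E) := by sorry

/-! ### Task Q3 : file `Q3.lean` (may import Q1, Q2) -/

theorem acts_grov {W : List ℕ} {C : List Gate} (hC : Acts A m W C) (h1 : 1 ∉ W) (hm : 1 < m) :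
    Acts A m W (grov W C) := by sorry

theorem grov_amp {W : List ℕ} {C : List Gate} (hC : Acts A m W C) (hW : W.Nodup)
    (hWm : ∀ i ∈ W, i < m) (h1 : 1 ∉ W) (hm : 1 < m) :
    amp A m (grov W C) = 4 * amp A m C ^ 3 - 3 * amp A m C := by sorry

theorem final_acc {W : List ℕ} {C : List Gate} (hC : Acts A m W C) (hW : W.Nodup)
    (hWm : ∀ i ∈ W, i < m) (h1 : 1 ∉ W) (h0 : 0 ∉ W) (hm : 1 < m) :
    accProb A (List.replicate m (), C ++ (W.map Xg ++ [Sum.inr (false, W, 0)] ++ W.map Xg)) =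
      amp A m C ^ 2 := by sorry

/-! ### Task Q4 : file `Q4.lean` (may import Q1, Q2, Q3) -/

theorem acts_dbl {W : List ℕ} {b1 b2 : ℕ} {B : List ℕ} {s t z : ℕ} {C : List Gate}
    (hC : Acts A m W C) (hnd : (W ++ (b1 :: b2 :: B ++ [s, t, z])).Nodup)
    (hlt : ∀ i ∈ W ++ (b1 :: b2 :: B ++ [s, t, z]), i < m)
    (h1 : 1 ∉ W ++ (b1 :: b2 :: B ++ [s, t, z])) (hm : 1 < m) :
    Acts A m (W ++ (b1 :: b2 :: B ++ [s, t, z])) (dbl W b1 b2 B s t z C) := by sorry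

theorem dbl_amp {W : List ℕ} {b1 b2 : ℕ} {B : List ℕ} {s t z : ℕ} {C : List Gate}
    (hC : Acts A m W C) (hnd : (W ++ (b1 :: b2 :: B ++ [s, t, z])).Nodup)
    (hlt : ∀ i ∈ W ++ (b1 :: b2 :: B ++ [s, t, z]), i < m)
    (h1 : 1 ∉ W ++ (b1 :: b2 :: B ++ [s, t, z])) (hm : 1 < m) :
    amp A m (dbl W b1 b2 B s t z C) = 3 / 4 * (4 * amp A m C ^ 3 - 3 * amp A m C) +
      (1 / 4 - 3 / 2 ^ (B.length + 4)) * amp A m C := by sorry

end Quantum

/-! ### Task Q5 : file `Q5.lean` (may import Q1, Q2, U) -/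

theorem acts_base (A : Oracle) (n : ℕ) : Acts A (25 + 3 * n) (qs n) (base n) := by sorry

theorem base_amp (A : Oracle) (n : ℕ) (y : J n → Bool)
    (hA : ∀ s : List Bool, s.length = 3 * n + 2 → A s = strVal n y s) :
    amp A (25 + 3 * n) (base n) = val n y := by sorry

/-! ### Task Q6 : file `Q6.lean` -/

theorem circ_poly : PolyTime (fun x : List Bool => bits (circ x.length)) := by sorry

/-! ### Task Q7 : file `Q7.lean` (may import Q3, Q4, Q5) -/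

theorem circ_correct (A : Oracle) (n : ℕ) (y : J n → Bool)
    (hA : ∀ s : List Bool, s.length = 3 * n + 2 → A s = strVal n y s) :
    (YesI n y → accProb A (circ n) = 1) ∧ (NoI n y → accProb A (circ n) = 0) := by sorry

end Pool.Agent.H543R2.EQ
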