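import Pool.Agent.H543R2.EQ.DefsE
import Pool.Agent.H620R2.Gauge.Blk
import Pool.Agent.H620R2.Gauge.Upper

/-! Stubs. Never import this file in a finished file. -/

namespace Pool.Agent.H543R2.EQ

open Pool.Agent.NPC Pool.Agent.H620R2.Gauge Finset H568R2 Pool.Agent.H676

/-! ### Task E1 : file `E1.lean` -/

theorem exists_cod : Nonempty Cod := by sorry

/-! ### Task E2 : file `E2.lean` -/

theorem PhiC_code (c : Cod) (B : Oracle) (e : ℕ) (x : List Bool) :
    PhiC c B (code c.R e x) = true ↔
      QO (PhiC c B) (c.M e) ((c.P e).eval x.length) (c.k e) true x := by sorry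

theorem PhiC_not (c : Cod) (B : Oracle) (y : List Bool) (h : ∀ e x, y ≠ code c.R e x) :
    PhiC c B y = B y := by sorry

theorem PhiC_mod (c : Cod) (B : Oracle) (y : List Bool) (h : y.length % 3 = 2) :
    PhiC c B y = B y := by sorry

/-- the answers to questions of length at most `m` depend only on the strings of length at most
`m` -/
theorem PhiC_local (c : Cod) {B B' : Oracle} (m : ℕ) (h : ∀ y : List Bool, y.length ≤ m → B y = B' y)
    (y : List Bool) (hy : y.length ≤ m) : PhiC c B y = PhiC c B' y := by sorry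

theorem isPH_iff_code (c : Cod) (B : Oracle) {L : Set (List Bool)} (h : IsPH (PhiC c B) L) :
    ∃ e, ∀ x, x ∈ L ↔ PhiC c B (code c.R e x) = true := by sorry

theorem isP_of_isPH (c : Cod) (B : Oracle) {L : Set (List Bool)} (h : IsPH (PhiC c B) L) :
    IsP (PhiC c B) L := by sorry

/-! ### Task E3 : file `E3.lean` -/

section

variable {I : Type*} [Fintype I] [DecidableEq I]

theorem DTr_bind {t k : ℕ} {g : (I → Bool) → Bool} (hg : DTr t g)
    {f : Bool → (I → Bool) → Bool} (hf : ∀ b, DTr k (f b)) :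
    DTr (t + k) (fun y => f (g y) y) := by sorry

theorem dtr_run' (M : Alg) (O : (I → Bool) → Oracle) (t : ℕ) (s : List Bool)
    (hO : ∀ a q : List Bool, a.length < M.p.eval s.length → M.D (pairBits s a) = false :: q →
      DTr t (fun y => O y q)) :
    DTr (M.p.eval s.length * t) (fun y => decide (M.out (O y) s = some [true])) := by sorry

theorem bad_mono {t : ℕ} {q p : ℝ} (h0 : 0 < q) (h1 : q ≤ p) (h2 : p ≤ 1)
    (f : (I → Bool) → Bool) : bad t q f ≤ bad t p f := by sorry

end

/-! ### Task E4 : file `E4.lean` (may import E2) -/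

/-- the answer to a short question depends on at most one bit of the instance -/
theorem ans_short (c : Cod) (Y : (n : ℕ) → J n → Bool) (n : ℕ) (z : List Bool)
    (hz : z.length ≤ 3 * n + 2) : DTr 1 (ansE c Y n z) := by sorry

/-- longer strings that are not codes are constant -/
theorem ans_not (c : Cod) (Y : (n : ℕ) → J n → Bool) (n : ℕ) (z : List Bool)
    (hz : 3 * n + 2 < z.length) (h : ∀ e x, z ≠ code c.R e x) : DTr 0 (ansE c Y n z) := by sorry

/-- codes: alternating quantifiers in front of decision trees -/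
theorem ans_code (c : Cod) (Y : (n : ℕ) → J n → Bool) (n : ℕ) (e : ℕ) (x : List Bool) :
    ansE c Y n (code c.R e x) = QF ((c.P e).eval x.length)
      (fun s y => decide ((c.M e).out (PhiC c (orcY (Function.update Y n y))) s = some [true]))
      (c.k e) true x := by sorry

/-! ### Task E5 : file `E5.lean` (may import E3, E4) -/

open Classical in
/-- one level: if the answers to all questions of length at most `ℓ` are decision trees of depth
`t`, then after a further random restriction the answers to all questions of length at most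
`min D (ℓ ^ 2)` are decision trees of depth `t' ≥ D * t` -/
theorem level_step (c : Cod) (Y : (n : ℕ) → J n → Bool) (n ℓ D t t' K : ℕ) (hn : 3 * n + 2 ≤ ℓ)
    (ht : D * t + 1 ≤ t') (hK : D ≤ 2 ^ K) {q : ℝ} (h0 : 0 < q) (h1 : q ≤ 1 / 3)
    (σ : Restr (J n))
    (hσ : ∀ z : List Bool, z.length ≤ ℓ → DTr t (rs (ansE c Y n z) σ)) :
    Ex (wq (q ^ K)) (fun ρ : Restr (J n) =>
      if ¬ ∀ z : List Bool, z.length ≤ D → z.length ≤ ℓ ^ 2 →
        DTr t' (rs (rs (ansE c Y n z) σ) ρ) then (1 : ℝ) else 0) ≤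
      2 ^ (D + 1) * (K * 2 ^ (D + 2) * (12 * t' * q) ^ (t' + 1)) := by sorry

/-! ### Task E6 : file `E6.lean` (may import E3 - E5) -/

theorem good_all (c : Cod) (D : Polynomial ℕ) : ∃ n₀ : ℕ, ∀ n ≥ n₀,
    ∃ (t : ℕ) (p : ℝ), 0 < p ∧ p ≤ 1 ∧ ((t : ℝ) + 1) / p ≤ 2 ^ ((n : ℝ) / 8) ∧
      ∀ (Y : (n : ℕ) → J n → Bool) (z : List Bool), z.length ≤ D.eval n →
        GoodF t p ((1 / 2) ^ (8 * n)) (ansE c Y n z) := by sorry

/-! ### Task E7 : file `E7.lean` (may import E2, E6, K3, U) -/

theorem exists_familyE (c : Cod) : ∃ Y : (n : ℕ) → J n → Bool,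
    (∀ n, YesI n (Y n) ∨ NoI n (Y n)) ∧
    ∀ e, ∃ n, ¬ (PhiC c (orcY Y) (code c.R e (List.replicate n false)) = true ↔
      YesI n (Y n)) := by sorry

end Pool.Agent.H543R2.EQ
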